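import Pool.Agent.V8H78.MP.Dens

/-!
Counting rational vectors by height.
-/

set_option autoImplicit false

namespace Pool.Agent.V8H78.MP

open Finset Filter

/-- height at most `H` -/
def HtLe {n : ℕ} (H : ℕ) (t : Fin n → ℚ) : Prop :=
  ∃ (a : Fin n → ℤ) (Q : ℕ), 0 < Q ∧ Q ≤ H ∧ (∀ i, |a i| ≤ H) ∧ ∀ i, t i = a i / Q

theorem natCard_le_cnt {α β : Type} [Fintype α] (f : α → β) (R : α → Prop) (S : β → Prop)
    (h : ∀ b, S b → ∃ a, R a ∧ f a = b) : Nat.card {b // S b} ≤ cnt R := by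
  classical
  rw [cnt_eq_natCard]
  choose g hg using h
  refine Nat.card_le_card_of_injective
    (fun b : {b // S b} => (⟨g b b.2, (hg b b.2).1⟩ : {a // R a})) ?_
  intro b b' hbb
  have h1 : g b b.2 = g b' b'.2 := congrArg Subtype.val hbb
  apply Subtype.ext
  rw [← (hg b b.2).2, ← (hg b' b'.2).2, h1]

theorem finite_HtLe {n : ℕ} (H : ℕ) : Finite {t : Fin n → ℚ // HtLe H t} := by
  classical
  have hf : ∀ t : {t : Fin n → ℚ // HtLe H t}, ∃ v : (Fin n → Bx H) × Dx H,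
      (fun i => ((v.1 i : ℤ) : ℚ) / ((v.2 : ℕ) : ℚ)) = t.1 := by
    rintro ⟨t, a, Q, hQ0, hQ, ha, ht⟩
    refine ⟨(fun i => ⟨a i, mem_Icc.2 (abs_le.1 (ha i))⟩, ⟨Q, mem_Ico.2 ⟨hQ0, by omega⟩⟩), ?_⟩
    funext i
    exact (ht i).symm
  choose g hg using hf
  refine Finite.of_injective g fun t t' h => ?_
  apply Subtype.ext
  rw [← hg t, ← hg t', h]

theorem cnt_add_not {α : Type} [Fintype α] (R : α → Prop) :
    cnt R + cnt (fun a => ¬ R a) = Fintype.card α := by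
  classical
  unfold cnt
  rw [← card_univ, ← card_filter_add_card_filter_not (s := (univ : Finset α)) R]
  congr

theorem cnt_prod_both {α β : Type} [Fintype α] [Fintype β] (R : α → Prop) (S : β → Prop) :
    cnt (fun v : α × β => R v.1 ∧ S v.2) = cnt R * cnt S := by
  classical
  unfold cnt
  rw [← card_product]
  congr 1
  ext v
  simp

theorem cnt_Dx_dvd (H d : ℕ) : cnt (fun x : Dx H => d ∣ (x : ℕ)) = H / d := by
  classical
  rw [cnt_Dx H (fun x => d ∣ x), ← Nat.Ioc_filter_dvd_card_eq_div H d]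
  congr 1
  ext x
  simp only [mem_filter, mem_Ico, mem_Ioc]
  constructor
  · rintro ⟨h1, h2⟩
    exact ⟨by omega, h2⟩
  · rintro ⟨h1, h2⟩
    exact ⟨by omega, h2⟩

theorem sum_inv_sq (H : ℕ) (hH : 2 ≤ H) :
    ∑ d ∈ Icc 2 H, ((d : ℝ) ^ 2)⁻¹ ≤ 3 / 4 - 1 / H := by
  induction H, hH using Nat.le_induction with
  | base => norm_num
  | succ k hk ih =>
    rw [Finset.sum_Icc_succ_top (by omega)]
    have hk0 : (0 : ℝ) < k := by
      have : 0 < k := by omega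
      exact_mod_cast this
    have h1 : (((k + 1 : ℕ) : ℝ) ^ 2)⁻¹ ≤ 1 / k - 1 / ((k + 1 : ℕ) : ℝ) := by
      push_cast
      rw [div_sub_div _ _ hk0.ne' (by positivity), inv_eq_one_div, div_le_div_iff₀ (by positivity)
        (by positivity)]
      nlinarith
    linarith

/-- coprime pairs -/
theorem cnt_coprime (n H : ℕ) (i : Fin n) :
    (H : ℝ) ^ (n + 1) / 4 ≤
      cnt (fun v : (Fin n → Dx H) × Dx H => (v.1 i : ℕ).Coprime v.2) := by
  classical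
  have hn : 0 < n := i.pos
  have h1 : cnt (fun v : (Fin n → Dx H) × Dx H => ¬ (v.1 i : ℕ).Coprime v.2) ≤
      ∑ d ∈ Icc 2 H, (H / d) ^ 2 * H ^ (n - 1) := by
    have h2 : cnt (fun v : (Fin n → Dx H) × Dx H => ¬ (v.1 i : ℕ).Coprime v.2) ≤
        ∑ d : {d // d ∈ Icc 2 H}, cnt (fun v : (Fin n → Dx H) × Dx H =>
          (d : ℕ) ∣ (v.1 i : ℕ) ∧ (d : ℕ) ∣ v.2) := by
      refine (cnt_mono ?_).trans (cnt_exists (fun (d : {d // d ∈ Icc 2 H})
        (v : (Fin n → Dx H) × Dx H) => (d : ℕ) ∣ (v.1 i : ℕ) ∧ (d : ℕ) ∣ v.2))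
      intro v hv
      have hv2 := mem_Ico.1 v.2.2
      have hg : 0 < Nat.gcd (v.1 i : ℕ) v.2 := Nat.gcd_pos_of_pos_right _ (by omega)
      have hg2 : Nat.gcd (v.1 i : ℕ) v.2 ≤ v.2 := Nat.le_of_dvd (by omega) (Nat.gcd_dvd_right _ _)
      have hne : Nat.gcd (v.1 i : ℕ) v.2 ≠ 1 := hv
      exact ⟨⟨Nat.gcd (v.1 i : ℕ) v.2, mem_Icc.2 ⟨by omega, by omega⟩⟩, Nat.gcd_dvd_left _ _,
        Nat.gcd_dvd_right _ _⟩
    refine h2.trans ?_
    rw [← sum_coe_sort (Icc 2 H) (fun d => (H / d) ^ 2 * H ^ (n - 1))]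
    refine sum_le_sum fun d _ => ?_
    have h3 := cnt_prod_both (fun a : Fin n → Dx H => (d : ℕ) ∣ (a i : ℕ))
      (fun Q : Dx H => (d : ℕ) ∣ (Q : ℕ))
    rw [h3, cnt_Dx_dvd]
    have h4 := cnt_single i (fun x : Dx H => (d : ℕ) ∣ (x : ℕ)) (H / d) (cnt_Dx_dvd H d).le
    rw [card_Dx] at h4
    calc _ ≤ (H / d * H ^ (n - 1)) * (H / d) := Nat.mul_le_mul_right _ h4
      _ = _ := by ring
  have h2 := cnt_add_not (fun v : (Fin n → Dx H) × Dx H => (v.1 i : ℕ).Coprime v.2)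
  have hcard : Fintype.card ((Fin n → Dx H) × Dx H) = H ^ (n + 1) := by
    rw [Fintype.card_prod, Fintype.card_fun, card_Dx, Fintype.card_fin, pow_succ]
  rw [hcard] at h2
  have h3 : ((∑ d ∈ Icc 2 H, (H / d) ^ 2 * H ^ (n - 1) : ℕ) : ℝ) ≤ 3 / 4 * (H : ℝ) ^ (n + 1) := by
    have h4 : ∑ d ∈ Icc 2 H, ((d : ℝ) ^ 2)⁻¹ ≤ 3 / 4 := by
      rcases Nat.lt_or_ge H 2 with h | h
      · rw [Icc_eq_empty (by omega), sum_empty]
        norm_num
      · have := sum_inv_sq H h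
        have h0 : (0 : ℝ) ≤ 1 / H := by positivity
        linarith
    push_cast
    calc ∑ d ∈ Icc 2 H, (((H / d : ℕ) : ℝ)) ^ 2 * (H : ℝ) ^ (n - 1)
        ≤ ∑ d ∈ Icc 2 H, ((H : ℝ) ^ (n + 1) * ((d : ℝ) ^ 2)⁻¹) := by
          refine sum_le_sum fun d hd => ?_
          have h5 : ((H / d : ℕ) : ℝ) ≤ H / d := Nat.cast_div_le
          have h6 : (H : ℝ) ^ (n + 1) = (H : ℝ) ^ 2 * (H : ℝ) ^ (n - 1) := by
            rw [← pow_add]
            congr 1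
            omega
          calc ((H / d : ℕ) : ℝ) ^ 2 * (H : ℝ) ^ (n - 1)
              ≤ ((H : ℝ) / d) ^ 2 * (H : ℝ) ^ (n - 1) := by gcongr
            _ = (H : ℝ) ^ (n + 1) * ((d : ℝ) ^ 2)⁻¹ := by
              rw [h6, div_pow, div_eq_mul_inv]
              ring
      _ = (H : ℝ) ^ (n + 1) * ∑ d ∈ Icc 2 H, ((d : ℝ) ^ 2)⁻¹ := by rw [mul_sum]
      _ ≤ (H : ℝ) ^ (n + 1) * (3 / 4) := mul_le_mul_of_nonneg_left h4 (by positivity)
      _ = _ := by ring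
  have h5 : ((cnt (fun v : (Fin n → Dx H) × Dx H => (v.1 i : ℕ).Coprime v.2) : ℕ) : ℝ) +
      (cnt (fun v : (Fin n → Dx H) × Dx H => ¬ (v.1 i : ℕ).Coprime v.2) : ℕ) =
      (H : ℝ) ^ (n + 1) := by exact_mod_cast h2
  have h6 : ((cnt (fun v : (Fin n → Dx H) × Dx H => ¬ (v.1 i : ℕ).Coprime v.2) : ℕ) : ℝ) ≤
      3 / 4 * (H : ℝ) ^ (n + 1) := (Nat.cast_le.2 h1).trans h3
  linarith

/-- there are many rational vectors of bounded height -/
theorem card_HtLe_ge {n : ℕ} (i : Fin n) (H : ℕ) :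
    (H : ℝ) ^ (n + 1) / 4 ≤ Nat.card {t : Fin n → ℚ // HtLe H t} := by
  classical
  refine (cnt_coprime n H i).trans (Nat.cast_le.2 ?_)
  have := finite_HtLe (n := n) H
  rw [cnt_eq_natCard]
  refine Nat.card_le_card_of_injective (fun v => (⟨fun j => ((v.1.1 j : ℕ) : ℚ) / ((v.1.2 : ℕ) : ℚ),
    fun j => ((v.1.1 j : ℕ) : ℤ), v.1.2, ?_, ?_, ?_, ?_⟩ : {t : Fin n → ℚ // HtLe H t})) ?_
  · have := mem_Ico.1 v.1.2.2
    omega
  · have := mem_Ico.1 v.1.2.2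
    omega
  · intro j
    have := mem_Ico.1 (v.1.1 j).2
    rw [Nat.abs_cast]
    omega
  · intro j
    push_cast
    rfl
  · rintro ⟨⟨a, Q⟩, hc⟩ ⟨⟨a', Q'⟩, hc'⟩ h
    have h1 : (fun j => ((a j : ℕ) : ℚ) / ((Q : ℕ) : ℚ)) =
        fun j => ((a' j : ℕ) : ℚ) / ((Q' : ℕ) : ℚ) := congrArg Subtype.val h
    have hQ : (0 : ℤ) < ((Q : ℕ) : ℤ) := by
      have := mem_Ico.1 Q.2
      omega
    have hQ' : (0 : ℤ) < ((Q' : ℕ) : ℤ) := by
      have := mem_Ico.1 Q'.2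
      omega
    have h2 := Rat.div_int_inj hQ hQ' (a := ((a i : ℕ) : ℤ)) (c := ((a' i : ℕ) : ℤ))
      (by simpa using hc) (by simpa using hc') (by
        have := congrFun h1 i
        simp only [Int.cast_natCast] at this ⊢
        exact this)
    have hQQ : Q = Q' := Subtype.ext (by exact_mod_cast h2.2)
    subst hQQ
    have hQq : ((Q : ℕ) : ℚ) ≠ 0 := by
      have : (Q : ℕ) ≠ 0 := by omega
      exact_mod_cast this
    have haa : a = a' := by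
      funext j
      apply Subtype.ext
      have h3 := congrFun h1 j
      have h4 := (div_left_inj' hQq).1 h3
      exact_mod_cast h4
    subst haa
    rfl

/-- Almost all rational vectors are good. -/
theorem dens_rat (L D n : ℕ) (i : Fin n) (Bd : (Fin n → ℚ) → Prop)
    (hBd : ∀ (a : Fin n → ℤ) (Q : ℕ), 0 < Q → GoodP L D a Q → ¬ Bd (fun i => a i / Q)) :
    Tendsto (fun H : ℕ => (Nat.card {t : Fin n → ℚ // HtLe H t ∧ Bd t} : ℝ) /
      Nat.card {t : Fin n → ℚ // HtLe H t}) atTop (nhds 0) := by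
  classical
  rw [Metric.tendsto_atTop]
  intro ε hε
  obtain ⟨H₀, hH₀⟩ := dens_box L D n (δ := ε / (8 * 3 ^ n)) (by positivity)
  refine ⟨max H₀ 1, fun H hH => ?_⟩
  have hH1 : 1 ≤ H := (le_max_right _ _).trans hH
  have hHR : (1 : ℝ) ≤ H := by exact_mod_cast hH1
  have h1 : Nat.card {t : Fin n → ℚ // HtLe H t ∧ Bd t} ≤
      cnt (fun v : (Fin n → Bx H) × Dx H => ¬ GoodP L D (fun i => (v.1 i : ℤ)) v.2) := by
    refine natCard_le_cnt (fun v : (Fin n → Bx H) × Dx H =>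
      (fun i => ((v.1 i : ℤ) : ℚ) / ((v.2 : ℕ) : ℚ) : Fin n → ℚ)) _ _ ?_
    rintro t ⟨⟨a, Q, hQ0, hQ, ha, ht⟩, hb⟩
    have htt : t = fun i => ((a i : ℤ) : ℚ) / (Q : ℚ) := funext ht
    refine ⟨(fun i => ⟨a i, mem_Icc.2 (abs_le.1 (ha i))⟩, ⟨Q, mem_Ico.2 ⟨hQ0, by omega⟩⟩), ?_,
      htt.symm⟩
    intro hg
    rw [htt] at hb
    exact hBd a Q hQ0 hg hb
  have h2 := hH₀ H ((le_max_left _ _).trans hH)
  have h3 := card_HtLe_ge i H
  have hden : (0 : ℝ) < Nat.card {t : Fin n → ℚ // HtLe H t} :=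
    lt_of_lt_of_le (by positivity) h3
  have h4 : ((2 : ℝ) * H + 1) ^ n * H ≤ 3 ^ n * (H : ℝ) ^ (n + 1) := by
    rw [pow_succ, ← mul_assoc, ← mul_pow]
    gcongr
    linarith
  rw [Real.dist_eq, sub_zero, abs_of_nonneg (by positivity), div_lt_iff₀ hden]
  calc (Nat.card {t : Fin n → ℚ // HtLe H t ∧ Bd t} : ℝ)
      ≤ cnt (fun v : (Fin n → Bx H) × Dx H => ¬ GoodP L D (fun i => (v.1 i : ℤ)) v.2) := by
        exact_mod_cast h1
    _ ≤ ε / (8 * 3 ^ n) * ((2 * H + 1) ^ n * H) := h2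
    _ ≤ ε / (8 * 3 ^ n) * (3 ^ n * (H : ℝ) ^ (n + 1)) := by gcongr
    _ = ε / 2 * ((H : ℝ) ^ (n + 1) / 4) := by
        field_simp
        ring
    _ < ε * ((H : ℝ) ^ (n + 1) / 4) := by
        refine mul_lt_mul_of_pos_right (by linarith) (by positivity)
    _ ≤ ε * Nat.card {t : Fin n → ℚ // HtLe H t} := by gcongr

end Pool.Agent.V8H78.MP
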