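import Pool.Agent.V8H78.MP.MainA
import Pool.Agent.W466.CI

/-!
Zilber-Pink for affine images `t + s V` with large translations `t`, at one prime: over any
countable field, and for irreducible subsets.
-/

set_option autoImplicit false
set_option linter.unusedSectionVars false

open Function MvPolynomial UpperHalfPlane H294ZP Cardinal

namespace Pool.Agent.V8H78.MP

open Pool.Agent.Y226 Pool.Agent.W282.ZP

/-- From the algebraically closed field to any field. -/
theorem mainK (K : Subfield ℂ) {κ : Type*}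
    {N n m : ℕ} (G : κ → MvPolynomial (Fin (N + 1)) K)
    (hG : ∀ i, ∃ e, (G i).IsHomogeneous e) (A B : Fin n → MvPolynomial (Fin (N + 1)) K)
    (d : Fin n → ℕ) (hA : ∀ i, (A i).IsHomogeneous (d i)) (hB : ∀ i, (B i).IsHomogeneous (d i))
    (hdis : ∀ I : Finset (Fin n), I.card = m + 1 → ∀ y : Fin (N + 1) → ℂ,
      (∀ i, aeval y (G i) = 0) → (∀ i ∈ I, aeval y (B i) = 0) → y = 0)
    (Γ : Finset ℂ) (hΓ : ∀ γ ∈ Γ, γ ∈ K) :
    ∃ D : ℕ, ∀ p : ℕ, p.Prime → D < p →
      ∀ (C : Type) [NormedField C] [IsUltrametricDist C] [CompleteSpace C] [CharZero C]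
      [IsAlgClosed C] (φ : QA →+* C), 0 < ‖(p : C)‖ → ‖(p : C)‖ < 1 → ∀ t s : Fin n → QA,
      (∀ i, max 1 ‖φ (s i)‖ < ‖φ (t i)‖) →
      ∀ (r : ℕ) (cls : Fin n → Option (Fin r)) (x : Fin n → ℂ),
      (∀ i, cls i = none → IsIntegral (Algebra.adjoin ℤ (Γ : Set ℂ)) (x i)) →
      (∀ i j l, cls i = some l → cls j = some l →
        ∃ (τ w : ℍ) (a b c d : ℤ), 0 < a * d - b * c ∧ (w : ℂ) * (c * τ + d) = a * τ + b ∧
          x i = jj τ ∧ x j = jj w) →
      ∀ y : Fin (N + 1) → ℂ, y ≠ 0 → (∀ i, aeval y (G i) = 0) →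
      (∀ i, aeval y (B i) * (x i - rA (t i)) = rA (s i) * aeval y (A i)) →
      ∀ S : Finset (Fin n), AlgebraicIndependent K (fun i : S => x i) →
        S.card + n ≤ r + m ∨ ∃ i j, i ≠ j ∧ (∃ l, cls i = some l ∧ cls j = some l) ∧
          ∃ M ∈ Lev (φ (t i)) (φ (s i)) (φ (t j)) (φ (s j)),
            PsiE ιZ (mP M) (mD M) (x i) (x j) = 0 := by
  classical
  let k := algebraicClosure K ℂ
  have hcl : IsAlgClosure K k := inferInstance
  have hac : IsAlgClosed k := hcl.isAlgClosed
  have hmap : ∀ (y : Fin (N + 1) → ℂ) (P : MvPolynomial (Fin (N + 1)) K),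
      aeval y (MvPolynomial.map (algebraMap K k) P) = aeval y P := fun y P =>
    MvPolynomial.aeval_map_algebraMap k y P
  let Γ' : Γ → k := fun γ => algebraMap K k ⟨γ, hΓ γ γ.2⟩
  have hΓ' : (Set.range fun g => algebraMap k ℂ (Γ' g)) = (Γ : Set ℂ) := by
    ext z
    constructor
    · rintro ⟨g, rfl⟩
      exact g.2
    · intro hz
      exact ⟨⟨z, hz⟩, rfl⟩
  obtain ⟨D, hD⟩ := mainA (k := k) (m := m) (fun i => MvPolynomial.map (algebraMap K k) (G i))
    (fun i => by
      obtain ⟨e, he⟩ := hG i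
      exact ⟨e, he.map _⟩)
    (fun i => MvPolynomial.map (algebraMap K k) (A i))
    (fun i => MvPolynomial.map (algebraMap K k) (B i)) d (fun i => (hA i).map _)
    (fun i => (hB i).map _)
    (fun I hI y h1 h2 => hdis I hI y (fun i => by rw [← hmap]; exact h1 i)
      (fun i hi => by rw [← hmap]; exact h2 i hi)) Γ'
  refine ⟨D, fun p hp hpD C _ _ _ _ _ φ hp0 hp1 t s hts r cls x hconst hrel y hy0 hyG hxy S hS =>
    ?_⟩
  refine hD p hp hpD C φ hp0 hp1 t s hts r cls x ?_ hrel y hy0 (fun i => (hmap y _).trans (hyG i))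
    ?_ S ?_
  · intro i hi
    rw [hΓ']
    exact hconst i hi
  · intro i
    rw [hmap, hmap]
    exact hxy i
  · exact hS.extendScalars k

/-- An irreducible algebraic set contains points with `dim` coordinates algebraically
independent over a given countable field, at which countably many given polynomials, not vanishing
on the set, do not vanish. -/
theorem exists_generic {n : ℕ} (K : Type) [Field K] [Countable K] [Algebra K ℂ]
    (A : Set (Fin n → ℂ)) (hA : (idealOf A).IsPrime) (hcl : zcl A ⊆ A) {β : Type} [Countable β]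
    (F : β → MvPolynomial (Fin n) ℂ) (hF : ∀ b, F b ∉ idealOf A) :
    ∃ x ∈ A, (∀ b, eval x (F b) ≠ 0) ∧ ∃ T : Finset (Fin n),
      AlgebraicIndependent K (fun j : T => x j) ∧ zdim A ≤ (T.card : Cardinal) := by
  classical
  obtain ⟨Ω, _, _, z, hz, T, hT, hdim⟩ := generic_point (idealOf A)
  let G : {f : MvPolynomial T K // f ≠ 0} → MvPolynomial (Fin n) ℂ := fun f =>
    rename (Subtype.val : T → Fin n) (MvPolynomial.map (algebraMap K ℂ) f.1)
  have : Countable (MvPolynomial T K) := by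
    rw [← Cardinal.mk_le_aleph0_iff]
    refine MvPolynomial.cardinalMk_le_max.trans ?_
    refine max_le (max_le Cardinal.mk_le_aleph0 Cardinal.mk_le_aleph0) le_rfl
  have hG : ∀ f, G f ∉ idealOf A := by
    intro f hf
    have h1 := (hz _).2 hf
    rw [aeval_rename] at h1
    have h2 : MvPolynomial.map (algebraMap K ℂ) f.1 = 0 := by
      apply hT
      rw [map_zero]
      exact h1
    apply f.2
    have h3 : Function.Injective (MvPolynomial.map (σ := T) (algebraMap K ℂ)) :=
      MvPolynomial.map_injective _ (algebraMap K ℂ).injective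
    exact h3 (by rw [h2, map_zero])
  obtain ⟨x, hx1, hx2⟩ := Pool.Agent.W466.ZC.exists_point (idealOf A) (Sum.elim G F)
    (by rintro (f | b)
        · exact hG f
        · exact hF b)
  refine ⟨x, hcl hx1, fun b => hx2 (Sum.inr b), T, ?_, hdim⟩
  rw [algebraicIndependent_iff]
  intro f hf
  by_contra hne
  apply hx2 (Sum.inl ⟨f, hne⟩)
  show eval x (rename (Subtype.val : T → Fin n) (MvPolynomial.map (algebraMap K ℂ) f)) = 0
  rw [eval_rename, eval_map]
  exact hf

/-- the relation of level `N` between two coordinates, as a polynomial -/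
noncomputable def relP {n : ℕ} (i j : Fin n) (N : ℕ) : MvPolynomial (Fin n) ℂ :=
  PsiE ((MvPolynomial.C : ℂ →+* MvPolynomial (Fin n) ℂ).comp ιZ) (mP N) (mD N) (X i) (X j)

theorem eval_relP {n : ℕ} (i j : Fin n) (N : ℕ) (x : Fin n → ℂ) :
    eval x (relP i j N) = PsiE ιZ (mP N) (mD N) (x i) (x j) := by
  unfold relP
  rw [map_PsiE, eval_X, eval_X, ← RingHom.comp_assoc]
  congr 1
  refine RingHom.ext fun z => ?_
  simp

/-- `x` and `y` are the `j`-invariants of two points of the upper half plane related by an integral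
matrix of determinant `N`. -/
def Isog (N : ℕ) (x y : ℂ) : Prop :=
  ∃ (τ w : ℍ) (a b c d : ℤ), a * d - b * c = N ∧ (w : ℂ) * (c * τ + d) = a * τ + b ∧
    x = jj τ ∧ y = jj w

theorem isog_of_psi {N : ℕ} (hN : 0 < N) {x y : ℂ} {τ : ℍ} (hx : x = jj τ)
    (h : PsiE ιZ (mP N) (mD N) x y = 0) : Isog N x y := by
  obtain ⟨ι, _, α, δ, β, hh, h1, h2, -, h4, -⟩ := modular_spec N hN
  rw [hx, ← h4] at h
  obtain ⟨k, -, hk⟩ := Finset.prod_eq_zero_iff.1 h
  refine ⟨τ, hh k τ, α k, β k, 0, δ k, ?_, ?_, hx, sub_eq_zero.1 hk⟩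
  · rw [mul_zero, sub_zero]
    exact_mod_cast (h1 k).2.2
  · have := h2 k τ
    push_cast
    rw [zero_mul, zero_add]
    exact this

end Pool.Agent.V8H78.MP
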