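import Mathlib

/-!
Counting residue classes.
-/

set_option autoImplicit false

namespace Pool.Agent.V8H78.MP

open Finset

open Classical in
/-- the number of elements with a property -/
noncomputable def cnt {α : Type} [Fintype α] (Q : α → Prop) : ℕ := (univ.filter fun a => Q a).card

theorem cnt_mono {α : Type} [Fintype α] {Q Q' : α → Prop} (h : ∀ a, Q a → Q' a) :
    cnt Q ≤ cnt Q' := by
  classical
  unfold cnt
  refine card_le_card fun a ha => ?_
  rw [mem_filter] at ha ⊢
  exact ⟨mem_univ _, h a ha.2⟩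

theorem cnt_eq_natCard {α : Type} [Fintype α] (Q : α → Prop) : cnt Q = Nat.card {a // Q a} := by
  classical
  unfold cnt
  rw [Nat.card_eq_fintype_card, Fintype.card_subtype]

theorem cnt_le_card {α : Type} [Fintype α] {Q : α → Prop} {s : Finset α} (h : ∀ a, Q a → a ∈ s) :
    cnt Q ≤ #s := by
  classical
  unfold cnt
  refine card_le_card fun a ha => ?_
  rw [mem_filter] at ha
  exact h a ha.2

theorem cnt_exists {α ι : Type} [Fintype α] [Fintype ι] (Q : ι → α → Prop) :
    cnt (fun a => ∃ i, Q i a) ≤ ∑ i, cnt (Q i) := by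
  classical
  refine (cnt_le_card (s := univ.biUnion fun i => univ.filter fun a => Q i a) ?_).trans ?_
  · rintro a ⟨i, hi⟩
    rw [mem_biUnion]
    exact ⟨i, mem_univ _, by rw [mem_filter]; exact ⟨mem_univ _, hi⟩⟩
  · unfold cnt
    exact card_biUnion_le

/-- counting through a surjective homomorphism -/
theorem cnt_comp {R S : Type} [CommRing R] [CommRing S] [Fintype R] [Fintype S] (π : R →+* S)
    (hπ : Function.Surjective π) (Q : S → Prop) :
    Fintype.card S * cnt (fun a => Q (π a)) = cnt Q * Fintype.card R := by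
  classical
  unfold cnt
  have hfib : ∀ x y : S, #{a : R | π a = x} = #{a : R | π a = y} := by
    intro x y
    obtain ⟨u, hu⟩ := hπ (y - x)
    refine Finset.card_bij (fun a _ => a + u) ?_ ?_ ?_
    · intro a ha
      rw [mem_filter] at ha ⊢
      refine ⟨mem_univ _, ?_⟩
      rw [map_add, ha.2, hu]
      ring
    · intro a _ b _ hab
      exact add_right_cancel hab
    · intro b hb
      rw [mem_filter] at hb
      refine ⟨b - u, ?_, by ring⟩
      rw [mem_filter]
      refine ⟨mem_univ _, ?_⟩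
      rw [map_sub, hb.2, hu]
      ring
  have htot : Fintype.card S * #{a : R | π a = 0} = Fintype.card R := by
    have h1 : #(univ : Finset R) = ∑ x : S, #{a : R | π a = x} :=
      Finset.card_eq_sum_card_fiberwise (f := π) (fun a _ => mem_coe.2 (mem_univ _))
    rw [card_univ, sum_congr rfl (fun x _ => hfib x 0), sum_const, card_univ, smul_eq_mul] at h1
    exact h1.symm
  have hU : #(univ.filter fun a : R => Q (π a)) =
      ∑ x ∈ univ.filter (fun x : S => Q x), #{a : R | π a = x} := by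
    have h1 := Finset.card_eq_sum_card_fiberwise (f := π) (s := univ.filter fun a : R => Q (π a))
      (t := univ.filter fun x : S => Q x)
      (fun a ha => by
        have := mem_coe.1 ha
        rw [mem_filter] at this
        exact mem_coe.2 (mem_filter.2 ⟨mem_univ _, this.2⟩))
    rw [h1]
    refine sum_congr rfl fun x hx => ?_
    congr 1
    ext a
    simp only [mem_filter, mem_univ, true_and] at hx ⊢
    constructor
    · exact fun h => h.2
    · intro h
      exact ⟨by rw [h]; exact hx, h⟩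
  rw [hU, sum_congr rfl (fun x _ => hfib x 0), sum_const, smul_eq_mul, ← mul_assoc,
    mul_comm (Fintype.card S), mul_assoc, htot]

instance {p : ℕ} [hpf : Fact p.Prime] : NeZero (p ^ 2) := ⟨(pow_pos hpf.out.pos 2).ne'⟩

theorem cnt_nonunits {p : ℕ} [hpf : Fact p.Prime] :
    cnt (fun x : ZMod (p ^ 2) => ¬ IsUnit x) = p := by
  classical
  have h1 : Fintype.card {x : ZMod (p ^ 2) // IsUnit x} = p * (p - 1) := by
    have h2 : Fintype.card (ZMod (p ^ 2))ˣ = p * (p - 1) := by
      rw [ZMod.card_units_eq_totient, Nat.totient_prime_pow hpf.out (by norm_num)]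
      simp
    rw [← h2]
    refine Fintype.card_congr ⟨fun x => x.2.unit, fun u => ⟨u, u.isUnit⟩, ?_, ?_⟩
    · intro x
      exact Subtype.ext rfl
    · intro u
      exact Units.ext rfl
  have h2 := Fintype.card_subtype_compl (fun x : ZMod (p ^ 2) => IsUnit x)
  rw [cnt_eq_natCard, Nat.card_eq_fintype_card, h2, h1, ZMod.card]
  have h3 := hpf.out.two_le
  obtain ⟨q, rfl⟩ : ∃ q, p = q + 1 := ⟨p - 1, by omega⟩
  rw [Nat.add_sub_cancel]
  have : (q + 1) ^ 2 = (q + 1) * q + (q + 1) := by ring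
  omega

theorem cnt_units_pow {p : ℕ} [hpf : Fact p.Prime] (hp2 : p ≠ 2) (b : ZMod (p ^ 2)) :
    cnt (fun x : ZMod (p ^ 2) => IsUnit x ∧ x ^ (p - 1) = b) ≤ p := by
  classical
  have hcyc : IsCyclic (ZMod (p ^ 2))ˣ := ZMod.isCyclic_units_of_prime_pow p hpf.out hp2 2
  have hp1 : 0 < p - 1 := by have := hpf.out.two_le; omega
  by_cases hex : ∃ x₀ : ZMod (p ^ 2), IsUnit x₀ ∧ x₀ ^ (p - 1) = b
  · obtain ⟨_, ⟨u₀, rfl⟩, hb⟩ := hex
    have h2 : (univ.filter fun x : ZMod (p ^ 2) => IsUnit x ∧ x ^ (p - 1) = b) ⊆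
        (univ.filter fun u : (ZMod (p ^ 2))ˣ => u ^ (p - 1) = 1).image
          fun u => ((u * u₀ : (ZMod (p ^ 2))ˣ) : ZMod (p ^ 2)) := by
      intro x hx
      rw [mem_filter] at hx
      obtain ⟨-, ⟨u, rfl⟩, hxu⟩ := hx
      rw [mem_image]
      refine ⟨u * u₀⁻¹, ?_, by rw [inv_mul_cancel_right]⟩
      rw [mem_filter]
      refine ⟨mem_univ _, ?_⟩
      rw [mul_pow, inv_pow, mul_inv_eq_one]
      apply Units.ext
      push_cast
      rw [hxu, hb]
    have h3 := (Finset.card_le_card h2).trans Finset.card_image_le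
    have h4 := IsCyclic.card_pow_eq_one_le (α := (ZMod (p ^ 2))ˣ) hp1
    unfold cnt
    refine le_trans (le_of_eq ?_) (h3.trans (h4.trans (Nat.sub_le _ _)))
    congr 1
    ext x
    simp
  · push Not at hex
    refine (cnt_le_card (s := ∅) ?_).trans (by rw [card_empty]; exact Nat.zero_le _)
    rintro x ⟨h1, h2⟩
    exact absurd h2 (hex x h1)

theorem cnt_pair {α : Type} [Fintype α] {n : ℕ} {i j : Fin n} (hij : i ≠ j)
    (R : α → α → Prop) (k : ℕ) (hk : ∀ b, cnt (fun a => R a b) ≤ k) :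
    cnt (fun c : Fin n → α => R (c i) (c j)) ≤ k * Fintype.card α ^ (n - 1) := by
  classical
  unfold cnt at hk ⊢
  let f : (Fin n → α) → ({l : Fin n // l ≠ i} → α) := fun c l => c l
  refine (Finset.card_le_mul_card_image (f := f) _ k ?_).trans ?_
  · intro g _
    refine le_trans ?_ (hk (g ⟨j, hij.symm⟩))
    refine Finset.card_le_card_of_injOn (fun c => c i) ?_ ?_
    · intro c hc
      rw [mem_coe, mem_filter, mem_filter] at hc
      rw [mem_coe, mem_filter]
      refine ⟨mem_univ _, ?_⟩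
      have h1 : c j = g ⟨j, hij.symm⟩ := congrFun hc.2 ⟨j, hij.symm⟩
      rw [← h1]
      exact hc.1.2
    · intro c hc c' hc' h
      rw [mem_coe, mem_filter, mem_filter] at hc hc'
      funext l
      by_cases hl : l = i
      · rw [hl]; exact h
      · exact congrFun (hc.2.trans hc'.2.symm) ⟨l, hl⟩
  · refine Nat.mul_le_mul_left _ ?_
    refine (Finset.card_le_univ _).trans ?_
    rw [Fintype.card_fun]
    have : Fintype.card {l : Fin n // l ≠ i} = n - 1 := by
      rw [Fintype.card_subtype_compl, Fintype.card_fin]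
      simp
    rw [this]

theorem cnt_single {α : Type} [Fintype α] {n : ℕ} (i : Fin n)
    (R : α → Prop) (k : ℕ) (hk : cnt R ≤ k) :
    cnt (fun c : Fin n → α => R (c i)) ≤ k * Fintype.card α ^ (n - 1) := by
  classical
  unfold cnt at hk ⊢
  let f : (Fin n → α) → ({l : Fin n // l ≠ i} → α) := fun c l => c l
  refine (Finset.card_le_mul_card_image (f := f) _ k ?_).trans ?_
  · intro g _
    refine le_trans ?_ hk
    refine Finset.card_le_card_of_injOn (fun c => c i) ?_ ?_
    · intro c hc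
      rw [mem_coe, mem_filter, mem_filter] at hc
      rw [mem_coe, mem_filter]
      exact ⟨mem_univ _, hc.1.2⟩
    · intro c hc c' hc' h
      rw [mem_coe, mem_filter, mem_filter] at hc hc'
      funext l
      by_cases hl : l = i
      · rw [hl]; exact h
      · exact congrFun (hc.2.trans hc'.2.symm) ⟨l, hl⟩
  · refine Nat.mul_le_mul_left _ ?_
    refine (Finset.card_le_univ _).trans ?_
    rw [Fintype.card_fun]
    have : Fintype.card {l : Fin n // l ≠ i} = n - 1 := by
      rw [Fintype.card_subtype_compl, Fintype.card_fin]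
      simp
    rw [this]

/-- bad residue classes -/
def Bad {p N : ℕ} (h : p ^ 2 ∣ N) {n : ℕ} (c : Fin n → ZMod N) : Prop :=
  (∃ i, ¬ IsUnit (ZMod.castHom h (ZMod (p ^ 2)) (c i))) ∨
  ∃ i j, i ≠ j ∧ IsUnit (ZMod.castHom h (ZMod (p ^ 2)) (c i)) ∧
    (ZMod.castHom h (ZMod (p ^ 2)) (c i)) ^ (p - 1) =
      (ZMod.castHom h (ZMod (p ^ 2)) (c j)) ^ (p - 1)

theorem cnt_bad {p N : ℕ} [hpf : Fact p.Prime] [NeZero N] (hp2 : p ≠ 2) (h : p ^ 2 ∣ N) (n : ℕ) :
    p * cnt (fun c : Fin n → ZMod N => Bad h c) ≤ n ^ 2 * N ^ n := by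
  classical
  have hN : 0 < N := Nat.pos_of_ne_zero (NeZero.ne N)
  have hp0 := hpf.out.pos
  -- bound for one coordinate
  have hU : ∀ Q : ZMod (p ^ 2) → Prop, cnt Q ≤ p →
      cnt (fun a : ZMod N => Q (ZMod.castHom h (ZMod (p ^ 2)) a)) ≤ N / p := by
    intro Q hU
    rw [Nat.le_div_iff_mul_le hp0]
    have h1 := cnt_comp (ZMod.castHom h (ZMod (p ^ 2))) (ZMod.ringHom_surjective _) Q
    rw [ZMod.card, ZMod.card] at h1
    have h2 : p * (p * cnt (fun a : ZMod N => Q (ZMod.castHom h (ZMod (p ^ 2)) a))) ≤ p * N := by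
      calc _ = p ^ 2 * cnt (fun a : ZMod N => Q (ZMod.castHom h (ZMod (p ^ 2)) a)) := by ring
        _ = cnt Q * N := h1
        _ ≤ p * N := Nat.mul_le_mul_right _ hU
    have h3 := Nat.le_of_mul_le_mul_left h2 hp0
    rwa [mul_comm]
  have hpow : 0 < n → p * (N / p * Fintype.card (ZMod N) ^ (n - 1)) ≤ N ^ n := by
    intro hn
    obtain ⟨m, rfl⟩ : ∃ m, n = m + 1 := ⟨n - 1, by omega⟩
    rw [ZMod.card, Nat.add_sub_cancel, pow_succ, ← mul_assoc, mul_comm (N ^ m)]
    exact Nat.mul_le_mul_right _ (Nat.mul_div_le N p)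
  let E : Fin n × Fin n → (Fin n → ZMod N) → Prop := fun q c =>
    (q.1 = q.2 ∧ ¬ IsUnit (ZMod.castHom h (ZMod (p ^ 2)) (c q.1))) ∨
    (q.1 ≠ q.2 ∧ IsUnit (ZMod.castHom h (ZMod (p ^ 2)) (c q.1)) ∧
      (ZMod.castHom h (ZMod (p ^ 2)) (c q.1)) ^ (p - 1) =
        (ZMod.castHom h (ZMod (p ^ 2)) (c q.2)) ^ (p - 1))
  have hE : ∀ q, p * cnt (E q) ≤ N ^ n := by
    intro q
    have hn : 0 < n := q.1.pos
    by_cases hq : q.1 = q.2
    · refine (Nat.mul_le_mul_left _ ((cnt_mono (Q' := fun c : Fin n → ZMod N =>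
        ¬ IsUnit (ZMod.castHom h (ZMod (p ^ 2)) (c q.1))) ?_).trans
        (cnt_single q.1 (fun a => ¬ IsUnit (ZMod.castHom h (ZMod (p ^ 2)) a)) (N / p)
          (hU (fun x => ¬ IsUnit x) cnt_nonunits.le)))).trans (hpow hn)
      rintro c (⟨-, h1⟩ | ⟨h1, -⟩)
      · exact h1
      · exact absurd hq h1
    · refine (Nat.mul_le_mul_left _ ((cnt_mono (Q' := fun c : Fin n → ZMod N =>
        IsUnit (ZMod.castHom h (ZMod (p ^ 2)) (c q.1)) ∧
          (ZMod.castHom h (ZMod (p ^ 2)) (c q.1)) ^ (p - 1) =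
            (ZMod.castHom h (ZMod (p ^ 2)) (c q.2)) ^ (p - 1)) ?_).trans
        (cnt_pair hq (fun a b => IsUnit (ZMod.castHom h (ZMod (p ^ 2)) a) ∧
          (ZMod.castHom h (ZMod (p ^ 2)) a) ^ (p - 1) =
            (ZMod.castHom h (ZMod (p ^ 2)) b) ^ (p - 1)) (N / p) fun b =>
          hU (fun x => IsUnit x ∧ x ^ (p - 1) = (ZMod.castHom h (ZMod (p ^ 2)) b) ^ (p - 1))
            (cnt_units_pow hp2 _)))).trans (hpow hn)
      rintro c (⟨h1, -⟩ | ⟨-, h1⟩)
      · exact absurd h1 hq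
      · exact h1
  have h1 : cnt (fun c : Fin n → ZMod N => Bad h c) ≤ ∑ q, cnt (E q) := by
    refine (cnt_mono ?_).trans (cnt_exists E)
    rintro c (⟨i, hi⟩ | ⟨i, j, hij, hu⟩)
    · exact ⟨(i, i), Or.inl ⟨rfl, hi⟩⟩
    · exact ⟨(i, j), Or.inr ⟨hij, hu⟩⟩
  calc p * cnt (fun c : Fin n → ZMod N => Bad h c) ≤ p * ∑ q, cnt (E q) :=
        Nat.mul_le_mul_left _ h1
    _ = ∑ q, p * cnt (E q) := by rw [mul_sum]
    _ ≤ ∑ q : Fin n × Fin n, N ^ n := sum_le_sum fun q _ => hE q
    _ = n ^ 2 * N ^ n := by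
        rw [sum_const, smul_eq_mul, card_univ, Fintype.card_prod, Fintype.card_fin]
        ring

end Pool.Agent.V8H78.MP
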