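import Pool.Agent.V8H78.MP.Count

/-!
Almost all pairs `(a, Q)` have several good prime divisors of `Q`.
-/

set_option autoImplicit false

namespace Pool.Agent.V8H78.MP

open Finset Filter

/-- a set of large primes such that few integers are prime to it -/
theorem exists_block (T : ℕ) {ε : ℝ} (hε : 0 < ε) : ∃ P : Finset ℕ,
    (∀ p ∈ P, p.Prime ∧ T < p) ∧ ∏ p ∈ P, (1 - (p : ℝ)⁻¹) ≤ ε := by
  classical
  let f : ℕ → ℝ := Set.indicator {p : ℕ | p.Prime} (fun n : ℕ => (1 : ℝ) / n)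
  have hf0 : ∀ n, 0 ≤ f n := fun n => Set.indicator_nonneg (fun n _ => by positivity) n
  have h1 : Tendsto (fun n => ∑ i ∈ range n, f i) atTop atTop :=
    (not_summable_iff_tendsto_nat_atTop_of_nonneg hf0).1 not_summable_one_div_on_primes
  obtain ⟨N, hN⟩ := (h1.eventually (eventually_ge_atTop
    (∑ i ∈ range (T + 1), f i - Real.log ε))).exists
  refine ⟨(range N).filter fun p => p.Prime ∧ T < p, fun p hp => (mem_filter.1 hp).2, ?_⟩
  have h2 : ∑ i ∈ range N, f i ≤ ∑ i ∈ range (T + 1), f i +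
      ∑ p ∈ (range N).filter (fun p => p.Prime ∧ T < p), (p : ℝ)⁻¹ := by
    have h3 : ∑ p ∈ (range N).filter (fun p => p.Prime ∧ T < p), (p : ℝ)⁻¹ =
        ∑ p ∈ (range N).filter (fun p => T < p), f p := by
      have h5 : ∑ p ∈ (range N).filter (fun p => p.Prime ∧ T < p), (p : ℝ)⁻¹ =
          ∑ p ∈ (range N).filter (fun p => p.Prime ∧ T < p), f p := by
        refine sum_congr rfl fun p hp => ?_
        have : p ∈ {p : ℕ | p.Prime} := (mem_filter.1 hp).2.1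
        show _ = Set.indicator _ _ p
        rw [Set.indicator_of_mem this, one_div]
      rw [h5]
      refine sum_subset ?_ ?_
      · intro p hp
        rw [mem_filter] at hp ⊢
        exact ⟨hp.1, hp.2.2⟩
      · intro p hp hp'
        rw [mem_filter] at hp hp'
        refine Set.indicator_of_notMem ?_ _
        intro h
        exact hp' ⟨hp.1, h, hp.2⟩
    rw [h3, ← sum_filter_add_sum_filter_not (range N) (fun p => T < p) f, add_comm]
    refine add_le_add ?_ le_rfl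
    refine sum_le_sum_of_subset_of_nonneg ?_ fun i _ _ => hf0 i
    intro p hp
    rw [mem_filter] at hp
    rw [mem_range]
    omega
  have h4 : -Real.log ε ≤ ∑ p ∈ (range N).filter (fun p => p.Prime ∧ T < p), (p : ℝ)⁻¹ := by
    linarith
  calc ∏ p ∈ (range N).filter (fun p => p.Prime ∧ T < p), (1 - (p : ℝ)⁻¹)
      ≤ ∏ p ∈ (range N).filter (fun p => p.Prime ∧ T < p), Real.exp (-(p : ℝ)⁻¹) := by
        refine prod_le_prod (fun p hp => ?_) (fun p _ => ?_)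
        · have : (1 : ℝ) ≤ p := by exact_mod_cast (mem_filter.1 hp).2.1.one_lt.le
          have := inv_le_one_of_one_le₀ this
          linarith
        · have := Real.add_one_le_exp (-(p : ℝ)⁻¹)
          linarith
    _ = Real.exp (-∑ p ∈ (range N).filter (fun p => p.Prime ∧ T < p), (p : ℝ)⁻¹) := by
        rw [← Real.exp_sum, sum_neg_distrib]
    _ ≤ Real.exp (Real.log ε) := Real.exp_le_exp.2 (by linarith)
    _ = ε := Real.exp_log hε

/-- separated blocks -/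
theorem exists_blocks (T : ℕ) (hT : 0 < T) {ε : ℝ} (hε : 0 < ε) : ∃ P : ℕ → Finset ℕ,
    (∀ l, ∀ p ∈ P l, p.Prime ∧ T < p) ∧ (∀ l, ∏ p ∈ P l, (1 - (p : ℝ)⁻¹) ≤ ε) ∧
    ∀ l l', l < l' → ∀ p ∈ P l, ∀ p' ∈ P l', T * p < p' := by
  classical
  choose F hF1 hF2 using fun T : ℕ => exists_block T hε
  let b : ℕ → ℕ := fun l => Nat.rec T (fun _ x => T * (x + (F x).sup id)) l
  have hb : ∀ l, b (l + 1) = T * (b l + (F (b l)).sup id) := fun l => rfl
  have hmono : Monotone b := by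
    refine monotone_nat_of_le_succ fun l => ?_
    rw [hb]
    calc b l ≤ b l + (F (b l)).sup id := Nat.le_add_right _ _
      _ = 1 * (b l + (F (b l)).sup id) := (one_mul _).symm
      _ ≤ T * (b l + (F (b l)).sup id) := Nat.mul_le_mul_right _ hT
  refine ⟨fun l => F (b l), fun l p hp => ⟨(hF1 _ p hp).1, ?_⟩, fun l => hF2 _,
    fun l l' hll p hp p' hp' => ?_⟩
  · exact lt_of_le_of_lt (hmono (Nat.zero_le l)) (hF1 _ p hp).2
  · refine lt_of_le_of_lt ?_ (hF1 _ p' hp').2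
    refine le_trans ?_ (hmono (Nat.succ_le_of_lt hll))
    show T * p ≤ b (l + 1)
    rw [hb]
    refine Nat.mul_le_mul_left _ ?_
    have : p ≤ (F (b l)).sup id := le_sup (f := id) hp
    omega

/-- the good pairs -/
def GoodP (L D : ℕ) {n : ℕ} (a : Fin n → ℤ) (Q : ℕ) : Prop :=
  ∃ p : Fin L → ℕ, (∀ l, (p l).Prime ∧ D < p l) ∧ (∀ l, p l ∣ Q) ∧
    (∀ l i, ¬ (p l : ℤ) ∣ a i) ∧
    ∀ l l', l < l' → ∀ i j, i < j → ¬ (p l' : ℤ) ∣ a i ^ (p l - 1) - a j ^ (p l - 1)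

/-- the number of integers in a residue class -/
theorem card_class (H : ℕ) {p : ℕ} (hp : 0 < p) (c : ZMod p) :
    #((Icc (-(H : ℤ)) H).filter fun x : ℤ => (x : ZMod p) = c) ≤ 2 * H / p + 1 := by
  classical
  rw [← card_range (2 * H / p + 1)]
  refine Finset.card_le_card_of_injOn (fun x => ((x + H) / p).toNat) ?_ ?_
  · intro x hx
    rw [mem_coe, mem_filter, mem_Icc] at hx
    rw [mem_coe, mem_range, Nat.lt_succ_iff]
    have h1 : (x + H) / (p : ℤ) ≤ (2 * H : ℤ) / p := Int.ediv_le_ediv (by exact_mod_cast hp)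
      (by linarith [hx.1.2])
    have h2 : ((2 * H / p : ℕ) : ℤ) = (2 * H : ℤ) / p := by push_cast; rfl
    show ((x + H) / (p : ℤ)).toNat ≤ 2 * H / p
    rw [← h2] at h1
    exact Int.toNat_le.2 h1
  · intro x hx y hy hxy
    rw [mem_coe, mem_filter, mem_Icc] at hx hy
    have hx0 : 0 ≤ (x + H) / (p : ℤ) := Int.ediv_nonneg (by linarith [hx.1.1]) (by positivity)
    have hy0 : 0 ≤ (y + H) / (p : ℤ) := Int.ediv_nonneg (by linarith [hy.1.1]) (by positivity)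
    have h1 : (x + H) / (p : ℤ) = (y + H) / (p : ℤ) := by
      have h2 : ((x + H) / (p : ℤ)).toNat = ((y + H) / (p : ℤ)).toNat := hxy
      rw [← Int.toNat_of_nonneg hx0, ← Int.toNat_of_nonneg hy0, h2]
    have h3 : (x + H) % (p : ℤ) = (y + H) % (p : ℤ) := by
      have h4 : ((x + H : ℤ) : ZMod p) = ((y + H : ℤ) : ZMod p) := by
        push_cast
        rw [hx.2, hy.2]
      exact (ZMod.intCast_eq_intCast_iff' _ _ _).1 h4
    have h5 := Int.mul_ediv_add_emod (x + H) p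
    have h6 := Int.mul_ediv_add_emod (y + H) p
    rw [h1, h3, h6] at h5
    linarith

theorem card_classes (H : ℕ) {p : ℕ} (hp : 0 < p) (Z : Finset (ZMod p)) :
    #((Icc (-(H : ℤ)) H).filter fun x : ℤ => (x : ZMod p) ∈ Z) ≤ #Z * (2 * H / p + 1) := by
  classical
  have h1 : ((Icc (-(H : ℤ)) H).filter fun x : ℤ => (x : ZMod p) ∈ Z) ⊆
      Z.biUnion fun c => ((Icc (-(H : ℤ)) H).filter fun x : ℤ => (x : ZMod p) = c) := by
    intro x hx
    rw [mem_filter] at hx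
    rw [mem_biUnion]
    exact ⟨_, hx.2, mem_filter.2 ⟨hx.1, rfl⟩⟩
  refine (card_le_card h1).trans (card_biUnion_le.trans ?_)
  calc ∑ c ∈ Z, #((Icc (-(H : ℤ)) H).filter fun x : ℤ => (x : ZMod p) = c) ≤ ∑ c ∈ Z, (2 * H / p + 1) :=
        sum_le_sum fun c _ => card_class H hp c
    _ = #Z * (2 * H / p + 1) := by rw [sum_const, smul_eq_mul]

/-- the coordinates -/
abbrev Bx (H : ℕ) := {x : ℤ // x ∈ Icc (-(H : ℤ)) H}

theorem cnt_Bx (H : ℕ) (R : ℤ → Prop) [DecidablePred R] :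
    cnt (fun x : Bx H => R x) = #((Icc (-(H : ℤ)) H).filter R) := by
  unfold cnt
  refine Finset.card_bij (fun x _ => (x : ℤ)) ?_ ?_ ?_
  · intro x hx
    simp only [mem_filter, mem_univ, true_and] at hx ⊢
    exact ⟨x.2, hx⟩
  · intro x _ y _ h
    exact Subtype.ext h
  · intro x hx
    simp only [mem_filter] at hx
    exact ⟨⟨x, hx.1⟩, by simp only [mem_filter, mem_univ, true_and]; exact hx.2, rfl⟩

theorem card_Bx (H : ℕ) : Fintype.card (Bx H) = 2 * H + 1 := by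
  rw [Fintype.card_coe, Int.card_Icc]
  omega

theorem cnt_dvd (H : ℕ) {p : ℕ} (hp : 0 < p) :
    cnt (fun x : Bx H => (p : ℤ) ∣ x) ≤ 2 * H / p + 1 := by
  classical
  refine (cnt_mono (Q' := fun x : Bx H => ((x : ℤ) : ZMod p) = 0) ?_).trans ?_
  · intro x hx
    exact (ZMod.intCast_zmod_eq_zero_iff_dvd _ _).2 hx
  · exact (cnt_Bx H (fun x => (x : ZMod p) = 0)).le.trans (card_class H hp 0)

theorem cnt_pow_eq (H : ℕ) {p : ℕ} (hp : p.Prime) {k : ℕ} (hk : 0 < k) (b : ℤ) :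
    cnt (fun x : Bx H => (p : ℤ) ∣ (x : ℤ) ^ k - b) ≤ k * (2 * H / p + 1) := by
  classical
  have hpf : Fact p.Prime := ⟨hp⟩
  let Z : Finset (ZMod p) := (Polynomial.nthRoots k (b : ZMod p)).toFinset
  have hZ : #Z ≤ k := (Multiset.toFinset_card_le _).trans (Polynomial.card_nthRoots k _)
  refine (cnt_mono (Q' := fun x : Bx H => ((x : ℤ) : ZMod p) ∈ Z) ?_).trans ?_
  · intro x hx
    rw [Multiset.mem_toFinset, Polynomial.mem_nthRoots hk]
    have := (ZMod.intCast_zmod_eq_zero_iff_dvd _ _).2 hx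
    push_cast at this
    exact sub_eq_zero.1 this
  · exact ((cnt_Bx H (fun x => (x : ZMod p) ∈ Z)).le.trans (card_classes H hp.pos Z)).trans
      (Nat.mul_le_mul_right _ hZ)

/-- the bad vectors for given primes -/
def BadA {L n : ℕ} (p : Fin L → ℕ) (a : Fin n → ℤ) : Prop :=
  (∃ l i, (p l : ℤ) ∣ a i) ∨
  ∃ l l', l < l' ∧ ∃ i j, i < j ∧ (p l' : ℤ) ∣ a i ^ (p l - 1) - a j ^ (p l - 1)

theorem cnt_false {α : Type} [Fintype α] {Q : α → Prop} (h : ∀ a, ¬ Q a) : cnt Q = 0 := by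
  classical
  refine Nat.le_zero.1 ((cnt_le_card (s := ∅) fun a ha => absurd ha (h a)).trans ?_)
  rw [card_empty]

theorem cnt_or {α : Type} [Fintype α] (Q Q' : α → Prop) :
    cnt (fun a => Q a ∨ Q' a) ≤ cnt Q + cnt Q' := by
  classical
  unfold cnt
  refine le_trans (card_le_card ?_) (card_union_le _ _)
  intro a ha
  simp only [mem_filter, mem_univ, true_and, mem_union] at ha ⊢
  exact ha

theorem cnt_badA (T H : ℕ) {L n : ℕ} (p : Fin L → ℕ)
    (hp : ∀ l, (p l).Prime ∧ T ≤ p l ∧ p l ≤ H) (hpp : ∀ l l', l < l' → T * p l ≤ p l') :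
    T * cnt (fun a : Fin n → Bx H => BadA p (fun i => (a i : ℤ))) ≤
      2 * (L * n + L ^ 2 * n ^ 2) * (2 * H + 1) ^ n := by
  classical
  have hpow : 0 < n → ∀ x : ℕ, x ≤ 2 * (2 * H + 1) →
      x * (2 * H + 1) ^ (n - 1) ≤ 2 * (2 * H + 1) ^ n := by
    intro hn x hx
    obtain ⟨m, rfl⟩ : ∃ m, n = m + 1 := ⟨n - 1, by omega⟩
    rw [Nat.add_sub_cancel, pow_succ]
    calc x * (2 * H + 1) ^ m ≤ 2 * (2 * H + 1) * (2 * H + 1) ^ m := Nat.mul_le_mul_right _ hx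
      _ = _ := by ring
  have hq : ∀ l, p l * (2 * H / p l + 1) ≤ 2 * (2 * H + 1) := by
    intro l
    have h1 := Nat.mul_div_le (2 * H) (p l)
    have h2 := (hp l).2.2
    rw [mul_add, mul_one]
    omega
  let E1 : Fin L × Fin n → (Fin n → Bx H) → Prop := fun q a => (p q.1 : ℤ) ∣ a q.2
  let E2 : (Fin L × Fin L) × (Fin n × Fin n) → (Fin n → Bx H) → Prop := fun q a =>
    (q.1.1 < q.1.2 ∧ q.2.1 < q.2.2) ∧
      (p q.1.2 : ℤ) ∣ (a q.2.1 : ℤ) ^ (p q.1.1 - 1) - (a q.2.2 : ℤ) ^ (p q.1.1 - 1)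
  have hE1 : ∀ q, T * cnt (E1 q) ≤ 2 * (2 * H + 1) ^ n := by
    intro q
    have hn : 0 < n := q.2.pos
    have h1 := cnt_single q.2 (fun x : Bx H => (p q.1 : ℤ) ∣ x) _ (cnt_dvd H (hp q.1).1.pos)
    rw [card_Bx] at h1
    calc T * cnt (E1 q) ≤ p q.1 * ((2 * H / p q.1 + 1) * (2 * H + 1) ^ (n - 1)) :=
          Nat.mul_le_mul (hp q.1).2.1 h1
      _ = (p q.1 * (2 * H / p q.1 + 1)) * (2 * H + 1) ^ (n - 1) := by ring
      _ ≤ _ := hpow hn _ (hq q.1)
  have hE2 : ∀ q, T * cnt (E2 q) ≤ 2 * (2 * H + 1) ^ n := by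
    intro q
    have hn : 0 < n := q.2.2.pos
    by_cases hlt : q.1.1 < q.1.2 ∧ q.2.1 < q.2.2
    · have hk : 0 < p q.1.1 - 1 := by
        have := (hp q.1.1).1.two_le
        omega
      have h1 := cnt_pair hlt.2.ne (fun x y : Bx H =>
        (p q.1.2 : ℤ) ∣ (x : ℤ) ^ (p q.1.1 - 1) - (y : ℤ) ^ (p q.1.1 - 1)) _
        (fun b => cnt_pow_eq H (hp q.1.2).1 hk ((b : ℤ) ^ (p q.1.1 - 1)))
      rw [card_Bx] at h1
      have h2 : T * (p q.1.1 - 1) ≤ p q.1.2 :=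
        (Nat.mul_le_mul_left _ (Nat.sub_le _ _)).trans (hpp _ _ hlt.1)
      calc T * cnt (E2 q) ≤ T * ((p q.1.1 - 1) * (2 * H / p q.1.2 + 1) *
            (2 * H + 1) ^ (n - 1)) :=
            Nat.mul_le_mul_left _ ((cnt_mono fun a ha => ha.2).trans h1)
        _ = (T * (p q.1.1 - 1)) * (2 * H / p q.1.2 + 1) * (2 * H + 1) ^ (n - 1) := by ring
        _ ≤ p q.1.2 * (2 * H / p q.1.2 + 1) * (2 * H + 1) ^ (n - 1) :=
            Nat.mul_le_mul_right _ (Nat.mul_le_mul_right _ h2)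
        _ ≤ _ := hpow hn _ (hq q.1.2)
    · rw [cnt_false (fun a ha => hlt ha.1), mul_zero]
      exact Nat.zero_le _
  have h1 : cnt (fun a : Fin n → Bx H => BadA p (fun i => (a i : ℤ))) ≤
      ∑ q, cnt (E1 q) + ∑ q, cnt (E2 q) := by
    refine (cnt_mono (Q' := fun a => (∃ q, E1 q a) ∨ ∃ q, E2 q a) ?_).trans
      ((cnt_or _ _).trans (Nat.add_le_add (cnt_exists E1) (cnt_exists E2)))
    rintro a (⟨l, i, h⟩ | ⟨l, l', hll, i, j, hij, h⟩)
    · exact Or.inl ⟨(l, i), h⟩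
    · exact Or.inr ⟨((l, l'), (i, j)), ⟨hll, hij⟩, h⟩
  calc T * cnt (fun a : Fin n → Bx H => BadA p (fun i => (a i : ℤ)))
      ≤ T * (∑ q, cnt (E1 q) + ∑ q, cnt (E2 q)) := Nat.mul_le_mul_left _ h1
    _ = ∑ q, T * cnt (E1 q) + ∑ q, T * cnt (E2 q) := by rw [mul_add, mul_sum, mul_sum]
    _ ≤ ∑ q : Fin L × Fin n, 2 * (2 * H + 1) ^ n +
        ∑ q : (Fin L × Fin L) × (Fin n × Fin n), 2 * (2 * H + 1) ^ n :=
        Nat.add_le_add (sum_le_sum fun q _ => hE1 q) (sum_le_sum fun q _ => hE2 q)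
    _ = 2 * (L * n + L ^ 2 * n ^ 2) * (2 * H + 1) ^ n := by
        simp only [sum_const, smul_eq_mul, card_univ, Fintype.card_prod, Fintype.card_fin]
        ring

/-- the denominators -/
abbrev Dx (H : ℕ) := {x : ℕ // x ∈ Ico 1 (1 + H)}

theorem cnt_Dx (H : ℕ) (R : ℕ → Prop) [DecidablePred R] :
    cnt (fun x : Dx H => R x) = #((Ico 1 (1 + H)).filter R) := by
  unfold cnt
  refine Finset.card_bij (fun x _ => (x : ℕ)) ?_ ?_ ?_
  · intro x hx
    simp only [mem_filter, mem_univ, true_and] at hx ⊢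
    exact ⟨x.2, hx⟩
  · intro x _ y _ h
    exact Subtype.ext h
  · intro x hx
    simp only [mem_filter] at hx
    exact ⟨⟨x, hx.1⟩, by simp only [mem_filter, mem_univ, true_and]; exact hx.2, rfl⟩

theorem card_Dx (H : ℕ) : Fintype.card (Dx H) = H := by
  rw [Fintype.card_coe, Nat.card_Ico]
  omega

/-- few denominators miss the block -/
theorem cnt_miss (P : Finset ℕ) (hP : ∀ p ∈ P, p.Prime) {ε : ℝ}
    (hε : ∏ p ∈ P, (1 - (p : ℝ)⁻¹) ≤ ε) (H : ℕ) (hH : ∏ p ∈ P, p ≤ H) :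
    (cnt (fun Q : Dx H => ∀ p ∈ P, ¬ p ∣ (Q : ℕ)) : ℝ) ≤ 2 * ε * H := by
  classical
  set W := ∏ p ∈ P, p with hW
  have hW0 : 0 < W := prod_pos fun p hp => (hP p hp).pos
  have h1 : cnt (fun Q : Dx H => ∀ p ∈ P, ¬ p ∣ (Q : ℕ)) ≤ W.totient * (H / W + 1) := by
    refine (cnt_mono (Q' := fun Q : Dx H => W.Coprime Q) ?_).trans
      ((cnt_Dx H (fun x => W.Coprime x)).le.trans (Nat.Ico_filter_coprime_le 1 H hW0.ne'))
    intro Q hQ
    exact Nat.Coprime.prod_left fun p hp => (Nat.Prime.coprime_iff_not_dvd (hP p hp)).2 (hQ p hp)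
  have h2 : (W.totient : ℝ) = W * ∏ p ∈ P, (1 - (p : ℝ)⁻¹) := by
    have h3 := Nat.totient_eq_mul_prod_factors W
    rw [Nat.primeFactors_prod hP] at h3
    have h4 := congrArg (Rat.cast : ℚ → ℝ) h3
    push_cast at h4
    exact h4
  have hprod0 : 0 ≤ ∏ p ∈ P, (1 - (p : ℝ)⁻¹) := by
    refine prod_nonneg fun p hp => ?_
    have : (1 : ℝ) ≤ p := by exact_mod_cast (hP p hp).one_lt.le
    have := inv_le_one_of_one_le₀ this
    linarith
  have h4 : ((W * (H / W + 1) : ℕ) : ℝ) ≤ 2 * H := by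
    have h5 := Nat.mul_div_le H W
    have h6 : W * (H / W + 1) ≤ 2 * H := by
      rw [mul_add, mul_one]
      omega
    exact_mod_cast h6
  calc (cnt (fun Q : Dx H => ∀ p ∈ P, ¬ p ∣ (Q : ℕ)) : ℝ)
      ≤ ((W.totient * (H / W + 1) : ℕ) : ℝ) := by exact_mod_cast h1
    _ = (∏ p ∈ P, (1 - (p : ℝ)⁻¹)) * ((W * (H / W + 1) : ℕ) : ℝ) := by
        rw [Nat.cast_mul, h2, Nat.cast_mul]
        ring
    _ ≤ (∏ p ∈ P, (1 - (p : ℝ)⁻¹)) * (2 * H) := mul_le_mul_of_nonneg_left h4 hprod0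
    _ ≤ ε * (2 * H) := mul_le_mul_of_nonneg_right hε (by positivity)
    _ = 2 * ε * H := by ring

/-- counting in a product: conditions on the second coordinate -/
theorem cnt_prod_snd {α β : Type} [Fintype α] [Fintype β] (R : β → Prop) :
    cnt (fun v : α × β => R v.2) = Fintype.card α * cnt R := by
  classical
  unfold cnt
  rw [← card_univ (α := α), ← card_product]
  congr 1
  ext v
  simp

theorem cnt_prod_le {α β : Type} [Fintype α] [Fintype β] (R : α × β → Prop) (k : ℕ)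
    (hk : ∀ b, cnt (fun a => R (a, b)) ≤ k) : cnt R ≤ k * Fintype.card β := by
  classical
  unfold cnt at hk ⊢
  refine (Finset.card_le_mul_card_image (f := Prod.snd) _ k ?_).trans ?_
  · intro b _
    refine le_trans ?_ (hk b)
    refine Finset.card_le_card_of_injOn Prod.fst ?_ ?_
    · rintro ⟨a, b'⟩ hc
      simp only [coe_filter, mem_filter, mem_univ, true_and, Set.mem_ofPred_eq] at hc ⊢
      obtain ⟨h1, rfl⟩ := hc
      exact h1
    · rintro ⟨a, b1⟩ h1 ⟨a', b2⟩ h2 h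
      simp only [coe_filter, mem_filter, mem_univ, true_and, Set.mem_ofPred_eq] at h1 h2 h
      rw [h, h1.2, h2.2]
  · exact Nat.mul_le_mul_left _ (Finset.card_le_univ _)

/-- Almost all pairs are good. -/
theorem dens_box (L D n : ℕ) {δ : ℝ} (hδ : 0 < δ) : ∃ H₀ : ℕ, ∀ H, H₀ ≤ H →
    (cnt (fun v : (Fin n → Bx H) × Dx H => ¬ GoodP L D (fun i => (v.1 i : ℤ)) v.2) : ℝ) ≤
      δ * ((2 * H + 1) ^ n * H) := by
  classical
  set K : ℕ := 2 * (L * n + L ^ 2 * n ^ 2) with hK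
  obtain ⟨T, hT⟩ := exists_nat_gt (max (D : ℝ) (2 * K / δ))
  have hTD : D < T := by exact_mod_cast (le_max_left _ _).trans_lt hT
  have hT0 : 0 < T := (Nat.zero_le D).trans_lt hTD
  have hTR : (0 : ℝ) < T := by exact_mod_cast hT0
  have hTK : (K : ℝ) / T ≤ δ / 2 := by
    have h1 := ((le_max_right _ _).trans_lt hT).le
    rw [div_le_iff₀ hδ] at h1
    rw [div_le_div_iff₀ hTR two_pos]
    linarith
  have hε : 0 < δ / (4 * (L + 1)) := by positivity
  obtain ⟨P, hP1, hP2, hP3⟩ := exists_blocks T hT0 hε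
  refine ⟨∑ l : Fin L, (∏ p ∈ P l, p + (P l).sup id), fun H hH => ?_⟩
  have hHl : ∀ l : Fin L, ∏ p ∈ P l, p ≤ H ∧ ∀ p ∈ P l, p ≤ H := by
    intro l
    have h1 : ∏ p ∈ P l, p + (P l).sup id ≤ ∑ l : Fin L, (∏ p ∈ P l, p + (P l).sup id) :=
      single_le_sum (f := fun l : Fin L => ∏ p ∈ P l, p + (P l).sup id)
        (fun _ _ => Nat.zero_le _) (mem_univ l)
    refine ⟨by omega, fun p hp => ?_⟩
    have : p ≤ (P l).sup id := le_sup (f := id) hp
    omega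
  -- the choice of the primes
  have hch : ∀ Q : Dx H, ∃ p : Fin L → ℕ, (∀ l : Fin L, ∃ q ∈ P l, q ∣ (Q : ℕ)) →
      ∀ l : Fin L, p l ∈ P l ∧ p l ∣ (Q : ℕ) := by
    intro Q
    by_cases h : ∀ l : Fin L, ∃ q ∈ P l, q ∣ (Q : ℕ)
    · choose p hp using h
      exact ⟨p, fun _ => hp⟩
    · exact ⟨fun _ => 0, fun h' => absurd h' h⟩
  choose pc hpc using hch
  let R1 : (Fin n → Bx H) × Dx H → Prop := fun v => ∃ l : Fin L, ∀ p ∈ P l, ¬ p ∣ (v.2 : ℕ)
  let R2 : (Fin n → Bx H) × Dx H → Prop := fun v =>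
    (∀ l : Fin L, ∃ q ∈ P l, q ∣ (v.2 : ℕ)) ∧ BadA (pc v.2) (fun i => (v.1 i : ℤ))
  have hcov : ∀ v : (Fin n → Bx H) × Dx H,
      ¬ GoodP L D (fun i => (v.1 i : ℤ)) v.2 → R1 v ∨ R2 v := by
    intro v hv
    by_cases h : ∀ l : Fin L, ∃ q ∈ P l, q ∣ (v.2 : ℕ)
    · right
      refine ⟨h, ?_⟩
      by_contra hb
      apply hv
      have h1 := hpc v.2 h
      refine ⟨pc v.2, fun l => ⟨(hP1 l _ (h1 l).1).1, hTD.trans (hP1 l _ (h1 l).1).2⟩,
        fun l => (h1 l).2, fun l i hd => hb (Or.inl ⟨l, i, hd⟩), fun l l' hll i j hij hd =>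
          hb (Or.inr ⟨l, l', hll, i, j, hij, hd⟩)⟩
    · left
      push Not at h
      exact h
  have hR1 : (cnt R1 : ℝ) ≤ δ / 2 * ((2 * H + 1) ^ n * H) := by
    have h1 : cnt R1 ≤ ∑ l : Fin L, (2 * H + 1) ^ n *
        cnt (fun Q : Dx H => ∀ p ∈ P l, ¬ p ∣ (Q : ℕ)) := by
      refine (cnt_exists (fun (l : Fin L) (v : (Fin n → Bx H) × Dx H) =>
        ∀ p ∈ P l, ¬ p ∣ (v.2 : ℕ))).trans (sum_le_sum fun l _ => ?_)
      have h2 := cnt_prod_snd (α := Fin n → Bx H) (fun Q : Dx H => ∀ p ∈ P l, ¬ p ∣ (Q : ℕ))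
      rw [Fintype.card_fun, card_Bx, Fintype.card_fin] at h2
      exact h2.le
    have h3 : (cnt R1 : ℝ) ≤ ∑ l : Fin L, ((2 * H + 1) ^ n : ℝ) *
        (2 * (δ / (4 * (L + 1))) * H) := by
      refine (Nat.cast_le.2 h1).trans ?_
      push_cast
      refine sum_le_sum fun l _ => mul_le_mul_of_nonneg_left ?_ (by positivity)
      exact cnt_miss (P l) (fun p hp => (hP1 l p hp).1) (hP2 l) H (hHl l).1
    refine h3.trans ?_
    rw [sum_const, card_univ, Fintype.card_fin, nsmul_eq_mul]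
    have h4 : (L : ℝ) * (2 * (δ / (4 * (L + 1)))) ≤ δ / 2 := by
      have h5 : (L : ℝ) / (L + 1) ≤ 1 := by
        rw [div_le_one (by positivity)]
        linarith
      have h6 : (L : ℝ) * (2 * (δ / (4 * (L + 1)))) = δ / 2 * (L / (L + 1)) := by
        field_simp
        ring
      rw [h6]
      exact mul_le_of_le_one_right (by positivity) h5
    calc (L : ℝ) * ((2 * H + 1) ^ n * (2 * (δ / (4 * (L + 1))) * H))
        = ((L : ℝ) * (2 * (δ / (4 * (L + 1))))) * ((2 * H + 1) ^ n * H) := by ring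
      _ ≤ δ / 2 * ((2 * H + 1) ^ n * H) := mul_le_mul_of_nonneg_right h4 (by positivity)
  have hR2 : (cnt R2 : ℝ) ≤ δ / 2 * ((2 * H + 1) ^ n * H) := by
    have h1 : cnt R2 ≤ (K * (2 * H + 1) ^ n / T) * Fintype.card (Dx H) := by
      refine cnt_prod_le R2 _ fun Q => ?_
      rw [Nat.le_div_iff_mul_le hT0, mul_comm]
      by_cases h : ∀ l : Fin L, ∃ q ∈ P l, q ∣ (Q : ℕ)
      · have h2 := hpc Q h
        refine (Nat.mul_le_mul_left _ (cnt_mono fun a ha => ha.2)).trans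
          (cnt_badA T H (pc Q) (fun l => ⟨(hP1 l _ (h2 l).1).1, (hP1 l _ (h2 l).1).2.le,
            (hHl l).2 _ (h2 l).1⟩) fun l l' hll => (hP3 l l' hll _ (h2 l).1 _ (h2 l').1).le)
      · rw [cnt_false (fun a ha => h ha.1), mul_zero]
        exact Nat.zero_le _
    rw [card_Dx] at h1
    have h2 : ((K * (2 * H + 1) ^ n / T : ℕ) : ℝ) ≤ K * (2 * H + 1) ^ n / T := by
      have := Nat.cast_div_le (α := ℝ) (m := K * (2 * H + 1) ^ n) (n := T)
      push_cast at this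
      exact this
    calc (cnt R2 : ℝ) ≤ ((K * (2 * H + 1) ^ n / T : ℕ) : ℝ) * H := by exact_mod_cast h1
      _ ≤ (K * (2 * H + 1) ^ n / T : ℝ) * H := mul_le_mul_of_nonneg_right h2 (by positivity)
      _ = K / T * ((2 * H + 1) ^ n * H) := by ring
      _ ≤ δ / 2 * ((2 * H + 1) ^ n * H) := mul_le_mul_of_nonneg_right hTK (by positivity)
  have hfin : cnt (fun v : (Fin n → Bx H) × Dx H => ¬ GoodP L D (fun i => (v.1 i : ℤ)) v.2) ≤
      cnt R1 + cnt R2 := (cnt_mono hcov).trans (cnt_or R1 R2)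
  calc (cnt (fun v : (Fin n → Bx H) × Dx H => ¬ GoodP L D (fun i => (v.1 i : ℤ)) v.2) : ℝ)
      ≤ cnt R1 + cnt R2 := by exact_mod_cast hfin
    _ ≤ δ / 2 * ((2 * H + 1) ^ n * H) + δ / 2 * ((2 * H + 1) ^ n * H) := add_le_add hR1 hR2
    _ = δ * ((2 * H + 1) ^ n * H) := by ring

end Pool.Agent.V8H78.MP
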