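import Mathlib

/-!
Algebraic numbers `u` of bounded degree such that `W / (u - α)` is an algebraic integer for several
integers `α`.
-/

set_option autoImplicit false

open Polynomial

namespace Pool.Agent.V8H78.MP.FinW

/-- the value of the minimal polynomial at `α` divides a power of `W` -/
theorem eval_dvd {u : ℂ} {f : ℤ[X]} (hf : f.IsPrimitive) (hu : aeval u f = 0)
    (hmin : ∀ g : ℤ[X], g ≠ 0 → aeval u g = 0 → f.natDegree ≤ g.natDegree) {α W : ℤ} (hW : W ≠ 0)
    (huα : u ≠ α) (hγ : IsIntegral ℤ ((W : ℂ) / (u - α))) : f.eval α ∣ W ^ f.natDegree := by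
  have huα' : u - α ≠ 0 := sub_ne_zero.2 huα
  have hWC : (W : ℂ) ≠ 0 := by exact_mod_cast hW
  set h := taylor α f with hh
  have hf0 : f ≠ 0 := hf.ne_zero
  have hh0 : h ≠ 0 := by
    intro h0
    exact hf0 ((taylor_injective α) (by rw [← hh, h0, map_zero]))
  have hhdeg : h.natDegree = f.natDegree := natDegree_taylor f α
  have hroot : aeval (u - α) h = 0 := by
    rw [hh, taylor_apply, aeval_comp, map_add, aeval_X, aeval_C, eq_intCast, sub_add_cancel]
    exact hu
  have hminh : ∀ g : ℤ[X], g ≠ 0 → aeval (u - α) g = 0 → f.natDegree ≤ g.natDegree := by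
    intro g hg hg0
    have h1 := hmin (taylor (-α) g) (by
      intro h0
      exact hg ((taylor_injective (-α)) (by rw [h0, map_zero]))) (by
      rw [taylor_apply, aeval_comp, map_add, aeval_X, aeval_C, eq_intCast, Int.cast_neg,
        ← sub_eq_add_neg]
      exact hg0)
    rwa [natDegree_taylor] at h1
  have hc0 : h.coeff 0 = f.eval α := by
    rw [hh, taylor_coeff_zero]
  have hne : h.coeff 0 ≠ 0 := by
    intro h0
    -- `h = X * g` contradicts the minimality
    have h1 : X ∣ h := X_dvd_iff.2 h0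
    obtain ⟨g, hg⟩ := h1
    have hg0 : g ≠ 0 := by
      rintro rfl
      rw [mul_zero] at hg
      exact hh0 hg
    have h2 : aeval (u - α) g = 0 := by
      have h3 := hroot
      rw [hg, map_mul, aeval_X] at h3
      exact (mul_eq_zero.1 h3).resolve_left huα'
    have h3 := hminh g hg0 h2
    have h4 : h.natDegree = g.natDegree + 1 := by
      rw [hg, natDegree_X_mul hg0]
    omega
  -- the polynomial of `γ`
  set g := (h.reverse).scaleRoots W with hg
  have hrdeg : h.reverse.natDegree = f.natDegree := by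
    rw [reverse_natDegree, natTrailingDegree_eq_zero.2 (Or.inr hne), hhdeg, Nat.sub_zero]
  have hgdeg : g.natDegree = f.natDegree := by rw [hg, natDegree_scaleRoots, hrdeg]
  have hglead : g.leadingCoeff = f.eval α := by
    rw [← hc0, leadingCoeff, hg, natDegree_scaleRoots, coeff_scaleRoots, Nat.sub_self, pow_zero,
      mul_one, hrdeg, ← hhdeg, coeff_reverse, revAt_le le_rfl, Nat.sub_self]
  have hg0 : g ≠ 0 := by
    intro h0
    rw [h0, leadingCoeff_zero] at hglead
    rw [hc0] at hne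
    exact hne hglead.symm
  have hgroot : aeval ((W : ℂ) / (u - α)) g = 0 := by
    have h1 : aeval ((u - α)⁻¹) h.reverse = 0 := by
      rw [aeval_def]
      have := invertibleOfNonzero huα'
      have h2 := (eval₂_reverse_eq_zero_iff (algebraMap ℤ ℂ) (u - α) h).2 (by
        rw [← aeval_def]; exact hroot)
      rwa [invOf_eq_inv] at h2
    have h2 := scaleRoots_aeval_eq_zero (A := ℂ) (R := ℤ) (r := W) h1
    rw [← hg, eq_intCast] at h2
    rw [div_eq_mul_inv]
    exact h2
  -- compare with the minimal polynomial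
  set γ := (W : ℂ) / (u - α) with hγd
  have hγ0 : γ ≠ 0 := div_ne_zero hWC huα'
  set μ := minpoly ℤ γ with hμ
  have hμm : μ.Monic := minpoly.monic hγ
  have hdvd : μ ∣ g := minpoly.isIntegrallyClosed_dvd hγ hgroot
  have hle : f.natDegree ≤ μ.natDegree := by
    have h1 : aeval (γ⁻¹) μ.reverse = 0 := by
      rw [aeval_def]
      have := invertibleOfNonzero hγ0
      have h2 := (eval₂_reverse_eq_zero_iff (algebraMap ℤ ℂ) γ μ).2 (by
        rw [← aeval_def]; exact minpoly.aeval ℤ γ)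
      rwa [invOf_eq_inv] at h2
    have h2 := scaleRoots_aeval_eq_zero (A := ℂ) (R := ℤ) (r := W) h1
    rw [eq_intCast] at h2
    have h3 : (W : ℂ) * γ⁻¹ = u - α := by
      rw [hγd]
      field_simp
    rw [h3] at h2
    have h4 := hminh _ (scaleRoots_ne_zero (fun h0 => hμm.ne_zero (reverse_eq_zero.1 h0)) W) h2
    rw [natDegree_scaleRoots] at h4
    exact h4.trans (reverse_natDegree_le μ)
  obtain ⟨q, hq⟩ := hdvd
  have hq0 : q ≠ 0 := by
    rintro rfl
    rw [mul_zero] at hq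
    exact hg0 hq
  have hqdeg : q.natDegree = 0 := by
    have h1 : g.natDegree = μ.natDegree + q.natDegree := by
      rw [hq, hμm.natDegree_mul' hq0]
    omega
  obtain ⟨c, rfl⟩ : ∃ c, q = C c := ⟨q.coeff 0, eq_C_of_natDegree_eq_zero hqdeg⟩
  have hc : c = f.eval α := by
    rw [← hglead, hq, leadingCoeff_mul, hμm.leadingCoeff, one_mul, leadingCoeff_C]
  -- divisibility of the coefficients
  have hcoef : ∀ j, f.eval α ∣ W ^ f.natDegree * h.coeff j := by
    intro j
    rcases Nat.lt_or_ge f.natDegree j with hj | hj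
    · rw [coeff_eq_zero_of_natDegree_lt (by rw [hhdeg]; exact hj), mul_zero]
      exact dvd_zero _
    · have h1 : g.coeff (f.natDegree - j) = h.coeff j * W ^ j := by
        rw [hg, coeff_scaleRoots, hrdeg, coeff_reverse, hhdeg,
          revAt_le (Nat.sub_le _ _), Nat.sub_sub_self hj]
      have h2 : f.eval α ∣ g.coeff (f.natDegree - j) := by
        rw [hq, mul_comm, coeff_C_mul, hc]
        exact Dvd.intro _ rfl
      rw [h1] at h2
      obtain ⟨i, hi⟩ := Nat.exists_eq_add_of_le hj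
      rw [hi, pow_add, mul_comm (W ^ j) (W ^ i), mul_assoc, mul_comm (W ^ j) (h.coeff j)]
      exact h2.mul_left _
  have hC : C (f.eval α) ∣ C (W ^ f.natDegree) * h := by
    rw [C_dvd_iff_dvd_coeff]
    intro j
    rw [coeff_C_mul]
    exact hcoef j
  have hC2 : C (f.eval α) ∣ C (W ^ f.natDegree) * f := by
    obtain ⟨q', hq'⟩ := hC
    refine ⟨taylor (-α) q', ?_⟩
    have h1 := congrArg (taylor (-α)) hq'
    rw [taylor_mul, taylor_mul, taylor_C, taylor_C, hh, taylor_taylor, neg_add_cancel, taylor_zero]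
      at h1
    exact h1
  have h5 : f.eval α ∣ (C (W ^ f.natDegree) * f).content :=
    dvd_content_iff_C_dvd.2 hC2
  rw [content_C_mul, hf.content_eq_one, mul_one] at h5
  exact h5.trans (normalize_dvd_iff.2 dvd_rfl)

/-- an algebraic number is a root of a primitive polynomial of minimal degree -/
theorem exists_min {u : ℂ} {D : ℕ} (h : ∃ f : ℤ[X], f ≠ 0 ∧ f.natDegree ≤ D ∧ aeval u f = 0) :
    ∃ f : ℤ[X], f.IsPrimitive ∧ f.natDegree ≤ D ∧ aeval u f = 0 ∧
      ∀ g : ℤ[X], g ≠ 0 → aeval u g = 0 → f.natDegree ≤ g.natDegree := by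
  classical
  have hex : ∃ e : ℕ, ∃ f : ℤ[X], f ≠ 0 ∧ f.natDegree = e ∧ aeval u f = 0 := by
    obtain ⟨f, hf, -, hu⟩ := h
    exact ⟨_, f, hf, rfl, hu⟩
  obtain ⟨f, hf, hfe, hu⟩ := Nat.find_spec hex
  have hmin : ∀ g : ℤ[X], g ≠ 0 → aeval u g = 0 → Nat.find hex ≤ g.natDegree :=
    fun g hg hg0 => Nat.find_min' hex ⟨g, hg, rfl, hg0⟩
  refine ⟨f.primPart, f.isPrimitive_primPart, ?_, ?_, ?_⟩
  · rw [natDegree_primPart, hfe]
    obtain ⟨g, hg, hgD, hg0⟩ := h
    exact (hmin g hg hg0).trans hgD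
  · rw [f.eq_C_content_mul_primPart, map_mul, aeval_C, eq_intCast] at hu
    refine (mul_eq_zero.1 hu).resolve_left fun h0 => ?_
    have h1 : f.content = 0 := by exact_mod_cast h0
    exact hf (content_eq_zero_iff.1 h1)
  · intro g hg hg0
    rw [natDegree_primPart, hfe]
    exact hmin g hg hg0

/-- finitely many polynomials -/
theorem finite_polys {M : ℕ} {α : Fin M → ℤ} (hα : Function.Injective α) (B : ℤ) (g₀ : ℤ[X]) :
    {f : ℤ[X] | (f - g₀).degree < M ∧ ∀ l, |f.eval (α l)| ≤ B}.Finite := by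
  classical
  have h1 : (Set.pi (Set.univ : Set (Fin M)) fun _ => Set.Icc (-B) B).Finite :=
    Set.Finite.pi fun _ => Set.finite_Icc _ _
  refine Set.Finite.of_finite_image (f := fun f : ℤ[X] => fun l : Fin M => f.eval (α l))
    (h1.subset ?_) ?_
  · rintro _ ⟨f, ⟨-, hf⟩, rfl⟩
    intro l _
    exact abs_le.1 (hf l)
  · intro f hf g hg hfg
    refine eq_of_degree_sub_lt_of_eval_finset_eq (Finset.univ.image α) ?_ ?_
    · rw [Finset.card_image_of_injective _ hα, Finset.card_univ, Fintype.card_fin]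
      have e : f - g = (f - g₀) - (g - g₀) := by ring
      rw [e]
      exact (degree_sub_le _ _).trans_lt (max_lt hf.1 hg.1)
    · intro x hx
      obtain ⟨l, -, rfl⟩ := Finset.mem_image.1 hx
      exact congrFun hfg l

/-- finitely many parameters -/
theorem finite_Z {M : ℕ} {α : Fin M → ℤ} (hα : Function.Injective α) {W : ℤ} (hW : W ≠ 0) :
    {u : ℂ | ((∃ f : ℤ[X], f ≠ 0 ∧ f.natDegree < M ∧ aeval u f = 0) ∨
      (IsIntegral ℤ u ∧ ∃ f : ℤ[X], f ≠ 0 ∧ f.natDegree ≤ M ∧ aeval u f = 0)) ∧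
      ∀ l, u ≠ α l ∧ IsIntegral ℤ ((W : ℂ) / (u - α l))}.Finite := by
  classical
  have key : ∀ g₀ : ℤ[X], {u : ℂ | ∃ f : ℤ[X], f ≠ 0 ∧ aeval u f = 0 ∧ (f - g₀).degree < M ∧
      ∀ l, |f.eval (α l)| ≤ |W| ^ M}.Finite := by
    intro g₀
    have h1 := finite_polys hα (|W| ^ M) g₀
    refine (h1.biUnion (t := fun f => {u : ℂ | f ≠ 0 ∧ aeval u f = 0}) fun f _ => ?_).subset ?_
    · by_cases hf : f = 0
      · refine Set.finite_empty.subset ?_
        rintro u ⟨h, -⟩
        exact absurd hf h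
      · refine ((f.aroots ℂ).toFinset.finite_toSet).subset ?_
        rintro u ⟨-, hu⟩
        rw [Finset.mem_coe, Multiset.mem_toFinset, mem_aroots]
        exact ⟨hf, hu⟩
    · rintro u ⟨f, hf, hu, hd, he⟩
      exact Set.mem_biUnion (show f ∈ {f : ℤ[X] | _} from ⟨hd, he⟩) ⟨hf, hu⟩
  refine ((key 0).union (key (X ^ M))).subset ?_
  rintro u ⟨hu, hl⟩
  have habs : ∀ {f : ℤ[X]} {l}, f.natDegree ≤ M → f.eval (α l) ∣ W ^ f.natDegree →
      |f.eval (α l)| ≤ |W| ^ M := by
    intro f l hfM hd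
    have h1 : |f.eval (α l)| ≤ |W ^ f.natDegree| :=
      Int.le_of_dvd (abs_pos.2 (pow_ne_zero _ hW)) ((abs_dvd_abs _ _).2 hd)
    rw [abs_pow] at h1
    exact h1.trans (pow_le_pow_right₀ (Int.one_le_abs hW) hfM)
  have hfirst : (∃ f : ℤ[X], f ≠ 0 ∧ f.natDegree < M ∧ aeval u f = 0) →
      u ∈ {u : ℂ | ∃ f : ℤ[X], f ≠ 0 ∧ aeval u f = 0 ∧ (f - 0).degree < M ∧
      ∀ l, |f.eval (α l)| ≤ |W| ^ M} := by
    rintro ⟨f₁, hf₁, hd₁, hu₁⟩
    obtain ⟨f, hf, hfd, hfu, hmin⟩ := exists_min (D := M - 1) ⟨f₁, hf₁, by omega, hu₁⟩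
    have hfM : f.natDegree < M := by omega
    refine ⟨f, hf.ne_zero, hfu, ?_, fun l => habs hfM.le (eval_dvd hf hfu hmin hW (hl l).1 (hl l).2)⟩
    rw [sub_zero]
    exact degree_lt_of_natDegree_lt' hfM hf.ne_zero
  rcases hu with h | ⟨hint, f₁, hf₁, hd₁, hu₁⟩
  · exact Or.inl (hfirst h)
  · have hmin : ∀ g : ℤ[X], g ≠ 0 → aeval u g = 0 → (minpoly ℤ u).natDegree ≤ g.natDegree := by
      intro g hg hg0
      exact natDegree_le_natDegree (minpoly.IsIntegrallyClosed.degree_le_of_ne_zero hg hg0)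
    have hmon := minpoly.monic hint
    have hdM : (minpoly ℤ u).natDegree ≤ M := (hmin f₁ hf₁ hu₁).trans hd₁
    rcases hdM.lt_or_eq with hlt | heq
    · exact Or.inl (hfirst ⟨_, hmon.ne_zero, hlt, minpoly.aeval ℤ u⟩)
    · right
      refine ⟨minpoly ℤ u, hmon.ne_zero, minpoly.aeval ℤ u, ?_, fun l => habs hdM
        (eval_dvd hmon.isPrimitive (minpoly.aeval ℤ u) hmin hW (hl l).1 (hl l).2)⟩
      have h1 := degree_sub_lt_of_monic hmon heq
      exact h1
where
  degree_lt_of_natDegree_lt' {f : ℤ[X]} {M : ℕ} (h : f.natDegree < M) (hf : f ≠ 0) :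
      f.degree < ((M : ℕ) : WithBot ℕ) := by
    rw [degree_eq_natDegree hf]
    exact_mod_cast h
  degree_sub_lt_of_monic {f : ℤ[X]} {M : ℕ} (h : f.Monic) (hM : f.natDegree = M) :
      (f - X ^ M).degree < ((M : ℕ) : WithBot ℕ) := by
    have h1 : f.degree = (X ^ M : ℤ[X]).degree := by
      rw [degree_X_pow, degree_eq_natDegree h.ne_zero, hM]
    have h2 := degree_sub_lt_left h1 h.ne_zero (by rw [h.leadingCoeff, leadingCoeff_X_pow])
    rwa [degree_eq_natDegree h.ne_zero, hM] at h2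

/-- finitely many parameters, rational centres -/
theorem finite_Q {M : ℕ} {α : Fin M → ℚ} (hα : Function.Injective α) {W : ℕ} (hW : 0 < W) :
    {u : ℂ | IsAlgebraic ℚ u ∧ ((minpoly ℚ u).natDegree < M ∨
      (IsIntegral ℤ u ∧ (minpoly ℚ u).natDegree ≤ M)) ∧
      ∀ l, u ≠ (α l : ℂ) ∧ IsIntegral ℤ ((W : ℂ) / (u - α l))}.Finite := by
  classical
  set w : ℕ := ∏ l, (α l).den with hw
  have hw0 : 0 < w := Finset.prod_pos fun l _ => (α l).pos
  have hwC : (w : ℂ) ≠ 0 := by exact_mod_cast hw0.ne'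
  have hint : ∀ l, ∃ b : ℤ, (w : ℚ) * α l = b := by
    intro l
    obtain ⟨c, hc⟩ : (α l).den ∣ w := Finset.dvd_prod_of_mem _ (Finset.mem_univ l)
    refine ⟨c * (α l).num, ?_⟩
    rw [hc]
    push_cast
    have h1 : ((α l).den : ℚ) * α l = (α l).num := by
      rw [mul_comm]
      exact Rat.mul_den_eq_num (α l)
    linear_combination (c : ℚ) * h1
  choose b hb using hint
  have hbC : ∀ l, (w : ℂ) * (α l : ℂ) = (b l : ℂ) := by
    intro l
    have := congrArg (fun x : ℚ => (x : ℂ)) (hb l)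
    push_cast at this
    exact this
  have hbinj : Function.Injective b := by
    intro l l' h
    apply hα
    have h1 : (w : ℚ) * α l = w * α l' := by rw [hb, hb, h]
    exact mul_left_cancel₀ (by exact_mod_cast hw0.ne') h1
  have hfin := finite_Z hbinj (W := (w * W : ℕ)) (by exact_mod_cast (Nat.mul_pos hw0 hW).ne')
  refine Set.Finite.of_finite_image (f := fun u : ℂ => (w : ℂ) * u) (hfin.subset ?_)
    (fun u _ u' _ h => mul_left_cancel₀ hwC h)
  rintro _ ⟨u, ⟨halg, hdeg, hl⟩, rfl⟩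
  have hpoly : ∀ D, (minpoly ℚ u).natDegree ≤ D → ∃ f : ℤ[X], f ≠ 0 ∧ f.natDegree ≤ D ∧
      aeval ((w : ℂ) * u) f = 0 := by
    intro D hD
    set c := IsLocalization.integerNormalization (nonZeroDivisors ℤ) (minpoly ℚ u) with hcdef
    have hc : c ≠ 0 := fun h => minpoly.ne_zero halg.isIntegral
      (IsFractionRing.integerNormalization_eq_zero_iff.1 h)
    refine ⟨c.scaleRoots w, scaleRoots_ne_zero hc _, ?_, ?_⟩
    · rw [natDegree_scaleRoots]
      refine le_trans ?_ hD
      rw [natDegree_le_iff_coeff_eq_zero]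
      intro i hi
      by_contra h
      have h1 := IsLocalization.integerNormalization_support (nonZeroDivisors ℤ) (minpoly ℚ u)
        (mem_support_iff.2 h)
      rw [mem_support_iff] at h1
      exact h1 (coeff_eq_zero_of_natDegree_lt hi)
    · have h2 := scaleRoots_aeval_eq_zero (A := ℂ) (R := ℤ) (r := (w : ℤ))
        (IsLocalization.integerNormalization_aeval_eq_zero (nonZeroDivisors ℤ) (minpoly ℚ u)
          (minpoly.aeval ℚ u))
      rw [eq_intCast, Int.cast_natCast] at h2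
      exact h2
  refine ⟨?_, fun l => ⟨?_, ?_⟩⟩
  · rcases hdeg with h | ⟨h1, h2⟩
    · left
      obtain ⟨f, hf, hfd, hfu⟩ := hpoly (M - 1) (by omega)
      exact ⟨f, hf, by omega, hfu⟩
    · right
      exact ⟨(isIntegral_natCast' w).mul h1, hpoly M h2⟩
  · intro h
    rw [← hbC] at h
    exact (hl l).1 (mul_left_cancel₀ hwC h)
  · have h1 : (((w * W : ℕ) : ℤ) : ℂ) / ((w : ℂ) * u - (b l : ℂ)) = (W : ℂ) / (u - α l) := by
      rw [← hbC, ← mul_sub]
      push_cast
      rw [mul_div_mul_left _ _ hwC]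
    show IsIntegral ℤ ((((w * W : ℕ) : ℤ) : ℂ) / ((w : ℂ) * u - (b l : ℂ)))
    rw [h1]
    exact (hl l).2
where
  isIntegral_natCast' (n : ℕ) : IsIntegral ℤ (n : ℂ) := by
    have := isIntegral_algebraMap (R := ℤ) (A := ℂ) (x := (n : ℤ))
    rwa [eq_intCast, Int.cast_natCast] at this

end Pool.Agent.V8H78.MP.FinW
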