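import Pool.Agent.V8H78.MP.MainB

/-!
Rational translation vectors and several primes.
-/

set_option autoImplicit false
set_option linter.unusedSectionVars false

open Function MvPolynomial UpperHalfPlane H294ZP

namespace Pool.Agent.V8H78.MP

open Pool.Agent.Y226

section loc

variable {C : Type} [NormedField C] [IsUltrametricDist C] [CharZero C]
variable {p : ℕ} [hpf : Fact p.Prime]

/-- a root of unity close to a rational number -/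
theorem root_pm1 (hp2 : p ≠ 2) (hp1 : ‖(p : C)‖ < 1) {ζ : C} {g : ℕ} (hg : 0 < g)
    (hζ : ζ ^ g = 1) {η : ℚ} (hη : ‖(η : C)‖ = 1) (h : ‖ζ - η‖ ≤ ‖(p : C)‖) :
    ζ ^ (p - 1) = 1 := by
  have hζn : ‖ζ‖ = 1 := by
    have h1 : ‖ζ‖ ^ g = 1 := by rw [← norm_pow, hζ, norm_one]
    exact (pow_eq_one_iff_of_nonneg (norm_nonneg _) hg.ne').1 h1
  have hζfin : IsOfFinOrder ζ := isOfFinOrder_iff_pow_eq_one.2 ⟨g, hg, hζ⟩
  obtain ⟨g', s, ζ', ε, hgg, hg'p, hζ', hε, hζe⟩ := root_decomp (p := p) hζfin.orderOf_pos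
    (IsPrimitiveRoot.orderOf ζ)
  have hpow : ‖ζ ^ (p - 1) - (η : C) ^ (p - 1)‖ ≤ ‖(p : C)‖ := npow_sub_pow hζn.le hη.le h _
  have h1 : ‖ζ ^ (p - 1) - 1‖ ≤ ‖(p : C)‖ := by
    have : ζ ^ (p - 1) - 1 = (ζ ^ (p - 1) - (η : C) ^ (p - 1)) + ((η : C) ^ (p - 1) - 1) := by ring
    rw [this]
    exact nadd_le hpow (fermat_rat hp1 hη)
  have hε1 : ‖ε - 1‖ < 1 := ppow_root_lt hp1 hε.pow_eq_one
  have hεn : ‖ε‖ = 1 := neq_one hε1 norm_one
  have hεp : ‖ε ^ (p - 1) - 1‖ < 1 := by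
    have := npow_sub_pow hεn.le (norm_one (α := C)).le (le_refl ‖ε - 1‖) (p - 1)
    rw [one_pow] at this
    exact this.trans_lt hε1
  have hg'0 : 0 < g' := Nat.pos_of_ne_zero (by
    rintro rfl
    rw [zero_mul] at hgg
    exact hζfin.orderOf_pos.ne' hgg)
  have hζ'n : ‖ζ'‖ = 1 := by
    have h1 : ‖ζ'‖ ^ g' = 1 := by rw [← norm_pow, hζ'.pow_eq_one, norm_one]
    exact (pow_eq_one_iff_of_nonneg (norm_nonneg _) hg'0.ne').1 h1
  have hζ'p : ζ' ^ (p - 1) = 1 := by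
    refine tame_eq_one (m := g') ?_ ?_ ?_
    · have : ¬ (p : ℤ) ∣ (g' : ℤ) := by
        intro h
        have h2 := Int.natCast_dvd_natCast.1 h
        have h3 := Nat.dvd_gcd h2 (dvd_refl p)
        rw [hg'p] at h3
        exact hpf.out.one_lt.ne' (Nat.dvd_one.1 h3)
      have := int_unit (C := C) hp1 this
      push_cast at this
      exact this
    · rw [← pow_mul, mul_comm, pow_mul, hζ'.pow_eq_one, one_pow]
    · have e : ζ' ^ (p - 1) - 1 = (ζ ^ (p - 1) - 1) - ζ' ^ (p - 1) * (ε ^ (p - 1) - 1) := by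
        rw [hζe, mul_pow]; ring
      rw [e]
      refine nsub_lt (h1.trans_lt hp1) ?_
      rw [norm_mul, norm_pow, hζ'n, one_pow, one_mul]
      exact hεp
  have hs : s = 0 := by
    by_contra hs
    obtain ⟨s', rfl⟩ : ∃ s', s = s' + 1 := ⟨s - 1, by omega⟩
    have hcop : (p - 1).Coprime (p ^ (s' + 1)) := by
      apply Nat.Coprime.pow_right
      have := Nat.coprime_self_sub_left (n := p) (m := 1) hpf.out.one_lt.le
      rw [this]
      exact Nat.coprime_one_left p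
    have hprim := hε.pow_of_coprime (p - 1) hcop
    have h2 : ε ^ (p - 1) = ζ ^ (p - 1) := by rw [hζe, mul_pow, hζ'p, one_mul]
    have h3 := ppow_root_norm_aux hp2 hp1 hprim
    have h4 : (ε ^ (p - 1)) ^ p ^ s' ≠ 1 := hprim.pow_ne_one_of_pos_of_lt
      (pow_pos hpf.out.pos s').ne' (Nat.pow_lt_pow_right hpf.out.one_lt (Nat.lt_succ_self s'))
    have h5 : ((ε ^ (p - 1)) ^ p ^ s') ^ p = 1 := by
      rw [← pow_mul, ← pow_succ]; exact hprim.pow_eq_one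
    have h6 := p_lt_root hp2 hp1 h5 h4
    rw [← h3] at h6
    have h7 : ‖ε ^ (p - 1) - 1‖ ^ p ^ s' ≤ ‖ε ^ (p - 1) - 1‖ :=
      pow_le_of_le_one (norm_nonneg _) hεp.le (pow_pos hpf.out.pos s').ne'
    rw [h2] at h7 h6
    exact absurd (h6.trans_le h7) (not_lt.2 h1)
  subst hs
  rw [pow_zero, IsPrimitiveRoot.one_right_iff] at hε
  rw [hζe, hε, mul_one, hζ'p]

theorem norm_of_dvd1 {N : ℕ} (hN : p ∣ N) : ‖(N : C)‖ ≤ ‖(p : C)‖ := by
  obtain ⟨M, rfl⟩ := hN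
  push_cast
  rw [norm_mul]
  exact mul_le_of_le_one_right (norm_nonneg _) (nnat M)

/-- algebraic integers are integral at every place -/
theorem nalgint {z : C} (hz : IsIntegral ℤ z) : ‖z‖ ≤ 1 := by
  obtain ⟨P, hP, hPz⟩ := hz
  by_contra h
  push Not at h
  have hn : 0 < P.natDegree := by
    rcases Nat.eq_zero_or_pos P.natDegree with h0 | h0
    · rw [hP.natDegree_eq_zero.1 h0, Polynomial.eval₂_one] at hPz
      exact absurd hPz one_ne_zero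
    · exact h0
  rw [Polynomial.eval₂_eq_sum_range, Finset.sum_range_succ, hP.coeff_natDegree, map_one,
    one_mul] at hPz
  have h1 : ‖∑ k ∈ Finset.range P.natDegree, (algebraMap ℤ C) (P.coeff k) * z ^ k‖ <
      ‖z‖ ^ P.natDegree := by
    refine lt_of_le_of_lt ?_ (pow_lt_pow_right₀ h (Nat.sub_lt hn one_pos))
    refine IsUltrametricDist.norm_sum_le_of_forall_le_of_nonneg (pow_nonneg (norm_nonneg _) _) ?_
    intro k hk
    rw [norm_mul, norm_pow]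
    calc ‖(algebraMap ℤ C) (P.coeff k)‖ * ‖z‖ ^ k ≤ 1 * ‖z‖ ^ k := by
          refine mul_le_mul_of_nonneg_right ?_ (pow_nonneg (norm_nonneg _) _)
          exact nint (P.coeff k)
      _ = ‖z‖ ^ k := one_mul _
      _ ≤ ‖z‖ ^ (P.natDegree - 1) := pow_le_pow_right₀ h.le
          (Nat.le_sub_one_of_lt (Finset.mem_range.1 hk))
  have h2 : ‖z‖ ^ P.natDegree =
      ‖∑ k ∈ Finset.range P.natDegree, (algebraMap ℤ C) (P.coeff k) * z ^ k‖ := by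
    rw [← norm_pow, eq_neg_of_add_eq_zero_right hPz, norm_neg]
  exact absurd h1 (by rw [← h2]; exact lt_irrefl _)

/-- the size of the translation -/
theorem size_rat1 (φ : QA →+* C) (hp1 : ‖(p : C)‖ < 1) {N : ℕ} (hN : p ∣ N)
    (hN0 : N ≠ 0) {a : ℤ} (ha : ¬ (p : ℤ) ∣ a) {s : QA} (hs : IsIntegral ℤ s) :
    ‖φ (((a : ℚ) / N : ℚ) : QA)‖ = ‖(N : C)‖⁻¹ ∧ max 1 ‖φ s‖ = 1 ∧
      1 < ‖(N : C)‖⁻¹ := by
  refine ⟨?_, ?_, ?_⟩
  · rw [map_ratCast]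
    push_cast
    rw [norm_div, int_unit hp1 ha, one_div]
  · exact max_eq_left (nalgint (map_isIntegral_int φ hs))
  · have h1 : 0 < ‖(N : C)‖ := norm_pos_iff.2 (by exact_mod_cast hN0)
    refine (one_lt_inv₀ h1).2 ?_
    exact (norm_of_dvd1 hN).trans_lt hp1

/-- the levels for rational translations -/
theorem lev_rat1 (φ : QA →+* C) (hp2 : p ≠ 2) (hp1 : ‖(p : C)‖ < 1) {N : ℕ}
    (hN : p ∣ N) (hN0 : N ≠ 0) {a b : ℤ} (ha : ¬ (p : ℤ) ∣ a) (hb : ¬ (p : ℤ) ∣ b)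
    {s s' : QA} (hs : IsIntegral ℤ s) (hs' : IsIntegral ℤ s') {M : ℕ}
    (h : M ∈ Lev (φ (((a : ℚ) / N : ℚ) : QA)) (φ s) (φ (((b : ℚ) / N : ℚ) : QA)) (φ s')) : ∃ (g : ℕ) (ζ : C), 0 < g ∧ M = g ^ 2 ∧ g ∣ p - 1 ∧
        IsPrimitiveRoot ζ g ∧ ‖(((a : ℚ) / b : ℚ) : C)‖ = 1 ∧
        ‖(((a : ℚ) / b : ℚ) : C) - ζ‖ ≤ ‖(p : C)‖ := by
  obtain ⟨A, B, g, ζ, ⟨hA, hB, hco, hg, hζ, hn, hle⟩, hM⟩ := h
  obtain ⟨h1, h2, h3⟩ := size_rat1 φ hp1 hN hN0 ha hs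
  obtain ⟨h1', h2', -⟩ := size_rat1 φ hp1 hN hN0 hb hs'
  rw [h1, h1'] at hn
  have hAB : A = B := pow_right_injective₀ (one_pos.trans h3) h3.ne' hn
  subst hAB
  have hA1 : A = 1 := by
    rw [Nat.coprime_self] at hco
    exact hco
  subst hA1
  rw [h2, h2', h1, h1', max_self, pow_one, pow_one, one_div, inv_inv] at hle
  have hNC : (N : C) ≠ 0 := by exact_mod_cast hN0
  have hbC : (b : C) ≠ 0 := by
    rw [← norm_pos_iff, int_unit hp1 hb]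
    exact one_pos
  have hbn := int_unit (C := C) hp1 hb
  have hη : φ (((a : ℚ) / N : ℚ) : QA) / φ (((b : ℚ) / N : ℚ) : QA) = (((a : ℚ) / b : ℚ) : C) := by
    rw [map_ratCast, map_ratCast]
    push_cast
    field_simp
  rw [hη] at hle
  have hηn : ‖(((a : ℚ) / b : ℚ) : C)‖ = 1 := by
    push_cast
    rw [norm_div, int_unit hp1 ha, hbn, div_one]
  have hle2 : ‖(((a : ℚ) / b : ℚ) : C) - ζ‖ ≤ ‖(p : C)‖ := hle.trans (norm_of_dvd1 hN)
  refine ⟨g, ζ, hg, by rw [hM]; ring, ?_, hζ, hηn, hle2⟩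
  have h4 := root_pm1 hp2 hp1 hg hζ.pow_eq_one hηn (by rw [norm_sub_rev]; exact hle2)
  exact hζ.dvd_of_pow_eq_one _ h4

end loc

/-- levels at different primes are different -/
theorem lev_disj {C C' : Type} [NormedField C] [IsUltrametricDist C] [CharZero C]
    [NormedField C'] [IsUltrametricDist C'] [CharZero C']
    {p p' : ℕ} [hpf : Fact p.Prime] [hpf' : Fact p'.Prime] (φ : QA →+* C) (φ' : QA →+* C')
    (hp2 : p ≠ 2) (hp1 : ‖(p : C)‖ < 1) (hp2' : p' ≠ 2) (hp1' : ‖(p' : C')‖ < 1) {N : ℕ}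
    (hN : p ∣ N) (hN' : p' ∣ N) (hN0 : N ≠ 0) {a b : ℤ} (ha : ¬ (p : ℤ) ∣ a) (hb : ¬ (p : ℤ) ∣ b)
    (ha' : ¬ (p' : ℤ) ∣ a) (hb' : ¬ (p' : ℤ) ∣ b) {s s' : QA} (hs : IsIntegral ℤ s)
    (hs' : IsIntegral ℤ s') {M : ℕ} (hd : ¬ (p' : ℤ) ∣ a ^ (p - 1) - b ^ (p - 1))
    (h : M ∈ Lev (φ (((a : ℚ) / N : ℚ) : QA)) (φ s) (φ (((b : ℚ) / N : ℚ) : QA)) (φ s')) :
    M ∉ Lev (φ' (((a : ℚ) / N : ℚ) : QA)) (φ' s) (φ' (((b : ℚ) / N : ℚ) : QA)) (φ' s') := by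
  intro h'
  obtain ⟨g, ζ, hg, hM, hgp, -⟩ := lev_rat1 φ hp2 hp1 hN hN0 ha hb hs hs' h
  obtain ⟨g', ζ', hg', hM', -, hζ', hηn, hle⟩ := lev_rat1 φ' hp2' hp1' hN' hN0 ha' hb' hs hs' h'
  have hgg : g = g' := by
    rw [hM] at hM'
    exact Nat.pow_left_injective two_ne_zero hM'
  subst hgg
  have h1 : ζ' ^ (p - 1) = 1 := by
    obtain ⟨k, hk⟩ := hgp
    rw [hk, pow_mul, hζ'.pow_eq_one, one_pow]
  have hζn : ‖ζ'‖ = 1 := by
    have h1 : ‖ζ'‖ ^ g = 1 := by rw [← norm_pow, hζ'.pow_eq_one, norm_one]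
    exact (pow_eq_one_iff_of_nonneg (norm_nonneg _) hg.ne').1 h1
  have h2 := npow_sub_pow hηn.le hζn.le hle (p - 1)
  rw [h1] at h2
  have hbn := int_unit (C := C') hp1' hb'
  have hbC : (b : C') ≠ 0 := by
    rw [← norm_pos_iff, hbn]
    exact one_pos
  have e : ((a ^ (p - 1) - b ^ (p - 1) : ℤ) : C') =
      ((((a : ℚ) / b : ℚ) : C') ^ (p - 1) - 1) * (b : C') ^ (p - 1) := by
    push_cast
    rw [div_pow]
    have : (b : C') ^ (p - 1) ≠ 0 := pow_ne_zero _ hbC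
    field_simp
  have h3 : ‖((a ^ (p - 1) - b ^ (p - 1) : ℤ) : C')‖ < 1 := by
    rw [e]
    exact (nmul_le' h2 (by rw [norm_pow, hbn, one_pow])).trans_lt hp1'
  rw [int_unit hp1' hd] at h3
  exact lt_irrefl _ h3

/-- The criterion for rational translations. -/
theorem critQ (K : Subfield ℂ) {κ : Type*}
    {N n m : ℕ} (G : κ → MvPolynomial (Fin (N + 1)) K)
    (hG : ∀ i, ∃ e, (G i).IsHomogeneous e) (A B : Fin n → MvPolynomial (Fin (N + 1)) K)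
    (d : Fin n → ℕ) (hA : ∀ i, (A i).IsHomogeneous (d i)) (hB : ∀ i, (B i).IsHomogeneous (d i))
    (hdis : ∀ I : Finset (Fin n), I.card = m + 1 → ∀ y : Fin (N + 1) → ℂ,
      (∀ i, aeval y (G i) = 0) → (∀ i ∈ I, aeval y (B i) = 0) → y = 0)
    (Γ : Finset ℂ) (hΓ : ∀ γ ∈ Γ, γ ∈ K) :
    ∃ D : ℕ, ∀ (p : Fin (n.choose 2 + 1) → ℕ), (∀ l, (p l).Prime ∧ D < p l) →
      ∀ (Q : ℕ) (a : Fin n → ℤ) (s : Fin n → QA), (∀ i, IsIntegral ℤ (s i)) → 0 < Q →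
      (∀ l, p l ∣ Q) → (∀ l i, ¬ (p l : ℤ) ∣ a i) →
      (∀ l l', l < l' → ∀ i j, i < j → ¬ (p l' : ℤ) ∣ a i ^ (p l - 1) - a j ^ (p l - 1)) →
      ∀ (r : ℕ) (cls : Fin n → Option (Fin r)) (x : Fin n → ℂ),
      (∀ i, cls i = none → IsIntegral (Algebra.adjoin ℤ (Γ : Set ℂ)) (x i)) →
      (∀ i j l, cls i = some l → cls j = some l →
        ∃ (τ w : ℍ) (a b c d : ℤ), 0 < a * d - b * c ∧ (w : ℂ) * (c * τ + d) = a * τ + b ∧
          x i = jj τ ∧ x j = jj w) →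
      ∀ y : Fin (N + 1) → ℂ, y ≠ 0 → (∀ i, aeval y (G i) = 0) →
      (∀ i, aeval y (B i) * (x i - (a i : ℂ) / Q) = rA (s i) * aeval y (A i)) →
      ∀ S : Finset (Fin n), AlgebraicIndependent K (fun i : S => x i) →
        S.card + n ≤ r + m := by
  classical
  obtain ⟨D, hD⟩ := critK K (m := m) G hG A B d hA hB hdis Γ hΓ
  refine ⟨max D 2, fun p hp Q a s hs hQ hpQ hpa hpp r cls x hconst hrel y hy0 hyG hxy S hS => ?_⟩
  have hpf : ∀ l, Fact (p l).Prime := fun l => ⟨(hp l).1⟩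
  have hp2 : ∀ l, p l ≠ 2 := by
    intro l
    have := (le_max_right D 2).trans_lt (hp l).2
    omega
  have hnorm : ∀ l, ‖(p l : ℂ_[p l])‖ = (p l : ℝ)⁻¹ := by
    intro l
    have h := PadicComplex.norm_extends' (p := p l) (p l : ℚ_[p l])
    rw [Padic.norm_p] at h
    rw [← h]
    congr 1
    simp
  have hp01 : ∀ l, 0 < ‖(p l : ℂ_[p l])‖ ∧ ‖(p l : ℂ_[p l])‖ < 1 := by
    intro l
    have h1 : (1 : ℝ) < p l := by exact_mod_cast (hp l).1.one_lt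
    rw [hnorm l]
    exact ⟨inv_pos.2 (by linarith), inv_lt_one_of_one_lt₀ h1⟩
  let φ : ∀ l, QA →+* ℂ_[p l] := fun l =>
    (IsAlgClosed.lift (R := ℚ) (S := QA) (M := ℂ_[p l])).toRingHom
  refine hD p (fun l => ⟨(hp l).1, (le_max_left D 2).trans_lt (hp l).2⟩) (fun l => ℂ_[p l]) φ hp01
    (fun i => ((((a i : ℤ) : ℚ) / Q : ℚ) : QA)) s ?_ ?_ r cls x hconst
    hrel y hy0 hyG ?_ S hS
  · intro l i
    obtain ⟨h1, h2, h3⟩ := size_rat1 (φ l) (hp01 l).2 (hpQ l) hQ.ne' (hpa l i) (hs i)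
    show max 1 ‖φ l (s i)‖ < ‖φ l ((((a i : ℤ) : ℚ) / Q : ℚ) : QA)‖
    rw [h1, h2]
    exact h3
  · intro l l' hll i j hij M hM
    exact lev_disj (φ l) (φ l') (hp2 l) (hp01 l).2 (hp2 l') (hp01 l').2 (hpQ l) (hpQ l') hQ.ne'
      (hpa l i) (hpa l j) (hpa l' i) (hpa l' j) (hs i) (hs j) (hpp l l' hll i j hij) hM
  · intro i
    have := hxy i
    simp only [map_ratCast]
    push_cast
    exact this

end Pool.Agent.V8H78.MP
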