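import Pool.Agent.V8H78.MP.MainW
import Pool.Agent.V8H78.MP.Gen
import Pool.Agent.V8H78.MP.RatB
import Pool.Agent.V8H78.MP.FinW
import Pool.Agent.Y226.ZV.Hen

/-!
Zilber-Pink for affine images `t + s V` with large translations `t`, at one place (above any
prime): over any countable field, for irreducible subsets, and for one-parameter families.
-/

set_option autoImplicit false
set_option linter.unusedSectionVars false

open Function MvPolynomial UpperHalfPlane H294ZP Cardinal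

namespace Pool.Agent.V8H78.MP

open Pool.Agent.Y226 Pool.Agent.W282.ZP

theorem evF_map {K k : Type} [Field K] [Field k] [Algebra K ℂ] [Algebra k ℂ] [Algebra K k]
    [IsScalarTower K k ℂ] {σ : Type*} (w : ℂ) (P : MvPolynomial σ (Polynomial K)) (y : σ → ℂ) :
    evF w (MvPolynomial.map (Polynomial.mapRingHom (algebraMap K k)) P) y = evF w P y := by
  rw [evF, evF, eval₂_map]
  congr 1
  refine Polynomial.ringHom_ext (fun b => ?_) ?_
  · simp [← IsScalarTower.algebraMap_apply]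
  · simp

/-- From the algebraically closed field to any field. -/
theorem mainKW (K : Subfield ℂ) {κ : Type*}
    {N n m : ℕ} (G : κ → MvPolynomial (Fin (N + 1)) (Polynomial K))
    (hG : ∀ i, ∃ e, (G i).IsHomogeneous e)
    (A B : Fin n → MvPolynomial (Fin (N + 1)) (Polynomial K))
    (d : Fin n → ℕ) (hA : ∀ i, (A i).IsHomogeneous (d i)) (hB : ∀ i, (B i).IsHomogeneous (d i))
    (a' : QA)
    (hdis : ∀ I : Finset (Fin n), I.card = m + 1 → ∀ y : Fin (N + 1) → ℂ,
      (∀ i, evF (rA a') (G i) y = 0) → (∀ i ∈ I, evF (rA a') (B i) y = 0) → y = 0)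
    (Γ : Finset ℂ) (hΓ : ∀ γ ∈ Γ, γ ∈ K) :
    ∃ W : ℕ, 0 < W ∧ ∀ p : ℕ, p.Prime →
      ∀ (C : Type) [NormedField C] [IsUltrametricDist C] [CompleteSpace C] [CharZero C]
      [IsAlgClosed C] (φ : QA →+* C), 0 < ‖(p : C)‖ → ‖(p : C)‖ < 1 →
      (¬ p ∣ W ∨ ∀ γ ∈ Γ, IsIntegral ℤ γ) →
      ∀ w : QA, ‖φ (w - a')‖ < ‖(W : C)‖ → ∀ t s : Fin n → QA,
      (∀ i, max 1 ‖φ (s i / W)‖ < ‖φ (t i)‖) →
      ∀ (r : ℕ) (cls : Fin n → Option (Fin r)) (x : Fin n → ℂ),
      (∀ i, cls i = none → IsIntegral (Algebra.adjoin ℤ (Γ : Set ℂ)) (x i)) →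
      (∀ i j l, cls i = some l → cls j = some l →
        ∃ (τ w : ℍ) (a b c d : ℤ), 0 < a * d - b * c ∧ (w : ℂ) * (c * τ + d) = a * τ + b ∧
          x i = jj τ ∧ x j = jj w) →
      ∀ y : Fin (N + 1) → ℂ, y ≠ 0 → (∀ i, evF (rA w) (G i) y = 0) →
      (∀ i, evF (rA w) (B i) y * (x i - rA (t i)) = rA (s i) * evF (rA w) (A i) y) →
      ∀ S : Finset (Fin n), AlgebraicIndependent K (fun i : S => x i) →
        S.card + n ≤ r + m ∨ ∃ i j, i ≠ j ∧ (∃ l, cls i = some l ∧ cls j = some l) ∧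
          ∃ M ∈ Lev (φ (t i)) (φ (s i / W)) (φ (t j)) (φ (s j / W)),
            PsiE ιZ (mP M) (mD M) (x i) (x j) = 0 := by
  classical
  let k := algebraicClosure K ℂ
  have hcl : IsAlgClosure K k := inferInstance
  have hac : IsAlgClosed k := hcl.isAlgClosed
  have hmap : ∀ (w : ℂ) (y : Fin (N + 1) → ℂ) (P : MvPolynomial (Fin (N + 1)) (Polynomial K)),
      evF w (MvPolynomial.map (Polynomial.mapRingHom (algebraMap K k)) P) y = evF w P y :=
    fun w y P => evF_map w P y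
  let Γ' : Γ → k := fun γ => algebraMap K k ⟨γ, hΓ γ γ.2⟩
  have hΓ' : (Set.range fun g => algebraMap k ℂ (Γ' g)) = (Γ : Set ℂ) := by
    ext z
    constructor
    · rintro ⟨g, rfl⟩
      exact g.2
    · intro hz
      exact ⟨⟨z, hz⟩, rfl⟩
  have hak : IsAlgebraic K (rA a') := by
    have h1 : IsAlgebraic ℚ (a' : ℂ) := mem_QA.1 a'.2
    exact h1.tower_top (K := ℚ) K
  obtain ⟨W, hW0, hD⟩ := mainW (k := k) (m := m)
    (fun i => MvPolynomial.map (Polynomial.mapRingHom (algebraMap K k)) (G i))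
    (fun i => by
      obtain ⟨e, he⟩ := hG i
      exact ⟨e, he.map _⟩)
    (fun i => MvPolynomial.map (Polynomial.mapRingHom (algebraMap K k)) (A i))
    (fun i => MvPolynomial.map (Polynomial.mapRingHom (algebraMap K k)) (B i)) d
    (fun i => (hA i).map _) (fun i => (hB i).map _) ⟨rA a', mem_algebraicClosure_iff.2 hak⟩ a' rfl
    (fun I hI y h1 h2 => hdis I hI y (fun i => by rw [← hmap]; exact h1 i)
      (fun i hi => by rw [← hmap]; exact h2 i hi)) Γ'
  refine ⟨W, hW0, fun p hp C _ _ _ _ _ φ hp0 hp1 hΓp w hw t s hts r cls x hconst hrel y hy0 hyG hxy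
    S hS => ?_⟩
  refine hD p hp C φ hp0 hp1 ?_ w hw t s hts r cls x ?_ hrel y hy0
    (fun i => (hmap _ y _).trans (hyG i)) ?_ S ?_
  · rcases hΓp with h | h
    · exact Or.inl h
    · exact Or.inr fun g => h g g.2
  · intro i hi
    rw [hΓ']
    exact hconst i hi
  · intro i
    rw [hmap, hmap]
    exact hxy i
  · exact hS.extendScalars k

/-- From points to irreducible subsets. -/
theorem upgrade (K : Subfield ℂ) [Countable K] {n m r : ℕ} (Y : Set (Fin n → ℂ))
    (R : Fin n → Fin n → ℕ → Prop) (hR0 : ∀ i j M, R i j M → 0 < M)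
    (hval : ∀ x ∈ Y, ∀ i j M, R i j M → ∃ τ : ℍ, x i = jj τ)
    (hpt : ∀ x ∈ Y, ∀ S : Finset (Fin n), AlgebraicIndependent K (fun i : S => x i) →
      S.card + n ≤ r + m ∨ ∃ i j M, R i j M ∧ PsiE ιZ (mP M) (mD M) (x i) (x j) = 0) :
    (∀ W ⊆ Y, zcl W ⊆ W → (idealOf W).IsPrime →
      zdim W + (n : Cardinal) ≤ (r : Cardinal) + (m : Cardinal) ∨
      ∃ i j M, R i j M ∧ ∀ x ∈ W, Isog M (x i) (x j)) ∧
    ∀ x ∈ Y, ∀ S : Finset (Fin n), AlgebraicIndependent K (fun i : S => x i) →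
      S.card + n ≤ r + m ∨ ∃ i j M, R i j M ∧ Isog M (x i) (x j) := by
  classical
  refine ⟨?_, ?_⟩
  · intro W hW hcl hprime
    by_cases hex : ∃ i j M, R i j M ∧ relP i j M ∈ idealOf W
    · right
      obtain ⟨i, j, M, hM, hrel⟩ := hex
      refine ⟨i, j, M, hM, fun x hx => ?_⟩
      obtain ⟨τ, hτ⟩ := hval x (hW hx) i j M hM
      refine isog_of_psi (hR0 i j M hM) hτ ?_
      rw [← eval_relP]
      exact mem_idealOf.1 hrel x hx
    · left
      push Not at hex
      obtain ⟨x, hxW, hxne, T, hT, hdim⟩ := exists_generic K W hprime hcl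
        (β := {q : Fin n × Fin n × ℕ // R q.1 q.2.1 q.2.2}) (fun q => relP q.1.1 q.1.2.1 q.1.2.2)
        (fun q => hex _ _ _ q.2)
      rcases hpt x (hW hxW) T hT with h2 | ⟨i, j, M, hM, h0⟩
      · calc zdim W + (n : Cardinal) ≤ (T.card : Cardinal) + (n : Cardinal) := by gcongr
          _ = ((T.card + n : ℕ) : Cardinal) := by push_cast; rfl
          _ ≤ ((r + m : ℕ) : Cardinal) := by exact_mod_cast h2
          _ = (r : Cardinal) + (m : Cardinal) := by push_cast; rfl
      · exfalso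
        apply hxne ⟨(i, j, M), hM⟩
        show eval x (relP i j M) = 0
        rw [eval_relP]
        exact h0
  · intro x hx S hS
    rcases hpt x hx S hS with h | ⟨i, j, M, hM, h0⟩
    · exact Or.inl h
    · obtain ⟨τ, hτ⟩ := hval x hx i j M hM
      exact Or.inr ⟨i, j, M, hM, isog_of_psi (hR0 i j M hM) hτ h0⟩

section place

theorem coeff_prod_le {C : Type} [NormedField C] [IsUltrametricDist C] (s : Multiset C)
    (hs : ∀ a ∈ s, ‖a‖ ≤ 1) (j : ℕ) :
    ‖((s.map fun a => Polynomial.X - Polynomial.C a).prod).coeff j‖ ≤ 1 := by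
  classical
  induction s using Multiset.induction_on generalizing j with
  | empty =>
    rw [Multiset.map_zero, Multiset.prod_zero, Polynomial.coeff_one]
    split_ifs
    · exact norm_one.le
    · rw [norm_zero]; exact zero_le_one
  | cons a s ih =>
    have ih' := ih fun b hb => hs b (Multiset.mem_cons_of_mem hb)
    have ha := hs a (Multiset.mem_cons_self a s)
    rw [Multiset.map_cons, Multiset.prod_cons, sub_mul, Polynomial.coeff_sub,
      Polynomial.coeff_C_mul]
    refine nsub_le ?_ (nmul_le' ha (ih' j))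
    cases j with
    | zero => rw [Polynomial.mul_coeff_zero, Polynomial.coeff_X_zero, zero_mul, norm_zero]; exact zero_le_one
    | succ j => rw [Polynomial.coeff_X_mul]; exact ih' j

/-- an algebraic number which is not integral is large at some place -/
theorem exists_place {β : QA} (h : ¬ IsIntegral ℤ (β : ℂ)) :
    ∃ (p : ℕ) (_ : Fact p.Prime) (φ : QA →+* ℂ_[p]), 1 < ‖φ β‖ := by
  classical
  have hβ : IsIntegral ℚ β := Algebra.IsIntegral.isIntegral β
  set P := minpoly ℚ β with hP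
  have hPm : P.Monic := minpoly.monic hβ
  obtain ⟨j, hj⟩ : ∃ j, ¬ ∃ z : ℤ, (z : ℚ) = P.coeff j := by
    by_contra hcon
    push Not at hcon
    apply h
    have hlift : P ∈ Polynomial.lifts (Int.castRingHom ℚ) := by
      rw [Polynomial.lifts_iff_coeff_lifts]
      intro j
      obtain ⟨z, hz⟩ := hcon j
      exact ⟨z, hz⟩
    obtain ⟨Q, hQ, -, hQm⟩ := Polynomial.lifts_and_natDegree_eq_and_monic hlift hPm
    refine ⟨Q, hQm, ?_⟩
    have h1 : Polynomial.aeval β P = 0 := minpoly.aeval ℚ β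
    rw [← hQ, Polynomial.aeval_def, Polynomial.eval₂_map] at h1
    have h2 := congrArg rA h1
    rw [Polynomial.hom_eval₂, map_zero, int_hom (rA.comp _) (algebraMap ℤ ℂ)] at h2
    exact h2
  set c := P.coeff j with hc
  have hden : c.den ≠ 1 := by
    intro h1
    exact hj ⟨c.num, Rat.den_eq_one_iff c |>.1 h1⟩
  obtain ⟨p, hp, hpd⟩ := Nat.exists_prime_and_dvd hden
  have hfact : Fact p.Prime := ⟨hp⟩
  have hnorm : ‖(p : ℂ_[p])‖ = (p : ℝ)⁻¹ := by
    have h := PadicComplex.norm_extends' (p := p) (p : ℚ_[p])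
    rw [Padic.norm_p] at h
    rw [← h]
    congr 1
    simp
  have hp1' : (1 : ℝ) < p := by exact_mod_cast hp.one_lt
  have hp1 : ‖(p : ℂ_[p])‖ < 1 := by
    rw [hnorm]
    exact inv_lt_one_of_one_lt₀ hp1'
  -- the coefficient is large
  have hcn : 1 < ‖(c : ℂ_[p])‖ := by
    have hnum : ¬ ((p : ℤ) ∣ c.num) := by
      intro h1
      have h2 := Nat.dvd_gcd (Int.natCast_dvd.1 h1) hpd
      rw [c.reduced] at h2
      exact hp.one_lt.ne' (Nat.dvd_one.1 h2)
    have h1 := int_unit (C := ℂ_[p]) (p := p) hp1 hnum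
    have h2 : ‖((c.den : ℕ) : ℂ_[p])‖ < 1 := (norm_of_dvd1 hpd).trans_lt hp1
    have h3 : (c : ℂ_[p]) = (c.num : ℂ_[p]) / (c.den : ℂ_[p]) := by
      exact Rat.cast_def c
    have h4 : (0 : ℝ) < ‖((c.den : ℕ) : ℂ_[p])‖ :=
      norm_pos_iff.2 (by exact_mod_cast c.den_nz)
    rw [h3, norm_div, h1, one_lt_div h4]
    exact h2
  -- a large root
  obtain ⟨x, hx, hx1⟩ : ∃ x ∈ (P.map (algebraMap ℚ ℂ_[p])).roots, 1 < ‖x‖ := by
    by_contra hcon
    push Not at hcon
    have hs := (IsAlgClosed.splits (P.map (algebraMap ℚ ℂ_[p]))).eq_prod_roots_of_monic (hPm.map _)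
    have h1 := coeff_prod_le _ hcon j
    rw [← hs, Polynomial.coeff_map, eq_ratCast] at h1
    exact absurd hcn (not_lt.2 h1)
  obtain ⟨φ, hφ⟩ := Pool.Agent.Y226.ZV.exists_emb (C := ℂ_[p]) β x (by
    have h1 := (Polynomial.mem_roots'.1 hx).2
    rwa [Polynomial.IsRoot.def, Polynomial.eval_map, ← Polynomial.aeval_def] at h1)
  exact ⟨p, hfact, φ, by rw [hφ]; exact hx1⟩

/-- integral multiples of finitely many algebraic numbers -/
theorem exists_mult {ι : Type*} [Finite ι] (t : ι → QA) :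
    ∃ W : ℕ, 0 < W ∧ ∀ i, IsIntegral ℤ ((W : QA) * t i) := by
  classical
  have := Fintype.ofFinite ι
  have h1 : ∀ i, ∃ b : ℕ, 0 < b ∧ IsIntegral ℤ ((b : QA) * t i) := by
    intro i
    have halg : IsAlgebraic ℤ (t i) :=
      (IsFractionRing.isAlgebraic_iff ℤ ℚ QA).2 (Algebra.IsAlgebraic.isAlgebraic (t i))
    obtain ⟨b, hb, hint⟩ := halg.exists_integral_multiple
    refine ⟨b.natAbs, Int.natAbs_pos.2 hb, ?_⟩
    rcases Int.natAbs_eq b with h | h
    · rw [h] at hint
      simpa [zsmul_eq_mul] using hint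
    · rw [h] at hint
      have := hint.neg
      simpa [zsmul_eq_mul] using this
  choose b hb hint using h1
  refine ⟨∏ i, b i, Finset.prod_pos fun i _ => hb i, fun i => ?_⟩
  obtain ⟨c, hc⟩ : b i ∣ ∏ i, b i := Finset.dvd_prod_of_mem _ (Finset.mem_univ i)
  rw [hc]
  push_cast
  rw [mul_comm (b i : QA), mul_assoc]
  have h2 : IsIntegral ℤ ((c : ℕ) : QA) := by
    have := isIntegral_algebraMap (R := ℤ) (A := QA) (x := (c : ℤ))
    rwa [eq_intCast, Int.cast_natCast] at this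
  exact h2.mul (hint i)

end place

end Pool.Agent.V8H78.MP
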