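import Pool.Agent.V8H78.MP.FamW

/-!
The translation is large near a pole of the parameter.
-/

set_option autoImplicit false
set_option linter.unusedSectionVars false

open Function UpperHalfPlane H294ZP

namespace Pool.Agent.V8H78.MP

open Pool.Agent.Y226

section

variable {C : Type} [NormedField C] [IsUltrametricDist C]

theorem nnat' (n : ℕ) : ‖(n : C)‖ ≤ 1 := by
  have := nint (C := C) (n : ℤ)
  rwa [Int.cast_natCast] at this

theorem poly_near (φ : QA →+* C) (P : Polynomial QA) (α : QA) {W : ℕ}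
    (hW : ∀ j, IsIntegral ℤ ((W : QA) * (Polynomial.taylor α P).coeff j)) {w : QA}
    (hw : ‖φ (w - α)‖ ≤ 1) :
    ‖(W : C)‖ * ‖φ (P.eval w - P.eval α)‖ ≤ ‖φ (w - α)‖ := by
  have h1 : P.eval w - P.eval α = (Polynomial.taylor α P).divX.eval (w - α) * (w - α) := by
    have e1 := congrArg (Polynomial.eval (w - α)) (Polynomial.divX_mul_X_add (Polynomial.taylor α P))
    rw [Polynomial.eval_add, Polynomial.eval_mul, Polynomial.eval_X, Polynomial.eval_C,
      Polynomial.taylor_coeff_zero, Polynomial.taylor_eval_sub] at e1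
    rw [← e1]
    ring
  have h2 : ‖φ ((W : QA) * (Polynomial.taylor α P).divX.eval (w - α))‖ ≤ 1 := by
    rw [Polynomial.eval_eq_sum_range, Finset.mul_sum, map_sum]
    refine nsum_le _ _ zero_le_one fun j _ => ?_
    rw [Polynomial.coeff_divX, ← mul_assoc, map_mul, map_pow]
    have h3 := norm_le_one_of_isIntegral φ (hW (j + 1))
    refine nmul_le' h3 ?_
    rw [norm_pow]
    exact pow_le_one₀ (norm_nonneg _) hw
  rw [h1, map_mul, norm_mul, ← mul_assoc]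
  rw [map_mul, norm_mul, map_natCast] at h2
  exact mul_le_of_le_one_left (norm_nonneg _) h2

end

/-- near `α` the translation `a / q` is large compared to `1` and `s c / (q W)` -/
theorem near_fam {n : ℕ} (a q c : Fin n → Polynomial QA) (α : QA)
    (hα : ∀ i, (a i).eval α ≠ 0 ∧ (q i).eval α = 0 ∧ (c i).eval α = 0) {W : ℕ} (hW0 : 0 < W) :
    ∃ W' : ℕ, 0 < W' ∧ ∀ (C : Type) [NormedField C] [IsUltrametricDist C] [CharZero C]
      (φ : QA →+* C) (w : QA), ‖φ (w - α)‖ < ‖(W' : C)‖ → ‖φ (w - α)‖ < ‖(W : C)‖ ∧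
      ∀ i, (q i).eval w ≠ 0 → ∀ s : QA, IsIntegral ℤ s →
        max 1 ‖φ ((s * (c i).eval w / (q i).eval w) / W)‖ < ‖φ ((a i).eval w / (q i).eval w)‖ := by
  classical
  let t : (((i : Fin n) × Fin ((Polynomial.taylor α (a i)).natDegree + 1)) ⊕
      ((i : Fin n) × Fin ((Polynomial.taylor α (q i)).natDegree + 1))) ⊕
      (((i : Fin n) × Fin ((Polynomial.taylor α (c i)).natDegree + 1)) ⊕ Fin n) → QA :=
    Sum.elim (Sum.elim (fun i => (Polynomial.taylor α (a i.1)).coeff i.2)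
      (fun i => (Polynomial.taylor α (q i.1)).coeff i.2))
    (Sum.elim (fun i => (Polynomial.taylor α (c i.1)).coeff i.2) (fun i => ((a i).eval α)⁻¹))
  obtain ⟨U, hU0, hU⟩ := exists_mult t
  have hcoef : ∀ (P : Polynomial QA), (∀ j : Fin ((Polynomial.taylor α P).natDegree + 1),
      IsIntegral ℤ ((U : QA) * (Polynomial.taylor α P).coeff j)) →
      ∀ j, IsIntegral ℤ ((U : QA) * (Polynomial.taylor α P).coeff j) := by
    intro P hP j
    rcases Nat.lt_or_ge j ((Polynomial.taylor α P).natDegree + 1) with hj | hj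
    · exact hP ⟨j, hj⟩
    · rw [Polynomial.coeff_eq_zero_of_natDegree_lt (by omega), mul_zero]
      exact isIntegral_zero
  have hUa : ∀ i j, IsIntegral ℤ ((U : QA) * (Polynomial.taylor α (a i)).coeff j) := fun i =>
    hcoef _ fun j => hU (Sum.inl (Sum.inl ⟨i, j⟩))
  have hUq : ∀ i j, IsIntegral ℤ ((U : QA) * (Polynomial.taylor α (q i)).coeff j) := fun i =>
    hcoef _ fun j => hU (Sum.inl (Sum.inr ⟨i, j⟩))
  have hUc : ∀ i j, IsIntegral ℤ ((U : QA) * (Polynomial.taylor α (c i)).coeff j) := fun i =>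
    hcoef _ fun j => hU (Sum.inr (Sum.inl ⟨i, j⟩))
  have hUi : ∀ i, IsIntegral ℤ ((U : QA) * ((a i).eval α)⁻¹) := fun i => hU (Sum.inr (Sum.inr i))
  refine ⟨W * U ^ 2, Nat.mul_pos hW0 (pow_pos hU0 2), fun C _ _ _ φ w hw => ?_⟩
  have hWn : 0 < ‖(W : C)‖ := norm_pos_iff.2 (by exact_mod_cast hW0.ne')
  have hUn : 0 < ‖(U : C)‖ := norm_pos_iff.2 (by exact_mod_cast hU0.ne')
  have hW1 : ‖(W : C)‖ ≤ 1 := nnat' W
  have hU1 : ‖(U : C)‖ ≤ 1 := nnat' U
  push_cast at hw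
  rw [norm_mul, norm_pow] at hw
  have hwW : ‖φ (w - α)‖ < ‖(W : C)‖ :=
    hw.trans_le (mul_le_of_le_one_right hWn.le (pow_le_one₀ hUn.le hU1))
  have hw1 : ‖φ (w - α)‖ ≤ 1 := hwW.le.trans hW1
  refine ⟨hwW, fun i hq s hs => ?_⟩
  obtain ⟨ha0, hq0, hc0⟩ := hα i
  -- the sizes
  have key : ∀ P : Polynomial QA, (∀ j, IsIntegral ℤ ((U : QA) * (Polynomial.taylor α P).coeff j)) →
      ‖φ (P.eval w - P.eval α)‖ < ‖(W : C)‖ * ‖(U : C)‖ := by
    intro P hP
    have h1 := (poly_near φ P α hP hw1).trans_lt hw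
    have h2 : ‖(U : C)‖ * ‖φ (P.eval w - P.eval α)‖ < ‖(U : C)‖ * (‖(W : C)‖ * ‖(U : C)‖) := by
      calc _ < ‖(W : C)‖ * ‖(U : C)‖ ^ 2 := h1
        _ = _ := by ring
    exact lt_of_mul_lt_mul_left h2 hUn.le
  have hWU : ‖(W : C)‖ * ‖(U : C)‖ ≤ ‖(U : C)‖ := mul_le_of_le_one_left hUn.le hW1
  have haα : ‖(U : C)‖ ≤ ‖φ ((a i).eval α)‖ := by
    have h1 := norm_le_one_of_isIntegral φ (hUi i)
    rw [map_mul, map_inv₀, map_natCast, norm_mul, norm_inv, ← div_eq_mul_inv,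
      div_le_one (norm_pos_iff.2 ((map_ne_zero φ).2 ha0))] at h1
    exact h1
  have haw : ‖(U : C)‖ ≤ ‖φ ((a i).eval w)‖ := by
    have h1 := (key (a i) (hUa i)).trans_le (hWU.trans haα)
    rw [map_sub] at h1
    rw [neq_of_sub_lt h1]
    exact haα
  have hqw : ‖φ ((q i).eval w)‖ < ‖(W : C)‖ * ‖(U : C)‖ := by
    have h1 := key (q i) (hUq i)
    rwa [hq0, sub_zero] at h1
  have hcw : ‖φ ((c i).eval w)‖ < ‖(W : C)‖ * ‖(U : C)‖ := by
    have h1 := key (c i) (hUc i)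
    rwa [hc0, sub_zero] at h1
  have hqn : 0 < ‖φ ((q i).eval w)‖ := norm_pos_iff.2 ((map_ne_zero φ).2 hq)
  have hs1 := norm_le_one_of_isIntegral φ hs
  have hR : ‖φ ((a i).eval w / (q i).eval w)‖ = ‖φ ((a i).eval w)‖ / ‖φ ((q i).eval w)‖ := by
    rw [map_div₀, norm_div]
  have hL : ‖φ ((s * (c i).eval w / (q i).eval w) / W)‖ =
      ‖φ s‖ * ‖φ ((c i).eval w)‖ / (‖φ ((q i).eval w)‖ * ‖(W : C)‖) := by
    rw [map_div₀, map_div₀, map_mul, map_natCast, norm_div, norm_div, norm_mul, div_div]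
  rw [hR, hL]
  refine max_lt ?_ ?_
  · rw [one_lt_div hqn]
    exact hqw.trans_le (hWU.trans haw)
  · rw [div_lt_div_iff₀ (mul_pos hqn hWn) hqn]
    calc ‖φ s‖ * ‖φ ((c i).eval w)‖ * ‖φ ((q i).eval w)‖
        ≤ 1 * ‖φ ((c i).eval w)‖ * ‖φ ((q i).eval w)‖ := by gcongr
      _ < 1 * (‖(W : C)‖ * ‖(U : C)‖) * ‖φ ((q i).eval w)‖ := by gcongr
      _ ≤ 1 * (‖(W : C)‖ * ‖φ ((a i).eval w)‖) * ‖φ ((q i).eval w)‖ := by gcongr
      _ = ‖φ ((a i).eval w)‖ * (‖φ ((q i).eval w)‖ * ‖(W : C)‖) := by ring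

end Pool.Agent.V8H78.MP
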