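import Pool.Agent.V8H78.MP.Val
import Pool.Agent.W466.CG

/-!
Good valuation rings of `ℂ` above almost all primes for a projective algebraic set and rational
functions with polar divisors in general position.
-/

set_option autoImplicit false
set_option linter.unusedSectionVars false

open Function MvPolynomial UpperHalfPlane H294ZP

namespace Pool.Agent.V8H78.MP

open Pool.Agent.Y226 Pool.Agent.W466.ZC

section good

variable {k : Type} [Field k] [Algebra k ℂ] {σ : Type*} [Fintype σ]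

/-- Good valuation rings: every point has coordinates in the ring such that at most `m` of the
`B i` are non-units. -/
theorem goodC [IsAlgClosed k] [CharZero k] {κ : Type*} {n m : ℕ} (G : κ → MvPolynomial σ k)
    (hhom : ∀ i, ∃ e, (G i).IsHomogeneous e) (A B : Fin n → MvPolynomial σ k)
    (hdis : ∀ I : Finset (Fin n), I.card = m + 1 → ∀ y : σ → ℂ, (∀ i, aeval y (G i) = 0) →
      (∀ i ∈ I, aeval y (B i) = 0) → y = 0) {ι : Type*} [Finite ι]
    (Γ : ι → k) :
    ∃ D : ℕ, ∀ p : ℕ, p.Prime → D < p →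
      ∀ (C : Type) [NormedField C] [IsUltrametricDist C] (φ : QA →+* C), ‖(p : C)‖ < 1 →
      ∀ (τ : Type) (x : τ → ℂ), AlgebraicIndependent k x →
      ∃ V : ValuationSubring ℂ, (∀ r : QA, ‖φ r‖ ≤ 1 → V.valuation (rA r) ≤ 1) ∧
        (∀ r : QA, ‖φ r‖ < 1 → V.valuation (rA r) < 1) ∧ (∀ i, algebraMap k ℂ (Γ i) ∈ V) ∧
      (∀ j, x j ∈ V) ∧
      ∀ y : σ → ℂ, y ≠ 0 → (∀ i, aeval y (G i) = 0) →
        ∃ c : ℂ, c ≠ 0 ∧ (∀ i, aeval (c • y) (A i) ∈ V ∧ aeval (c • y) (B i) ∈ V) ∧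
          ∀ I : Finset (Fin n), I.card = m + 1 → ∃ i ∈ I,
            V.valuation (aeval (c • y) (B i)) = 1 := by
  classical
  have hcert := fun I : {I : Finset (Fin n) // I.card = m + 1} =>
    cert' G (fun b : I.1 => B b) (fun y hy hb => hdis I.1 I.2 y hy fun i hi => hb ⟨i, hi⟩)
  choose M U hU using hcert
  let ι1 := (I : {I : Finset (Fin n) // I.card = m + 1}) × (j : σ) × (b : I.1) × (U I j b).support
  let ι2 := (i : Fin n) × (A i).support
  let ι3 := (i : Fin n) × (B i).support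
  let t : (ι1 ⊕ (ι2 ⊕ ι3)) ⊕ ι → k := Sum.elim
    (Sum.elim (fun i => (U i.1 i.2.1 i.2.2.1).coeff i.2.2.2.1)
    (Sum.elim (fun i => (A i.1).coeff i.2.1) (fun i => (B i.1).coeff i.2.1))) Γ
  obtain ⟨D, hD⟩ := exists_valC t
  refine ⟨D, fun p hp hpD C _ _ φ hp1 τ x hx => ?_⟩
  obtain ⟨V, hVa, hVb, hVt, hVx⟩ := hD p hp hpD C φ hp1 τ x hx
  refine ⟨V, hVa, hVb, fun i => hVt (Sum.inr i), hVx, fun y hy0 hyG => ?_⟩
  have hUV : ∀ I j b, ∀ u ∈ (U I j b).support, algebraMap k ℂ ((U I j b).coeff u) ∈ V :=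
    fun I j b u hu => hVt (Sum.inl (Sum.inl ⟨I, j, b, u, hu⟩))
  have hAV : ∀ i, ∀ u ∈ (A i).support, algebraMap k ℂ ((A i).coeff u) ∈ V := fun i u hu =>
    hVt (Sum.inl (Sum.inr (Sum.inl ⟨i, u, hu⟩)))
  have hBV : ∀ i, ∀ u ∈ (B i).support, algebraMap k ℂ ((B i).coeff u) ∈ V := fun i u hu =>
    hVt (Sum.inl (Sum.inr (Sum.inr ⟨i, u, hu⟩)))
  set v := V.valuation with hv
  have hne : (Finset.univ : Finset σ).Nonempty := by
    by_contra h
    rw [Finset.not_nonempty_iff_eq_empty, Finset.univ_eq_empty_iff] at h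
    exact hy0 (funext fun j => (h.false j).elim)
  obtain ⟨j0, -, hj0⟩ := Finset.exists_max_image Finset.univ (fun j => v (y j)) hne
  have hyj0 : y j0 ≠ 0 := by
    intro h
    apply hy0
    funext j
    have h1 := hj0 j (Finset.mem_univ j)
    simp only [h, map_zero, le_zero_iff] at h1
    exact (map_eq_zero v).1 h1
  set z := (y j0)⁻¹ • y with hz
  have hzV : ∀ j, z j ∈ V := by
    intro j
    rw [← ValuationSubring.valuation_le_one_iff, hz, Pi.smul_apply, smul_eq_mul, map_mul, map_inv₀]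
    have h1 := hj0 j (Finset.mem_univ j)
    have h2 : v (y j0) ≠ 0 := (map_ne_zero v).2 hyj0
    calc (v (y j0))⁻¹ * v (y j) ≤ (v (y j0))⁻¹ * v (y j0) := mul_le_mul_right h1 _
      _ = 1 := inv_mul_cancel₀ h2
  have hzG : ∀ i, aeval z (G i) = 0 := by
    intro i
    obtain ⟨e, he⟩ := hhom i
    rw [hz, aeval_smul' he, hyG i, mul_zero]
  refine ⟨(y j0)⁻¹, inv_ne_zero hyj0, fun i => ⟨aeval_mem V _ (hAV i) hzV,
    aeval_mem V _ (hBV i) hzV⟩, ?_⟩
  intro I hI
  by_contra hcon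
  push Not at hcon
  have hlt : ∀ i ∈ I, v (aeval z (B i)) < 1 := by
    intro i hi
    refine lt_of_le_of_ne ?_ (hcon i hi)
    rw [ValuationSubring.valuation_le_one_iff]
    exact aeval_mem V _ (hBV i) hzV
  have h1 := hU ⟨I, hI⟩ z hzG j0
  have h2 : z j0 = 1 := by
    rw [hz, Pi.smul_apply, smul_eq_mul, inv_mul_cancel₀ hyj0]
  rw [h2, one_pow] at h1
  have h3 : v (∑ b : I, aeval z (U ⟨I, hI⟩ j0 b) * aeval z (B b)) < 1 := by
    refine Valuation.map_sum_lt _ one_ne_zero fun b _ => ?_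
    rw [map_mul]
    exact (mul_le_of_le_one_left' ((ValuationSubring.valuation_le_one_iff _ _).2
      (aeval_mem V _ (hUV ⟨I, hI⟩ j0 b) hzV))).trans_lt (hlt b b.2)
  rw [← h1, map_one] at h3
  exact lt_irrefl _ h3

end good

end Pool.Agent.V8H78.MP
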