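import Pool.Agent.V8H78.MP.ValW
import Pool.Agent.V8H78.MP.Good

/-!
Good valuation rings of `ℂ` above all primes, for families of projective algebraic sets and
rational functions, near a parameter for which the polar divisors are in general position.
-/

set_option autoImplicit false
set_option linter.unusedSectionVars false

open Function MvPolynomial

namespace Pool.Agent.V8H78.MP

open Pool.Agent.Y226 Pool.Agent.W466.ZC

section cert

variable {k : Type} [Field k] [Algebra k ℂ] {σ : Type*} [Fintype σ]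

/-- The certificate, as an identity. -/
theorem certW [IsAlgClosed k] {β κ : Type*} [Fintype β] (G : κ → MvPolynomial σ k)
    (F : β → MvPolynomial σ k)
    (hs : ∀ y : σ → ℂ, (∀ i, aeval y (G i) = 0) → (∀ b, aeval y (F b) = 0) → y = 0) (j : σ) :
    ∃ (M : ℕ) (U : β → MvPolynomial σ k) (E : κ →₀ MvPolynomial σ k),
      X j ^ M = ∑ b, U b * F b + E.sum fun i e => e * G i := by
  classical
  let J1 : Ideal (MvPolynomial σ k) := Ideal.span (Set.range F)
  let J2 : Ideal (MvPolynomial σ k) := Ideal.span (Set.range G)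
  have hrad : X j ∈ (J1 ⊔ J2).radical := by
    rw [← vanishingIdeal_zeroLocus_eq_radical (K := k), mem_vanishingIdeal_iff]
    intro y hy
    rw [mem_zeroLocus_iff] at hy
    have hmap : ∀ P : MvPolynomial σ k, aeval (fun j => algebraMap k ℂ (y j)) P =
        algebraMap k ℂ (aeval y P) := by
      intro P
      exact MvPolynomial.aeval_algebraMap_apply ℂ y P
    have hy0 : (fun j => algebraMap k ℂ (y j)) = 0 := by
      apply hs
      · intro i
        rw [hmap, hy _ (Ideal.mem_sup_right (Ideal.subset_span ⟨i, rfl⟩)), map_zero]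
      · intro b
        rw [hmap, hy _ (Ideal.mem_sup_left (Ideal.subset_span ⟨b, rfl⟩)), map_zero]
    rw [aeval_X]
    have h1 := congrFun hy0 j
    rw [Pi.zero_apply] at h1
    exact (map_eq_zero _).1 h1
  obtain ⟨M, hM⟩ := hrad
  obtain ⟨u, hu, w, hw, huw⟩ := Submodule.mem_sup.1 hM
  obtain ⟨A, hA⟩ := (Ideal.mem_span_range_iff_exists_fun).1 hu
  obtain ⟨E, hE⟩ := Finsupp.mem_ideal_span_range_iff_exists_finsupp.1 hw
  exact ⟨M, A, E, by rw [hA, hE, huw]⟩

end cert

section family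

variable {k : Type} [Field k] [Algebra k ℂ] {σ : Type*}

/-- the value of a form with coefficients in `k[T]`, for the parameter `w` -/
noncomputable def evF (w : ℂ) (P : MvPolynomial σ (Polynomial k)) (y : σ → ℂ) : ℂ :=
  MvPolynomial.eval₂ ((Polynomial.aeval w : Polynomial k →ₐ[k] ℂ) : Polynomial k →+* ℂ) y P

theorem evF_smul (w : ℂ) {P : MvPolynomial σ (Polynomial k)} {e : ℕ} (hP : P.IsHomogeneous e)
    (c : ℂ) (y : σ → ℂ) : evF w P (c • y) = c ^ e * evF w P y := by
  have h1 := (hP.map ((Polynomial.aeval w : Polynomial k →ₐ[k] ℂ) : Polynomial k →+* ℂ))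
  have h2 : ∀ z, evF w P z = eval z (MvPolynomial.map
      ((Polynomial.aeval w : Polynomial k →ₐ[k] ℂ) : Polynomial k →+* ℂ) P) := by
    intro z
    rw [eval_map]
    rfl
  rw [h2, h2, eval_smul h1]

theorem evF_alg (a : k) (P : MvPolynomial σ (Polynomial k)) (y : σ → ℂ) :
    aeval y (MvPolynomial.map (Polynomial.evalRingHom a) P) = evF (algebraMap k ℂ a) P y := by
  rw [aeval_def, eval₂_map, evF]
  congr 1
  refine Polynomial.ringHom_ext (fun b => ?_) ?_
  · simp
  · simp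

theorem memW_poly (V : ValuationSubring ℂ) (W : ℂ) (Q : Polynomial k)
    (hQ : ∀ j, W * algebraMap k ℂ (Q.coeff j) ∈ V) {δ : ℂ} (hδ : δ ∈ V) :
    W * Polynomial.aeval δ Q ∈ V := by
  rw [Polynomial.aeval_eq_sum_range, Finset.mul_sum]
  refine sum_mem fun j _ => ?_
  rw [Algebra.smul_def, ← mul_assoc]
  exact mul_mem (hQ j) (pow_mem hδ j)

theorem aeval_taylor' (a : k) (c : Polynomial k) (w : ℂ) :
    Polynomial.aeval (w - algebraMap k ℂ a) (Polynomial.taylor a c) = Polynomial.aeval w c := by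
  rw [Polynomial.taylor_apply, Polynomial.aeval_comp]
  congr 1
  simp

/-- the elements of `k` which control the values near `a` -/
def Ctl (a : k) (P : MvPolynomial σ (Polynomial k)) (V : ValuationSubring ℂ) (W : ℂ) : Prop :=
  ∀ m j, W * algebraMap k ℂ ((Polynomial.taylor a (P.coeff m)).coeff j) ∈ V

theorem ctl_mem {a : k} {P : MvPolynomial σ (Polynomial k)} {V : ValuationSubring ℂ} {W : ℂ}
    [Fintype σ] (h : Ctl a P V W) {w : ℂ} (hw : w - algebraMap k ℂ a ∈ V) {z : σ → ℂ}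
    (hz : ∀ j, z j ∈ V) : W * evF w P z ∈ V := by
  rw [evF, eval₂_eq', Finset.mul_sum]
  refine sum_mem fun u _ => ?_
  rw [← mul_assoc]
  refine mul_mem ?_ (prod_mem fun j _ => pow_mem (hz j) _)
  show W * Polynomial.aeval w (P.coeff u) ∈ V
  rw [← aeval_taylor' a]
  exact memW_poly V W _ (h u) hw

theorem ctl_diff {a : k} {P : MvPolynomial σ (Polynomial k)} {V : ValuationSubring ℂ} {W : ℂ}
    [Fintype σ] (h : Ctl a P V W) {w : ℂ} (hw : w - algebraMap k ℂ a ∈ V) {z : σ → ℂ}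
    (hz : ∀ j, z j ∈ V) : ∃ e ∈ V, W * (evF w P z - evF (algebraMap k ℂ a) P z) =
      (w - algebraMap k ℂ a) * e := by
  have h1 : ∀ u, ∃ e ∈ V, W * (Polynomial.aeval w (P.coeff u) -
      Polynomial.aeval (algebraMap k ℂ a) (P.coeff u)) = (w - algebraMap k ℂ a) * e := by
    intro u
    refine ⟨W * Polynomial.aeval (w - algebraMap k ℂ a)
      (Polynomial.taylor a (P.coeff u)).divX, memW_poly V W _ (fun j => ?_) hw, ?_⟩
    · rw [Polynomial.coeff_divX]
      exact h u (j + 1)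
    · rw [← aeval_taylor' a (P.coeff u) w, ← aeval_taylor' a (P.coeff u) (algebraMap k ℂ a),
        sub_self]
      have h2 := congrArg (Polynomial.aeval (w - algebraMap k ℂ a))
        (Polynomial.divX_mul_X_add (Polynomial.taylor a (P.coeff u)))
      have h3 := congrArg (Polynomial.aeval (0 : ℂ))
        (Polynomial.divX_mul_X_add (Polynomial.taylor a (P.coeff u)))
      rw [map_add, map_mul, Polynomial.aeval_X, Polynomial.aeval_C] at h2 h3
      rw [← h2, ← h3]
      ring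
  choose e he heq using h1
  refine ⟨∑ u ∈ P.support, e u * ∏ i, z i ^ u i, sum_mem fun u _ =>
    mul_mem (he u) (prod_mem fun j _ => pow_mem (hz j) _), ?_⟩
  rw [evF, evF, eval₂_eq', eval₂_eq', ← Finset.sum_sub_distrib, Finset.mul_sum, Finset.mul_sum]
  refine Finset.sum_congr rfl fun u _ => ?_
  rw [← sub_mul, ← mul_assoc, ← mul_assoc, ← heq u]
  rfl

variable [Fintype σ]

/-- Good valuation rings above all primes, near a parameter `a` for which the polar divisors are in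
general position. -/
theorem goodW [IsAlgClosed k] [CharZero k] {κ : Type*} {n m : ℕ}
    (G : κ → MvPolynomial σ (Polynomial k))
    (hhom : ∀ i, ∃ e, (G i).IsHomogeneous e) (A B : Fin n → MvPolynomial σ (Polynomial k))
    (d : Fin n → ℕ) (hA : ∀ i, (A i).IsHomogeneous (d i)) (hB : ∀ i, (B i).IsHomogeneous (d i))
    (a : k)
    (hdis : ∀ I : Finset (Fin n), I.card = m + 1 → ∀ y : σ → ℂ,
      (∀ i, evF (algebraMap k ℂ a) (G i) y = 0) →
      (∀ i ∈ I, evF (algebraMap k ℂ a) (B i) y = 0) → y = 0)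
    {ι : Type*} [Finite ι] (Γ : ι → k) :
    ∃ W : ℕ, 0 < W ∧ ∀ p : ℕ, p.Prime →
      ∀ (C : Type) [NormedField C] [IsUltrametricDist C] (φ : QA →+* C), ‖(p : C)‖ < 1 →
      ∀ (τ : Type) (x : τ → ℂ), AlgebraicIndependent k x →
      ∃ V : ValuationSubring ℂ, (∀ r : QA, ‖φ r‖ ≤ 1 → V.valuation (rA r) ≤ 1) ∧
        (∀ r : QA, ‖φ r‖ < 1 → V.valuation (rA r) < 1) ∧
        (∀ i, (W : ℂ) * algebraMap k ℂ (Γ i) ∈ V) ∧ (∀ j, x j ∈ V) ∧
      ∀ w : ℂ, V.valuation (w - algebraMap k ℂ a) < V.valuation (W : ℂ) →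
      ∀ y : σ → ℂ, y ≠ 0 → (∀ i, evF w (G i) y = 0) →
        ∀ I : Finset (Fin n), I.card = m + 1 → ∃ i ∈ I, evF w (B i) y ≠ 0 ∧
          ∃ g ∈ V, W * evF w (A i) y = g * evF w (B i) y := by
  classical
  have hcert := fun (I : {I : Finset (Fin n) // I.card = m + 1}) (j : σ) =>
    certW (fun i => MvPolynomial.map (Polynomial.evalRingHom a) (G i))
      (fun b : I.1 => MvPolynomial.map (Polynomial.evalRingHom a) (B b))
      (fun y hy hb => hdis I.1 I.2 y (fun i => by rw [← evF_alg]; exact hy i)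
        fun i hi => by rw [← evF_alg]; exact hb ⟨i, hi⟩) j
  choose M U E hUE using hcert
  -- the coefficients
  let ι1 := (I : {I : Finset (Fin n) // I.card = m + 1}) × (j : σ) × (b : I.1) × (U I j b).support
  let ι2 := (I : {I : Finset (Fin n) // I.card = m + 1}) × (j : σ) × (i : (E I j).support) ×
    ((E I j) i).support
  let ι3 := (I : {I : Finset (Fin n) // I.card = m + 1}) × (j : σ) × (i : (E I j).support) ×
    (u : (G i).support) × Fin ((Polynomial.taylor a ((G i).coeff u)).natDegree + 1)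
  let ι4 := (i : Fin n) × (u : (A i).support) ×
    Fin ((Polynomial.taylor a ((A i).coeff u)).natDegree + 1)
  let ι5 := (i : Fin n) × (u : (B i).support) ×
    Fin ((Polynomial.taylor a ((B i).coeff u)).natDegree + 1)
  let t : (ι1 ⊕ ι2) ⊕ (ι3 ⊕ (ι4 ⊕ ι5)) ⊕ ι → k := Sum.elim
    (Sum.elim (fun i => (U i.1 i.2.1 i.2.2.1).coeff i.2.2.2.1)
      (fun i => ((E i.1 i.2.1) i.2.2.1).coeff i.2.2.2.1))
    (Sum.elim (Sum.elim (fun i => (Polynomial.taylor a ((G i.2.2.1).coeff i.2.2.2.1)).coeff i.2.2.2.2)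
      (Sum.elim (fun i => (Polynomial.taylor a ((A i.1).coeff i.2.1)).coeff i.2.2)
        (fun i => (Polynomial.taylor a ((B i.1).coeff i.2.1)).coeff i.2.2))) Γ)
  obtain ⟨W, hW0, hW⟩ := exists_valW t
  refine ⟨W ^ 2, pow_pos hW0 2, fun p hp C _ _ φ hp1 τ x hx => ?_⟩
  obtain ⟨V, hVa, hVb, hVt, hVx⟩ := hW p hp C φ hp1 τ x hx
  have hWV : (W : ℂ) ∈ V := natCast_mem V W
  have hctl : ∀ (P : MvPolynomial σ (Polynomial k)), (∀ u ∈ P.support,
      ∀ j : Fin ((Polynomial.taylor a (P.coeff u)).natDegree + 1),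
      (W : ℂ) * algebraMap k ℂ ((Polynomial.taylor a (P.coeff u)).coeff j) ∈ V) → Ctl a P V W := by
    intro P hP u j
    by_cases hu : u ∈ P.support
    · rcases Nat.lt_or_ge j ((Polynomial.taylor a (P.coeff u)).natDegree + 1) with hj | hj
      · exact hP u hu ⟨j, hj⟩
      · rw [Polynomial.coeff_eq_zero_of_natDegree_lt (by omega), map_zero, mul_zero]
        exact zero_mem V
    · rw [notMem_support_iff.1 hu, map_zero, Polynomial.coeff_zero, map_zero, mul_zero]
      exact zero_mem V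
  have hcU : ∀ I j b {z : σ → ℂ}, (∀ j, z j ∈ V) → (W : ℂ) * aeval z (U I j b) ∈ V := by
    intro I j b z hz
    rw [aeval_def, eval₂_eq', Finset.mul_sum]
    refine sum_mem fun u hu => ?_
    rw [← mul_assoc]
    exact mul_mem (hVt (Sum.inl (Sum.inl ⟨I, j, b, u, hu⟩))) (prod_mem fun j _ => pow_mem (hz j) _)
  have hcE : ∀ I j, ∀ i ∈ (E I j).support, ∀ {z : σ → ℂ}, (∀ j, z j ∈ V) →
      (W : ℂ) * aeval z ((E I j) i) ∈ V := by
    intro I j i hi z hz
    rw [aeval_def, eval₂_eq', Finset.mul_sum]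
    refine sum_mem fun u hu => ?_
    rw [← mul_assoc]
    exact mul_mem (hVt (Sum.inl (Sum.inr ⟨I, j, ⟨i, hi⟩, u, hu⟩)))
      (prod_mem fun j _ => pow_mem (hz j) _)
  have hcG : ∀ I j, ∀ i ∈ (E I j).support, Ctl a (G i) V W := fun I j i hi =>
    hctl _ fun u hu l => hVt (Sum.inr (Sum.inl (Sum.inl ⟨I, j, ⟨i, hi⟩, ⟨u, hu⟩, l⟩)))
  have hcA : ∀ i, Ctl a (A i) V W := fun i =>
    hctl _ fun u hu l => hVt (Sum.inr (Sum.inl (Sum.inr (Sum.inl ⟨i, ⟨u, hu⟩, l⟩))))
  have hcB : ∀ i, Ctl a (B i) V W := fun i =>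
    hctl _ fun u hu l => hVt (Sum.inr (Sum.inl (Sum.inr (Sum.inr ⟨i, ⟨u, hu⟩, l⟩))))
  refine ⟨V, hVa, hVb, fun i => ?_, hVx, fun w hw y hy0 hyG I hI => ?_⟩
  · have := mul_mem hWV (hVt (Sum.inr (Sum.inr i)))
    rw [← mul_assoc, ← sq] at this
    push_cast
    exact this
  set v := V.valuation with hv
  have hvW : v (W : ℂ) ≤ 1 := (ValuationSubring.valuation_le_one_iff _ _).2 hWV
  have hW0' : (W : ℂ) ≠ 0 := by exact_mod_cast hW0.ne'
  have hvW0 : v (W : ℂ) ≠ 0 := (map_ne_zero v).2 hW0'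
  push_cast at hw ⊢
  rw [map_pow] at hw
  have hδV : w - algebraMap k ℂ a ∈ V := by
    rw [← ValuationSubring.valuation_le_one_iff]
    exact hw.le.trans (pow_le_one₀ zero_le hvW)
  have hne : (Finset.univ : Finset σ).Nonempty := by
    by_contra h
    rw [Finset.not_nonempty_iff_eq_empty, Finset.univ_eq_empty_iff] at h
    exact hy0 (funext fun j => (h.false j).elim)
  obtain ⟨j0, -, hj0⟩ := Finset.exists_max_image Finset.univ (fun j => v (y j)) hne
  have hyj0 : y j0 ≠ 0 := by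
    intro h
    apply hy0
    funext j
    have h1 := hj0 j (Finset.mem_univ j)
    simp only [h, map_zero, le_zero_iff] at h1
    exact (map_eq_zero v).1 h1
  set z := (y j0)⁻¹ • y with hz
  have hzV : ∀ j, z j ∈ V := by
    intro j
    rw [← ValuationSubring.valuation_le_one_iff, hz, Pi.smul_apply, smul_eq_mul, map_mul, map_inv₀]
    have h1 := hj0 j (Finset.mem_univ j)
    have h2 : v (y j0) ≠ 0 := (map_ne_zero v).2 hyj0
    calc (v (y j0))⁻¹ * v (y j) ≤ (v (y j0))⁻¹ * v (y j0) := mul_le_mul_right h1 _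
      _ = 1 := inv_mul_cancel₀ h2
  have hzG : ∀ i, evF w (G i) z = 0 := by
    intro i
    obtain ⟨e, he⟩ := hhom i
    rw [hz, evF_smul w he, hyG i, mul_zero]
  have hzj0 : z j0 = 1 := by
    rw [hz, Pi.smul_apply, smul_eq_mul, inv_mul_cancel₀ hyj0]
  -- the identity
  have hid := congrArg (aeval (R := k) z) (hUE ⟨I, hI⟩ j0)
  rw [map_pow, aeval_X, hzj0, one_pow, map_add, map_sum, Finsupp.sum, map_sum] at hid
  simp only [map_mul, evF_alg] at hid
  choose bb hbb hbbe using fun i => ctl_diff (hcB i) hδV hzV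
  have hgg : ∀ i ∈ (E ⟨I, hI⟩ j0).support, ∃ e ∈ V,
      (W : ℂ) * evF (algebraMap k ℂ a) (G i) z = (w - algebraMap k ℂ a) * e := by
    intro i hi
    obtain ⟨e, he, hee⟩ := ctl_diff (hcG ⟨I, hI⟩ j0 i hi) hδV hzV
    refine ⟨-e, neg_mem he, ?_⟩
    rw [hzG i] at hee
    linear_combination -hee
  have hkey : ∃ e ∈ V, (W : ℂ) ^ 2 = ∑ b : I, ((W : ℂ) * aeval z (U ⟨I, hI⟩ j0 b)) *
      ((W : ℂ) * evF w (B b) z) + (w - algebraMap k ℂ a) * e := by
    choose! ge hge hgee using hgg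
    refine ⟨∑ b : I, ((W : ℂ) * aeval z (U ⟨I, hI⟩ j0 b)) * (-bb b) +
      ∑ i ∈ (E ⟨I, hI⟩ j0).support, ((W : ℂ) * aeval z ((E ⟨I, hI⟩ j0) i)) * ge i,
      add_mem (sum_mem fun b _ => mul_mem (hcU _ _ _ hzV) (neg_mem (hbb _)))
        (sum_mem fun i hi => mul_mem (hcE _ _ i hi hzV) (hge i hi)), ?_⟩
    have e1 : (W : ℂ) ^ 2 = ∑ b : I, ((W : ℂ) * aeval z (U ⟨I, hI⟩ j0 b)) *
        ((W : ℂ) * evF (algebraMap k ℂ a) (B b) z) + ∑ i ∈ (E ⟨I, hI⟩ j0).support,
        ((W : ℂ) * aeval z ((E ⟨I, hI⟩ j0) i)) * ((W : ℂ) * evF (algebraMap k ℂ a) (G i) z) := by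
      calc (W : ℂ) ^ 2 = (W : ℂ) ^ 2 * 1 := (mul_one _).symm
        _ = _ := by
          rw [hid, mul_add, Finset.mul_sum, Finset.mul_sum]
          congr 1
          · exact Finset.sum_congr rfl fun b _ => by ring
          · exact Finset.sum_congr rfl fun b _ => by ring
    rw [e1, mul_add, Finset.mul_sum, Finset.mul_sum, ← add_assoc, ← Finset.sum_add_distrib]
    congr 1
    · refine Finset.sum_congr rfl fun b _ => ?_
      have h1 := hbbe b
      linear_combination (-(W : ℂ) * aeval z (U ⟨I, hI⟩ j0 b)) * h1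
    · refine Finset.sum_congr rfl fun i hi => ?_
      have h1 := hgee i hi
      linear_combination ((W : ℂ) * aeval z ((E ⟨I, hI⟩ j0) i)) * h1
  obtain ⟨e, heV, hkey⟩ := hkey
  -- one of the values of the `B i` is large
  have hbig : ∃ b : I, v (W : ℂ) ≤ v (evF w (B b) z) := by
    by_contra hcon
    push Not at hcon
    have h1 : v ((W : ℂ) ^ 2) < v (W : ℂ) ^ 2 := by
      conv_lhs => rw [hkey]
      refine (v.map_add _ _).trans_lt (max_lt ?_ ?_)
      · refine Valuation.map_sum_lt _ (pow_ne_zero 2 hvW0) fun b _ => ?_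
        rw [map_mul, map_mul v (W : ℂ) (evF w (B b) z), sq]
        have h2 : v ((W : ℂ) * aeval z (U ⟨I, hI⟩ j0 b)) ≤ 1 :=
          (ValuationSubring.valuation_le_one_iff _ _).2 (hcU _ _ _ hzV)
        calc v ((W : ℂ) * aeval z (U ⟨I, hI⟩ j0 b)) * (v (W : ℂ) * v (evF w (B b) z))
            ≤ v (W : ℂ) * v (evF w (B b) z) := mul_le_of_le_one_left' h2
          _ < v (W : ℂ) * v (W : ℂ) :=
            mul_lt_mul_of_pos_left (hcon b) (zero_lt_iff.2 hvW0)
      · rw [map_mul]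
        exact (mul_le_of_le_one_right' ((ValuationSubring.valuation_le_one_iff _ _).2 heV)).trans_lt
          hw
    rw [map_pow] at h1
    exact lt_irrefl _ h1
  obtain ⟨b, hb⟩ := hbig
  have hBz : evF w (B b) z ≠ 0 := by
    intro h
    rw [h, map_zero] at hb
    exact hvW0 (le_zero_iff.1 hb)
  have hc0 : (y j0)⁻¹ ≠ 0 := inv_ne_zero hyj0
  have hBs : evF w (B b) z = (y j0)⁻¹ ^ d b * evF w (B b) y := by rw [hz, evF_smul w (hB b)]
  have hAs : evF w (A b) z = (y j0)⁻¹ ^ d b * evF w (A b) y := by rw [hz, evF_smul w (hA b)]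
  have hBy : evF w (B b) y ≠ 0 := by
    intro h
    rw [hBs, h, mul_zero] at hBz
    exact hBz rfl
  refine ⟨b, b.2, hBy, ((W : ℂ) * evF w (A b) z) * ((W : ℂ) / evF w (B b) z),
    mul_mem (ctl_mem (hcA b) hδV hzV) ?_, ?_⟩
  · rw [← ValuationSubring.valuation_le_one_iff, map_div₀]
    exact (div_le_one₀ (zero_lt_iff.2 ((map_ne_zero v).2 hBz))).2 hb
  · rw [hAs, hBs]
    have hcd : (y j0)⁻¹ ^ d b ≠ 0 := pow_ne_zero _ hc0
    field_simp

end family

end Pool.Agent.V8H78.MP
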