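import Pool.Agent.V8H78.MP.PairVA

/-!
The pair theorem at all primes (`p = 2` is allowed).
-/

set_option autoImplicit false
set_option linter.unusedSectionVars false

open Function Polynomial

namespace Pool.Agent.V8H78.MP

open UpperHalfPlane H294ZP Pool.Agent.Y226

section fin

variable {C : Type} [NormedField C] [IsUltrametricDist C] [CharZero C]
variable {p : ℕ} [hpf : Fact p.Prime]

theorem pow_p_close {x : C} {F r : ℝ} (hF : ‖(p : C)‖ ≤ F) (hrF : r ≤ F)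
    (hF1 : F < 1) (hx : ‖x - 1‖ ≤ r) : ‖x ^ p - 1‖ ≤ r * F := by
  have hx1 : ‖x‖ = 1 := neq_one ((hx.trans hrF).trans_lt hF1) norm_one
  have e := Commute.geom_sum₂_mul (Commute.all x 1) p
  rw [one_pow] at e
  rw [← e, norm_mul, mul_comm]
  have h0 : 0 ≤ r := (norm_nonneg _).trans hx
  refine mul_le_mul hx ?_ (norm_nonneg _) h0
  have h1 : ∑ i ∈ Finset.range p, x ^ i * 1 ^ (p - 1 - i) =
      (p : C) + ∑ i ∈ Finset.range p, (x ^ i - 1) := by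
    rw [Finset.sum_sub_distrib]
    simp
  rw [h1]
  refine nadd_le hF ?_
  refine nsum_le _ _ ((norm_nonneg _).trans hF) fun i _ => ?_
  have := npow_sub_pow hx1.le (norm_one (α := C)).le hx i
  rw [one_pow] at this
  exact this.trans hrF

/-- roots of unity close to `1` have bounded order -/
theorem close_root2 (hp0 : 0 < ‖(p : C)‖) (hp1 : ‖(p : C)‖ < 1) {E : ℝ} (hE1 : E < 1) :
    ∃ s₀ : ℕ, ∀ (ξ : C) (g : ℕ), 0 < g → ξ ^ g = 1 → ‖ξ - 1‖ ≤ E → ξ ^ p ^ s₀ = 1 := by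
  set F := max E ‖(p : C)‖ with hF
  have hF1 : F < 1 := max_lt hE1 hp1
  have hF0 : 0 < F := hp0.trans_le (le_max_right _ _)
  have hlim : Filter.Tendsto (fun n : ℕ => F ^ n) Filter.atTop (nhds 0) :=
    tendsto_pow_atTop_nhds_zero_of_lt_one hF0.le hF1
  obtain ⟨n₀, hn₀⟩ := Filter.eventually_atTop.1 (hlim.eventually (gt_mem_nhds hp0))
  refine ⟨n₀, fun ξ g hg hξ hle => ?_⟩
  have hlt : ‖ξ - 1‖ < 1 := hle.trans_lt hE1
  have hξfin : IsOfFinOrder ξ := isOfFinOrder_iff_pow_eq_one.2 ⟨g, hg, hξ⟩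
  obtain ⟨g', s, ζ', ε, hgg, hg'p, hζ', hε, hζe⟩ := root_decomp (p := p) hξfin.orderOf_pos
    (IsPrimitiveRoot.orderOf ξ)
  have hg'0 : 0 < g' := Nat.pos_of_ne_zero (by
    rintro rfl
    rw [zero_mul] at hgg
    exact hξfin.orderOf_pos.ne' hgg)
  have hε1 : ‖ε - 1‖ < 1 := ppow_root_lt hp1 hε.pow_eq_one
  have hζ'n := close_root.root_norm_one' hg'0 hζ'.pow_eq_one
  have hζ'1 : ζ' = 1 := by
    refine tame_eq_one (m := g') ?_ hζ'.pow_eq_one ?_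
    · have : ¬ (p : ℤ) ∣ (g' : ℤ) := by
        intro h
        have h2 := Int.natCast_dvd_natCast.1 h
        have h3 := Nat.dvd_gcd h2 (dvd_refl p)
        rw [hg'p] at h3
        exact hpf.out.one_lt.ne' (Nat.dvd_one.1 h3)
      have := int_unit (C := C) hp1 this
      push_cast at this
      exact this
    · have e : ζ' - 1 = (ξ - 1) - ζ' * (ε - 1) := by rw [hζe]; ring
      rw [e]
      refine nsub_lt hlt ?_
      rw [norm_mul, hζ'n, one_mul]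
      exact hε1
  have hξε : ξ = ε := by rw [hζe, hζ'1, one_mul]
  have hs : s ≤ n₀ := by
    by_contra hcon
    push Not at hcon
    obtain ⟨s', rfl⟩ : ∃ s', s = s' + 1 := ⟨s - 1, by omega⟩
    have hpow : ∀ j : ℕ, ‖ε ^ p ^ j - 1‖ ≤ F ^ (j + 1) := by
      intro j
      induction j with
      | zero =>
        rw [pow_zero, pow_one, zero_add, pow_one, ← hξε]
        exact hle.trans (le_max_left _ _)
      | succ j ih =>
        rw [pow_succ p j, pow_mul, pow_succ F (j + 1)]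
        refine pow_p_close (le_max_right _ _) ?_ hF1 ih
        calc F ^ (j + 1) ≤ F ^ 1 := pow_le_pow_of_le_one hF0.le hF1.le (by omega)
          _ = F := pow_one _
    have hω : (ε ^ p ^ s') ^ p = 1 := by rw [← pow_mul, ← pow_succ]; exact hε.pow_eq_one
    have hωne : ε ^ p ^ s' ≠ 1 :=
      hε.pow_ne_one_of_pos_of_lt (pow_pos hpf.out.pos s').ne'
        (Nat.pow_lt_pow_right hpf.out.one_lt (Nat.lt_succ_self s'))
    have h1 := root_p_norm hp1 hω hωne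
    have h2 : ‖(p : C)‖ ≤ ‖ε ^ p ^ s' - 1‖ := by
      rw [← h1]
      have h3 : ‖ε ^ p ^ s' - 1‖ ≤ 1 := (ppow_root_lt hp1 (s := 1) (by rwa [pow_one])).le
      have h4 : 1 ≤ p - 1 := by have := hpf.out.two_le; omega
      calc ‖ε ^ p ^ s' - 1‖ ^ (p - 1) ≤ ‖ε ^ p ^ s' - 1‖ ^ 1 :=
            pow_le_pow_of_le_one (norm_nonneg _) h3 h4
        _ = _ := pow_one _
    exact absurd (hn₀ (s' + 1) (by omega)) (not_lt.2 (h2.trans (hpow s')))
  rw [hξε]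
  obtain ⟨k, hk⟩ := Nat.exists_eq_add_of_le hs
  rw [hk, pow_add, pow_mul, hε.pow_eq_one, one_pow]

theorem Lev_finite2 (hp0 : 0 < ‖(p : C)‖) (hp1 : ‖(p : C)‖ < 1) {t s t' s' : C}
    (ht : max 1 ‖s‖ < ‖t‖) (ht' : max 1 ‖s'‖ < ‖t'‖) : (Lev t s t' s').Finite := by
  have ht1 : 1 < ‖t‖ := (le_max_left _ _).trans_lt ht
  have ht1' : 1 < ‖t'‖ := (le_max_left _ _).trans_lt ht'
  have ht0 : 0 < ‖t‖ := one_pos.trans ht1
  have ht0' : 0 < ‖t'‖ := one_pos.trans ht1'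
  set E := max (max 1 ‖s‖ / ‖t‖) (max 1 ‖s'‖ / ‖t'‖) with hE
  have hE1 : E < 1 := max_lt ((div_lt_one ht0).2 ht) ((div_lt_one ht0').2 ht')
  obtain ⟨s₀, hs₀⟩ := close_root2 (C := C) hp0 hp1 hE1
  rcases Set.eq_empty_or_nonempty (Lev t s t' s') with h | ⟨N₀, A₀, B₀, g₀, ζ₀, h₀, hN₀⟩
  · rw [h]; exact Set.finite_empty
  obtain ⟨hA₀, hB₀, hco₀, hg₀, hζ₀, hn₀, hc₀⟩ := h₀
  refine ((Nat.divisors (g₀ * p ^ s₀)).finite_toSet.image fun g => A₀ * B₀ * g ^ 2).subset ?_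
  rintro N ⟨A, B, g, ζ, ⟨hA, hB, hco, hg, hζ, hn, hc⟩, rfl⟩
  -- the exponents
  have hexp : A * B₀ = A₀ * B := by
    have h1 : ‖t‖ ^ (A * B₀) = ‖t‖ ^ (A₀ * B) := by
      rw [pow_mul, hn, pow_mul, hn₀, ← pow_mul, ← pow_mul, mul_comm]
    exact pow_right_injective₀ ht0 ht1.ne' h1
  have hAA : A = A₀ := by
    have h1 : A ∣ A₀ := hco.dvd_of_dvd_mul_right (Dvd.intro _ hexp)
    have h2 : A₀ ∣ A := hco₀.dvd_of_dvd_mul_right (Dvd.intro _ hexp.symm)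
    exact Nat.dvd_antisymm h1 h2
  subst hAA
  have hBB : B = B₀ := (Nat.eq_of_mul_eq_mul_left hA hexp).symm
  subst hBB
  refine ⟨g, ?_, rfl⟩
  show g ∈ (Nat.divisors (g₀ * p ^ s₀) : Set ℕ)
  rw [Finset.mem_coe, Nat.mem_divisors]
  refine ⟨?_, (Nat.mul_pos hg₀ (pow_pos hpf.out.pos _)).ne'⟩
  have hζn : ‖ζ‖ = 1 := close_root.root_norm_one' hg hζ.pow_eq_one
  have hζ₀n : ‖ζ₀‖ = 1 := close_root.root_norm_one' hg₀ hζ₀.pow_eq_one
  have hζ₀0 : ζ₀ ≠ 0 := norm_pos_iff.1 (by rw [hζ₀n]; exact one_pos)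
  have h1 : ‖ζ / ζ₀ - 1‖ ≤ E := by
    have e : ζ / ζ₀ - 1 = ((t ^ A / t' ^ B - ζ₀) - (t ^ A / t' ^ B - ζ)) * ζ₀⁻¹ := by
      field_simp
      ring
    rw [e]
    refine nmul_le' (nsub_le hc₀ hc) ?_
    rw [norm_inv, hζ₀n, inv_one]
  have h2 := hs₀ (ζ / ζ₀) (g * g₀) (Nat.mul_pos hg hg₀) (by
    rw [div_pow, pow_mul, hζ.pow_eq_one, one_pow, mul_comm, pow_mul, hζ₀.pow_eq_one, one_pow,
      div_one]) h1
  rw [div_pow, div_eq_one_iff_eq (pow_ne_zero _ hζ₀0)] at h2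
  refine hζ.dvd_of_pow_eq_one _ ?_
  rw [mul_comm, pow_mul, h2, ← pow_mul, mul_comm, pow_mul, hζ₀.pow_eq_one, one_pow]

end fin

/-- The pair theorem for a valuation ring. -/
theorem pairVA2 {C : Type} [NormedField C] [IsUltrametricDist C] [CompleteSpace C] [CharZero C]
    [IsAlgClosed C] (φ : QA →+* C) {p : ℕ} [hpf : Fact p.Prime]
    (hp0 : 0 < ‖(p : C)‖) (hp1 : ‖(p : C)‖ < 1) (V : ValuationSubring ℂ)
    (hV : ∀ r : QA, ‖φ r‖ < 1 → V.valuation (rA r) < 1) {N : ℕ}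
    (hN : 0 < N) {t t' c c' : QA} (ht : max 1 ‖φ c‖ < ‖φ t‖)
    (ht' : max 1 ‖φ c'‖ < ‖φ t'‖) (hc' : c' ≠ 0) {u w : ℂ} (hu : u ∈ V) (hw : w ∈ V)
    (h : PsiE ιZ (mP N) (mD N) (rA t + rA c * u) (rA t' + rA c' * w) = 0) :
    ∃ M ∈ Lev (φ t) (φ c) (φ t') (φ c'),
      PsiE ιZ (mP M) (mD M) (rA t + rA c * u) (rA t' + rA c' * w) = 0 := by
  classical
  have hfin := Lev_finite2 (p := p) hp0 hp1 ht ht'
  have hψi : Function.Injective (φ.comp iA) := φ.injective.comp (fun x y h => by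
    have := congrArg rA h
    exact Subtype.ext this)
  have ht1 : 1 < ‖φ t‖ := (le_max_left _ _).trans_lt ht
  have ht1' : 1 < ‖φ t'‖ := (le_max_left _ _).trans_lt ht'
  have hcc : ‖φ c‖ < ‖φ t‖ := (le_max_right _ _).trans_lt ht
  have hcc' : ‖φ c'‖ < ‖φ t'‖ := (le_max_right _ _).trans_lt ht'
  let G : QA[X][X] := ∏ M ∈ hfin.toFinset, PF iA (mP M) (mD M) t c t' c'
  have hG : ∀ {S : Type} [CommRing S] (f : QA →+* S) (u w : S), ev f G u w =
      ∏ M ∈ hfin.toFinset, PsiE (f.comp iA) (mP M) (mD M) (f t + f c * u) (f t' + f c' * w) := by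
    intro S _ f u w
    have : evHom f u w G = ∏ M ∈ hfin.toFinset, evHom f u w (PF iA (mP M) (mD M) t c t' c') :=
      map_prod _ _ _
    rw [← evHom_apply, this]
    refine Finset.prod_congr rfl fun M _ => ?_
    rw [evHom_apply, ev_PF]
  have h1 : ev rA G u w = 0 := by
    refine transfer2 φ (π := (p : C)) (norm_pos_iff.1 hp0) hp1 V hV
      (F := PF iA (mP N) (mD N) t c t' c') ?_ ?_ hu hw ?_
    · obtain ⟨-, -, -, -, -, -, -, -, h3, -, -⟩ := modular_spec N hN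
      exact PF_leadingCoeff iA (mP N) (mD N) h3 t c t' c' hc'
    · intro u w hu hw h0
      rw [ev_PF] at h0
      obtain ⟨M, hM, hM0⟩ := pairA (ψ := φ.comp iA) (psi_norm φ) hψi hN ht1 hcc ht1' hcc'
        (x := φ t + φ c * u) (y := φ t' + φ c' * w)
        (by rw [add_sub_cancel_left]; exact nmul_le' le_rfl hu)
        (by rw [add_sub_cancel_left]; exact nmul_le' le_rfl hw) h0
      rw [hG]
      exact Finset.prod_eq_zero (hfin.mem_toFinset.2 hM) hM0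
    · rw [ev_PF, rA_comp]
      exact h
  rw [hG, Finset.prod_eq_zero_iff] at h1
  obtain ⟨M, hM, hM0⟩ := h1
  exact ⟨M, hfin.mem_toFinset.1 hM, by rwa [rA_comp] at hM0⟩

end Pool.Agent.V8H78.MP
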