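import Pool.Agent.V8H78.MP.PairA

/-!
Isogenous `j`-invariants close to algebraic numbers of large `p`-adic size, over valuation rings of
`ℂ`.
-/

set_option autoImplicit false
set_option linter.unusedSectionVars false

namespace Pool.Agent.V8H78.MP

open Polynomial UpperHalfPlane H294ZP Pool.Agent.Y226

/-- the leading coefficient -/
theorem PF_leadingCoeff {R : Type*} [Field R] (i₀ : ZZ →+* R) (P : ℕ → ZZ[X]) (D : ℕ)
    (hP : P D = 1) (t c t' c' : R) (hc' : c' ≠ 0) :
    IsUnit (PF i₀ P D t c t' c').leadingCoeff := by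
  let a : ℕ → R[X] := fun i => ((P i).map i₀).comp (Polynomial.C t + Polynomial.C c * X)
  let H : R[X][X] := ∑ i ∈ Finset.range (D + 1), Polynomial.C (a i) * X ^ i
  let q : R[X][X] := Polynomial.C (Polynomial.C t') + Polynomial.C (Polynomial.C c') * X
  have haD : a D = 1 := by
    simp only [a]
    rw [hP, Polynomial.map_one, one_comp]
  have hHm : H.Monic := by
    simp only [H]
    rw [Finset.sum_range_succ, haD, Polynomial.C_1, one_mul, add_comm]
    refine monic_X_pow_add ?_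
    refine mem_degreeLT.1 (Submodule.sum_mem _ fun i hi => mem_degreeLT.2 ?_)
    refine (degree_C_mul_X_pow_le _ _).trans_lt ?_
    exact WithBot.coe_lt_coe.2 (Finset.mem_range.1 hi)
  have hPF : PF i₀ P D t c t' c' = H.comp q := by
    simp only [H, q, PF, a]
    rw [comp.eq_def (∑ i ∈ Finset.range (D + 1), _), eval₂_finsetSum]
    refine Finset.sum_congr rfl fun i _ => ?_
    rw [eval₂_mul, eval₂_C, eval₂_pow, eval₂_X]
  have hc'' : Polynomial.C c' ≠ 0 := Polynomial.C_ne_zero.2 hc'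
  have hqd : q.natDegree = 1 := by
    simp only [q]
    rw [add_comm]
    exact natDegree_linear hc''
  have hql : q.leadingCoeff = Polynomial.C c' := by
    simp only [q]
    rw [add_comm]
    exact leadingCoeff_linear hc''
  rw [hPF, leadingCoeff_comp (by rw [hqd]; exact one_ne_zero), hHm, one_mul, hql]
  exact (isUnit_C.2 (isUnit_iff_ne_zero.2 hc')).pow _

/-- The pair theorem for a valuation ring. -/
theorem pairVA {C : Type} [NormedField C] [IsUltrametricDist C] [CompleteSpace C] [CharZero C]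
    [IsAlgClosed C] (φ : QA →+* C) {p : ℕ} [hpf : Fact p.Prime] (hp2 : p ≠ 2)
    (hp0 : 0 < ‖(p : C)‖) (hp1 : ‖(p : C)‖ < 1) (V : ValuationSubring ℂ)
    (hV : ∀ r : QA, ‖φ r‖ < 1 → V.valuation (rA r) < 1) {N : ℕ}
    (hN : 0 < N) {t t' c c' : QA} (ht : max 1 ‖φ c‖ < ‖φ t‖)
    (ht' : max 1 ‖φ c'‖ < ‖φ t'‖) (hc' : c' ≠ 0) {u w : ℂ} (hu : u ∈ V) (hw : w ∈ V)
    (h : PsiE ιZ (mP N) (mD N) (rA t + rA c * u) (rA t' + rA c' * w) = 0) :
    ∃ M ∈ Lev (φ t) (φ c) (φ t') (φ c'),
      PsiE ιZ (mP M) (mD M) (rA t + rA c * u) (rA t' + rA c' * w) = 0 := by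
  classical
  have hfin := Lev_finite (p := p) hp2 hp0 hp1 ht ht'
  have hψi : Function.Injective (φ.comp iA) := φ.injective.comp (fun x y h => by
    have := congrArg rA h
    exact Subtype.ext this)
  have ht1 : 1 < ‖φ t‖ := (le_max_left _ _).trans_lt ht
  have ht1' : 1 < ‖φ t'‖ := (le_max_left _ _).trans_lt ht'
  have hcc : ‖φ c‖ < ‖φ t‖ := (le_max_right _ _).trans_lt ht
  have hcc' : ‖φ c'‖ < ‖φ t'‖ := (le_max_right _ _).trans_lt ht'
  let G : QA[X][X] := ∏ M ∈ hfin.toFinset, PF iA (mP M) (mD M) t c t' c'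
  have hG : ∀ {S : Type} [CommRing S] (f : QA →+* S) (u w : S), ev f G u w =
      ∏ M ∈ hfin.toFinset, PsiE (f.comp iA) (mP M) (mD M) (f t + f c * u) (f t' + f c' * w) := by
    intro S _ f u w
    have : evHom f u w G = ∏ M ∈ hfin.toFinset, evHom f u w (PF iA (mP M) (mD M) t c t' c') :=
      map_prod _ _ _
    rw [← evHom_apply, this]
    refine Finset.prod_congr rfl fun M _ => ?_
    rw [evHom_apply, ev_PF]
  have h1 : ev rA G u w = 0 := by
    refine transfer2 φ (π := (p : C)) (norm_pos_iff.1 hp0) hp1 V hV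
      (F := PF iA (mP N) (mD N) t c t' c') ?_ ?_ hu hw ?_
    · obtain ⟨-, -, -, -, -, -, -, -, h3, -, -⟩ := modular_spec N hN
      exact PF_leadingCoeff iA (mP N) (mD N) h3 t c t' c' hc'
    · intro u w hu hw h0
      rw [ev_PF] at h0
      obtain ⟨M, hM, hM0⟩ := pairA (ψ := φ.comp iA) (psi_norm φ) hψi hN ht1 hcc ht1' hcc'
        (x := φ t + φ c * u) (y := φ t' + φ c' * w)
        (by rw [add_sub_cancel_left]; exact nmul_le' le_rfl hu)
        (by rw [add_sub_cancel_left]; exact nmul_le' le_rfl hw) h0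
      rw [hG]
      exact Finset.prod_eq_zero (hfin.mem_toFinset.2 hM) hM0
    · rw [ev_PF, rA_comp]
      exact h
  rw [hG, Finset.prod_eq_zero_iff] at h1
  obtain ⟨M, hM, hM0⟩ := h1
  exact ⟨M, hfin.mem_toFinset.1 hM, by rwa [rA_comp] at hM0⟩

end Pool.Agent.V8H78.MP
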