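import Pool.Agent.V8H78.MP.Good
import Pool.Agent.V8H78.MP.PairVA

/-!
Zilber-Pink for affine images `t + s V` with large translations `t`, at one prime.
-/

set_option autoImplicit false
set_option linter.unusedSectionVars false

open Function MvPolynomial UpperHalfPlane H294ZP

namespace Pool.Agent.V8H78.MP

open Pool.Agent.Y226 Pool.Agent.W466.ZC

/-- a coordinate near a large algebraic number -/
theorem near_alg {C : Type} [NormedField C] (φ : QA →+* C)
    (V : ValuationSubring ℂ) (hVa : ∀ r : QA, ‖φ r‖ ≤ 1 → V.valuation (rA r) ≤ 1)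
    (hVb : ∀ r : QA, ‖φ r‖ < 1 → V.valuation (rA r) < 1) {t s : QA}
    (hts : max 1 ‖φ s‖ < ‖φ t‖) {x α β : ℂ} (hα : α ∈ V) (hβ : V.valuation β = 1)
    (hx : β * (x - rA t) = rA s * α) : 1 < V.valuation x ∧
      ∃ (c : QA) (u : ℂ), u ∈ V ∧ x = rA t + rA c * u ∧ c ≠ 0 ∧
        max 1 ‖φ c‖ = max 1 ‖φ s‖ := by
  have hβ0 : β ≠ 0 := by
    rintro rfl
    rw [map_zero] at hβ
    exact zero_ne_one hβ
  have ht1 : 1 < ‖φ t‖ := (le_max_left _ _).trans_lt hts
  have hs1 : ‖φ s‖ < ‖φ t‖ := (le_max_right _ _).trans_lt hts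
  have hαβ : α / β ∈ V := by
    rw [← V.valuation_le_one_iff, map_div₀, hβ, div_one, V.valuation_le_one_iff]
    exact hα
  have hx' : x = rA t + rA s * (α / β) := by
    field_simp
    linear_combination hx
  have key : ∃ (c : QA) (u : ℂ), u ∈ V ∧ x = rA t + rA c * u ∧ c ≠ 0 ∧ ‖φ c‖ < ‖φ t‖ ∧
        max 1 ‖φ c‖ = max 1 ‖φ s‖ := by
    rcases le_or_gt ‖φ s‖ 1 with h | h
    · refine ⟨1, rA s * (α / β), ?_, ?_, one_ne_zero, ?_, ?_⟩
      · refine V.mul_mem _ _ ?_ hαβ
        rw [← V.valuation_le_one_iff]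
        exact hVa s h
      · rw [hx', map_one]; ring
      · rw [map_one, norm_one]
        exact ht1
      · rw [map_one, norm_one, max_self, max_eq_left h]
    · refine ⟨s, α / β, hαβ, hx', ?_, hs1, rfl⟩
      rintro rfl
      rw [map_zero, norm_zero] at h
      exact absurd h (not_lt.2 zero_le_one)
  obtain ⟨c, u, hu, hxu, hc0, hc, hcm⟩ := key
  refine ⟨?_, c, u, hu, hxu, hc0, hcm⟩
  have ht0 : φ t ≠ 0 := norm_pos_iff.1 (one_pos.trans ht1)
  have htq : t ≠ 0 := by
    rintro rfl
    exact ht0 (by simp)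
  have htV : V.valuation (rA t) ≠ 0 := by
    rw [Valuation.ne_zero_iff, Ne, map_eq_zero]
    exact htq
  have h1 : V.valuation (rA c) < V.valuation (rA t) := by
    have := hVb (c / t) (by
      rw [map_div₀, norm_div, div_lt_one (norm_pos_iff.2 ht0)]
      exact hc)
    rwa [map_div₀, map_div₀, div_lt_one₀ (zero_lt_iff.2 htV)] at this
  have h2 : 1 < V.valuation (rA t) := by
    have := hVb (1 / t) (by
      rw [map_div₀, map_one, norm_div, norm_one, div_lt_one (norm_pos_iff.2 ht0)]
      exact ht1)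
    rwa [map_div₀, map_one, map_div₀, map_one, div_lt_one₀ (zero_lt_iff.2 htV)] at this
  have h3 : V.valuation (rA c * u) < V.valuation (rA t) := by
    rw [map_mul]
    exact (mul_le_of_le_one_right' ((V.valuation_le_one_iff _).2 hu)).trans_lt h1
  rw [hxu, Valuation.map_add_eq_of_lt_left _ h3]
  exact h2

/-- The main theorem over an algebraically closed field. -/
theorem mainA {k : Type} [Field k] [Algebra k ℂ] [IsAlgClosed k] [CharZero k] {κ : Type*}
    {N n m : ℕ} (G : κ → MvPolynomial (Fin (N + 1)) k)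
    (hG : ∀ i, ∃ e, (G i).IsHomogeneous e) (A B : Fin n → MvPolynomial (Fin (N + 1)) k)
    (d : Fin n → ℕ) (hA : ∀ i, (A i).IsHomogeneous (d i)) (hB : ∀ i, (B i).IsHomogeneous (d i))
    (hdis : ∀ I : Finset (Fin n), I.card = m + 1 → ∀ y : Fin (N + 1) → ℂ,
      (∀ i, aeval y (G i) = 0) → (∀ i ∈ I, aeval y (B i) = 0) → y = 0)
    {ι : Type*} [Finite ι] (Γ : ι → k) :
    ∃ D : ℕ, ∀ p : ℕ, p.Prime → D < p →
      ∀ (C : Type) [NormedField C] [IsUltrametricDist C] [CompleteSpace C] [CharZero C]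
      [IsAlgClosed C] (φ : QA →+* C), 0 < ‖(p : C)‖ → ‖(p : C)‖ < 1 → ∀ t s : Fin n → QA,
      (∀ i, max 1 ‖φ (s i)‖ < ‖φ (t i)‖) →
      ∀ (r : ℕ) (cls : Fin n → Option (Fin r)) (x : Fin n → ℂ),
      (∀ i, cls i = none → IsIntegral (Algebra.adjoin ℤ (Set.range fun g => algebraMap k ℂ (Γ g)))
        (x i)) →
      (∀ i j l, cls i = some l → cls j = some l →
        ∃ (τ w : ℍ) (a b c d : ℤ), 0 < a * d - b * c ∧ (w : ℂ) * (c * τ + d) = a * τ + b ∧
          x i = jj τ ∧ x j = jj w) →
      ∀ y : Fin (N + 1) → ℂ, y ≠ 0 → (∀ i, aeval y (G i) = 0) →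
      (∀ i, aeval y (B i) * (x i - rA (t i)) = rA (s i) * aeval y (A i)) →
      ∀ S : Finset (Fin n), AlgebraicIndependent k (fun i : S => x i) →
        S.card + n ≤ r + m ∨ ∃ i j, i ≠ j ∧ (∃ l, cls i = some l ∧ cls j = some l) ∧
          ∃ M ∈ Lev (φ (t i)) (φ (s i)) (φ (t j)) (φ (s j)),
            PsiE ιZ (mP M) (mD M) (x i) (x j) = 0 := by
  classical
  obtain ⟨D, hD⟩ := goodC G hG A B hdis Γ
  refine ⟨max D 2, fun p hp hpD C _ _ _ _ _ φ hp0 hp1 t s hts r cls x hconst hrel y hy0 hyG hxy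
    S hS => ?_⟩
  have hfact : Fact p.Prime := ⟨hp⟩
  have hp2 : p ≠ 2 := by
    have := le_max_right D 2
    omega
  obtain ⟨V, hVa, hVb, hVΓ, hVx, hVy⟩ := hD p hp ((le_max_left D 2).trans_lt hpD) C φ hp1 S _ hS
  -- integral elements
  have hΓ : ∀ z : ℂ, IsIntegral (Algebra.adjoin ℤ (Set.range fun g => algebraMap k ℂ (Γ g)))
      z → z ∈ V := by
    intro z hz
    refine Pool.Agent.W466.ZC.mem_of_integral V ?_ hz
    intro w hw
    have hle : Algebra.adjoin ℤ (Set.range fun g => algebraMap k ℂ (Γ g)) ≤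
        subalgebraOfSubring V.toSubring := by
      refine Algebra.adjoin_le ?_
      rintro _ ⟨g, rfl⟩
      exact hVΓ g
    exact hle hw
  have hint : ∀ i j l, cls i = some l → cls j = some l →
      IsIntegral (Algebra.adjoin ℤ {x i}) (x j) := by
    intro i j l hi hj
    obtain ⟨τ, w, a, b, c, d, hdet, hw, h1, h2⟩ := hrel i j l hi hj
    rw [h1, h2]
    exact isogenous_integral τ w a b c d hdet hw
  have hV1 : ∀ i j l, cls i = some l → cls j = some l → x i ∈ V → x j ∈ V := by
    intro i j l hi hj h1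
    exact H294ZP.mem_of_integral V h1 (hint i j l hi hj)
  -- the classes of the coordinates in `S`
  have hSsome : ∀ t : S, ∃ k, cls t = some k := by
    intro t
    cases hc : cls t with
    | none =>
      exfalso
      have h1 := hconst t hc
      have h2 : IsIntegral (Algebra.adjoin k (∅ : Set ℂ)) (x t) := by
        obtain ⟨P, hP, hPe⟩ := h1
        have hle : ∀ z ∈ Algebra.adjoin ℤ (Set.range fun g => algebraMap k ℂ (Γ g)),
            z ∈ Algebra.adjoin k (∅ : Set ℂ) := by
          intro z hz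
          have h9 : Algebra.adjoin ℤ (Set.range fun g => algebraMap k ℂ (Γ g)) ≤
              (Algebra.adjoin k (∅ : Set ℂ)).restrictScalars ℤ := by
            refine Algebra.adjoin_le ?_
            rintro _ ⟨g, rfl⟩
            exact (Algebra.adjoin k (∅ : Set ℂ)).algebraMap_mem (Γ g)
          exact h9 hz
        let φ : Algebra.adjoin ℤ (Set.range fun g => algebraMap k ℂ (Γ g)) →+*
            Algebra.adjoin k (∅ : Set ℂ) :=
          (algebraMap (Algebra.adjoin ℤ (Set.range fun g => algebraMap k ℂ (Γ g))) ℂ).codRestrict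
            (Algebra.adjoin k (∅ : Set ℂ)) (fun a => hle a a.2)
        refine ⟨P.map φ, hP.map _, ?_⟩
        have hc : (algebraMap (Algebra.adjoin k (∅ : Set ℂ)) ℂ).comp φ =
            algebraMap (Algebra.adjoin ℤ (Set.range fun g => algebraMap k ℂ (Γ g))) ℂ :=
          RingHom.ext fun _ => rfl
        rw [Polynomial.eval₂_map, hc]
        exact hPe
      have h3 := hS.transcendental_adjoin (s := ∅) (i := t) (Set.notMem_empty t)
      rw [Set.image_empty] at h3
      exact h3 h2.isAlgebraic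
    | some k => exact ⟨k, rfl⟩
  choose cl hcl using hSsome
  have hclinj : Function.Injective cl := by
    intro t t' htt
    by_contra hne
    exact not_algInd hS hne (hint t t' (cl t) (hcl t) (by rw [htt]; exact hcl t'))
  obtain ⟨a, ha0, hAB, hI⟩ := hVy y hy0 hyG
  let Ty : Finset (Fin n) := Finset.univ.filter fun i => V.valuation (aeval (a • y) (B i)) = 1
  let E : Finset (Fin n) := Finset.univ.filter fun i => ¬ V.valuation (aeval (a • y) (B i)) = 1
  have hcards : Ty.card + E.card = n := by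
    have := Finset.card_filter_add_card_filter_not (s := (Finset.univ : Finset (Fin n)))
      (fun i => V.valuation (aeval (a • y) (B i)) = 1)
    rw [Finset.card_univ, Fintype.card_fin] at this
    exact this
  have hE : E.card ≤ m := by
    by_contra h
    push Not at h
    obtain ⟨I, hIE, hIc⟩ := Finset.exists_subset_card_eq (Nat.succ_le_of_lt h)
    obtain ⟨i, hi, h1⟩ := hI I hIc
    exact (Finset.mem_filter.1 (hIE hi)).2 h1
  have hnear : ∀ i ∈ Ty, 1 < V.valuation (x i) ∧
      ∃ (c : QA) (u : ℂ), u ∈ V ∧ x i = rA (t i) + rA c * u ∧ c ≠ 0 ∧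
        max 1 ‖φ c‖ = max 1 ‖φ (s i)‖ := by
    intro i hi
    refine near_alg φ V hVa hVb (hts i) (hAB i).1 (Finset.mem_filter.1 hi).2 ?_
    rw [aeval_smul' (hA i), aeval_smul' (hB i)]
    have := hxy i
    linear_combination a ^ d i * this
  let Fr : Finset (Option (Fin r)) := (Finset.univ.filter fun k : Fin r =>
    k ∉ Finset.univ.image cl).image some
  have hFr : Fr.card + S.card = r := by
    have h1 : Fr.card = (Finset.univ.filter fun k : Fin r =>
        k ∉ Finset.univ.image cl).card :=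
      Finset.card_image_of_injective _ (Option.some_injective _)
    have h2 : (Finset.univ.filter fun k : Fin r => k ∈ Finset.univ.image cl).card = S.card := by
      have h3 : (Finset.univ.filter fun k : Fin r => k ∈ Finset.univ.image cl) =
          Finset.univ.image cl := by
        ext k; simp
      rw [h3, Finset.card_image_of_injective _ hclinj, Finset.card_univ, Fintype.card_coe]
    have := Finset.card_filter_add_card_filter_not (s := (Finset.univ : Finset (Fin r)))
      (fun k => k ∈ Finset.univ.image cl)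
    rw [Finset.card_univ, Fintype.card_fin] at this
    rw [h1]
    omega
  have hmaps : ∀ i ∈ Ty, cls i ∈ Fr := by
    intro i hi
    have h1 := (hnear i hi).1
    cases hc : cls i with
    | none =>
      have h2 := hΓ (x i) (hconst i hc)
      rw [← ValuationSubring.valuation_le_one_iff] at h2
      exact absurd h1 (not_lt.2 h2)
    | some k =>
      refine Finset.mem_image_of_mem _ (Finset.mem_filter.2 ⟨Finset.mem_univ _, ?_⟩)
      intro hk
      obtain ⟨t, -, ht⟩ := Finset.mem_image.1 hk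
      have h3 := hV1 t i k (ht ▸ hcl t) hc (hVx t)
      rw [← ValuationSubring.valuation_le_one_iff] at h3
      exact absurd h1 (not_lt.2 h3)
  rcases le_or_gt (S.card + n) (r + m) with hcon | hcon
  · exact Or.inl hcon
  right
  obtain ⟨i, hi, i', hi', hne, hcls⟩ := Finset.exists_ne_map_eq_of_card_lt_of_maps_to
    (s := Ty) (t := Fr) (by omega) (f := cls) hmaps
  obtain ⟨k, -, hk⟩ := Finset.mem_image.1 (hmaps i hi)
  obtain ⟨τ, w, a1, b1, c1, d1, hdet, hw, e1, e2⟩ := hrel i i' k hk.symm (hcls ▸ hk.symm)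
  obtain ⟨M, hM⟩ : ∃ M : ℕ, (M : ℤ) = a1 * d1 - b1 * c1 := ⟨(a1 * d1 - b1 * c1).toNat, by omega⟩
  have hM0 : 0 < M := by
    have : (0 : ℤ) < M := by rw [hM]; exact hdet
    exact_mod_cast this
  obtain ⟨-, -, -, -, -, -, -, -, -, -, h5⟩ := modular_spec M hM0
  have hPsi := h5 τ w a1 b1 c1 d1 hM.symm hw
  rw [← e1, ← e2] at hPsi
  obtain ⟨-, c, u, hu, hxu, -, hcs⟩ := hnear i hi
  obtain ⟨-, c', u', hu', hxu', hc', hcs'⟩ := hnear i' hi'
  rw [hxu, hxu'] at hPsi
  obtain ⟨M', hM', hM'0⟩ := pairVA φ hp2 hp0 hp1 V hVb hM0 (by rw [hcs]; exact hts i)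
    (by rw [hcs']; exact hts i') hc' hu hu' hPsi
  refine ⟨i, i', hne, ⟨k, hk.symm, hcls ▸ hk.symm⟩, M', ?_, by rw [hxu, hxu']; exact hM'0⟩
  unfold Lev LevData at hM' ⊢
  rwa [hcs, hcs'] at hM'

end Pool.Agent.V8H78.MP
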