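import Pool.Agent.V8H78.MP.PairVA

/-!
Isogenous `j`-invariants close to algebraic numbers of large `p`-adic size: the exact degree of the
isogeny.
-/

set_option autoImplicit false
set_option linter.unusedSectionVars false

namespace Pool.Agent.V8H78.MP

open Polynomial UpperHalfPlane H294ZP Pool.Agent.Y226

section tate

variable {C : Type} [NormedField C] [IsUltrametricDist C] [CompleteSpace C] [CharZero C]
  [IsAlgClosed C] {ψ : ZZ →+* C} (hψ : ∀ z, ‖ψ z‖ ≤ 1)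

include hψ

/-- the Tate relation, over `C` -/
theorem tate_full2 (hψi : Function.Injective ψ) {N : ℕ} (hN0 : 0 < N) {x y : C}
    (hrelC : PsiE ψ (mP N) (mD N) x y = 0) (hXn : 1 < ‖x‖) :
    ∃ (A B g : ℕ) (ζ : C), 0 < A ∧ 0 < B ∧ A.Coprime B ∧ 0 < g ∧ IsPrimitiveRoot ζ g ∧
      qT ψ y ^ B = ζ * qT ψ x ^ A ∧ 1 < ‖y‖ ∧
      PsiE ψ (mP (A * B * g ^ 2)) (mD (A * B * g ^ 2)) x y = 0 ∧
      ∃ h : ℕ, 0 < h ∧ N = A * B * g ^ 2 * h ^ 2 := by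
  have hq1 := qT_lt hψ hXn
  have hq0 := qT_ne hψ hXn
  obtain ⟨Q, hQ⟩ := IsAlgClosed.exists_pow_nat_eq (qT ψ x) hN0
  have hQ0 : Q ≠ 0 := by
    rintro rfl
    rw [zero_pow hN0.ne'] at hQ
    exact hq0 hQ.symm
  have hQ1 : ‖Q‖ < 1 := by
    by_contra hcon
    push Not at hcon
    have : 1 ≤ ‖Q ^ N‖ := by rw [norm_pow]; exact one_le_pow₀ hcon
    rw [hQ] at this
    exact absurd hq1 (not_lt.2 this)
  have hJX : JC ψ (Q ^ N) = x := by rw [hQ]; exact JC_qT hψ hXn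
  rw [← hJX] at hrelC
  obtain ⟨α, δ, β, hα, hδ, hαδ, hYe⟩ := psi_roots hψ hN0 hQ0 hQ1 hrelC
  -- reduce the matrix
  set h0 := Nat.gcd (Nat.gcd α δ) β.natAbs with hh0
  have hg0 : 0 < Nat.gcd α δ := Nat.gcd_pos_of_pos_left _ hα
  have hh0pos : 0 < h0 := Nat.gcd_pos_of_pos_left _ hg0
  obtain ⟨α', hα'⟩ : h0 ∣ α := (Nat.gcd_dvd_left _ _).trans (Nat.gcd_dvd_left _ _)
  obtain ⟨δ', hδ'⟩ : h0 ∣ δ := (Nat.gcd_dvd_left _ _).trans (Nat.gcd_dvd_right _ _)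
  obtain ⟨β', hβ'⟩ : (h0 : ℤ) ∣ β := Int.natCast_dvd.2 (Nat.gcd_dvd_right _ _)
  have hα'0 : 0 < α' := Nat.pos_of_ne_zero (by rintro rfl; simp at hα'; omega)
  have hδ'0 : 0 < δ' := Nat.pos_of_ne_zero (by rintro rfl; simp at hδ'; omega)
  set cc := Nat.gcd α' δ' with hcc
  have hcc0 : 0 < cc := Nat.gcd_pos_of_pos_left _ hα'0
  obtain ⟨A, hA⟩ : cc ∣ α' := Nat.gcd_dvd_left _ _
  obtain ⟨B, hB⟩ : cc ∣ δ' := Nat.gcd_dvd_right _ _
  have hA0 : 0 < A := Nat.pos_of_ne_zero (by rintro rfl; simp at hA; omega)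
  have hB0 : 0 < B := Nat.pos_of_ne_zero (by rintro rfl; simp at hB; omega)
  have hAB : A.Coprime B := by
    have h1 : cc * Nat.gcd A B = cc := by
      rw [← Nat.gcd_mul_left, ← hA, ← hB]
    have h2 : Nat.gcd A B = 1 := by
      have : cc * Nat.gcd A B = cc * 1 := by rw [h1, mul_one]
      exact Nat.eq_of_mul_eq_mul_left hcc0 this
    exact h2
  have hcop : IsCoprime β' (cc : ℤ) := by
    rw [Int.isCoprime_iff_nat_coprime, Int.natAbs_natCast]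
    have h1 : h0 * Nat.gcd cc β'.natAbs = h0 := by
      rw [← Nat.gcd_mul_left]
      have e1 : h0 * cc = Nat.gcd α δ := by rw [hcc, ← Nat.gcd_mul_left, ← hα', ← hδ']
      have e2 : h0 * β'.natAbs = β.natAbs := by
        rw [hβ', Int.natAbs_mul, Int.natAbs_natCast]
      rw [e1, e2]
    have h2 : Nat.gcd cc β'.natAbs = 1 := by
      have : h0 * Nat.gcd cc β'.natAbs = h0 * 1 := by rw [h1, mul_one]
      exact Nat.eq_of_mul_eq_mul_left hh0pos this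
    exact (Nat.coprime_comm.1 h2)
  have heZ : eZ β δ hδ = eZ β' δ' hδ'0 := by
    apply Subtype.ext
    show Complex.exp (2 * Real.pi * Complex.I * β / δ) =
      Complex.exp (2 * Real.pi * Complex.I * β' / δ')
    congr 1
    have e1 : (β : ℂ) = h0 * β' := by rw [hβ']; push_cast; ring
    have e2 : (δ : ℂ) = h0 * δ' := by rw [hδ']; push_cast; ring
    have e3 : (h0 : ℂ) ≠ 0 := by exact_mod_cast hh0pos.ne'
    have e4 : (δ' : ℂ) ≠ 0 := by exact_mod_cast hδ'0.ne'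
    rw [e1, e2]
    field_simp
  have heZB : eZ β' δ' hδ'0 ^ B = eZ β' cc hcc0 := by
    apply Subtype.ext
    show (Complex.exp (2 * Real.pi * Complex.I * β' / δ')) ^ B =
      Complex.exp (2 * Real.pi * Complex.I * β' / cc)
    rw [← Complex.exp_nat_mul]
    congr 1
    have e2 : (δ' : ℂ) = cc * B := by rw [hB]; push_cast; ring
    have e3 : (cc : ℂ) ≠ 0 := by exact_mod_cast hcc0.ne'
    have e4 : (B : ℂ) ≠ 0 := by exact_mod_cast hB0.ne'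
    rw [e2]
    field_simp
  rw [heZ] at hYe
  -- the parameter of `y`
  have huu : ψ (eZ β' δ' hδ'0) * ψ (eZ (-β') δ' hδ'0) = 1 := by
    rw [← map_mul, eZ_mul, map_one]
  have hu0 : ψ (eZ β' δ' hδ'0) ≠ 0 := left_ne_zero_of_mul_eq_one huu
  have hα2 : α ^ 2 ≠ 0 := pow_ne_zero _ hα.ne'
  have hz0 : ψ (eZ β' δ' hδ'0) * Q ^ (α ^ 2) ≠ 0 := mul_ne_zero hu0 (pow_ne_zero _ hQ0)
  have hz1 : ‖ψ (eZ β' δ' hδ'0) * Q ^ (α ^ 2)‖ < 1 :=
    (nmul_le (hψ _) le_rfl).trans_lt (by rw [norm_pow]; exact pow_lt_one₀ (norm_nonneg _) hQ1 hα2)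
  have hYn : 1 < ‖y‖ := by rw [hYe]; exact JC_norm hψ hz1 hz0
  have hqY : qT ψ y = ψ (eZ β' δ' hδ'0) * Q ^ (α ^ 2) := by
    rw [hYe]; exact qT_JC hψ hz1 hz0
  refine ⟨A, B, cc, ψ (eZ β' cc hcc0), hA0, hB0, hAB, hcc0, ?_, ?_, hYn, ?_, h0, hh0pos, ?_⟩
  · exact (eZ_prim β' hcc0 hcop).map_of_injective hψi
  · rw [hqY, mul_pow, ← map_pow, heZB, ← pow_mul, ← hQ, ← pow_mul]
    congr 2
    have : α ^ 2 * B = N * A := by
      rw [← hαδ, hα', hδ', hB, hA]; ring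
    exact this
  · have hN' : α' * δ' = A * B * cc ^ 2 := by rw [hA, hB]; ring
    have hQ'0 : Q ^ (h0 ^ 2) ≠ 0 := pow_ne_zero _ hQ0
    have hQ'1 : ‖Q ^ (h0 ^ 2)‖ < 1 := by
      rw [norm_pow]; exact pow_lt_one₀ (norm_nonneg _) hQ1 (pow_ne_zero _ hh0pos.ne')
    have h7 := psi_of_param hψ β' hα'0 hδ'0 hN' hQ'0 hQ'1
    have e1 : (Q ^ (h0 ^ 2)) ^ (A * B * cc ^ 2) = Q ^ N := by
      rw [← pow_mul, ← hN', ← hαδ]
      congr 1
      rw [hα', hδ']; ring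
    have e2 : (Q ^ (h0 ^ 2)) ^ (α' ^ 2) = Q ^ (α ^ 2) := by
      rw [← pow_mul]
      congr 1
      rw [hα']; ring
    rw [e1, e2, hJX, ← hYe] at h7
    exact h7
  · rw [← hαδ, hα', hδ', hA, hB]
    ring

/-- isogenous points near `t` and `t'` -/
theorem pairA2 (hψi : Function.Injective ψ) {N : ℕ}
    (hN : 0 < N) {t t' c c' : C} (ht : 1 < ‖t‖) (hc : ‖c‖ < ‖t‖)
    (ht' : 1 < ‖t'‖) (hc' : ‖c'‖ < ‖t'‖) {x y : C}
    (hx : ‖x - t‖ ≤ ‖c‖) (hy : ‖y - t'‖ ≤ ‖c'‖)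
    (h : PsiE ψ (mP N) (mD N) x y = 0) :
    ∃ M ∈ Lev t c t' c', (∃ h : ℕ, 0 < h ∧ N = M * h ^ 2) ∧ PsiE ψ (mP M) (mD M) x y = 0 := by
  obtain ⟨hxn, hxq⟩ := near_one hψ ht hc hx
  obtain ⟨hyn, hyq⟩ := near_one hψ ht' hc' hy
  have hx1 : 1 < ‖x‖ := by rwa [hxn]
  have hy1 : 1 < ‖y‖ := by rwa [hyn]
  obtain ⟨A, B, g, ζ, hA, hB, hco, hg, hζ, hq, -, hΨ, h0, hh0, hN0⟩ := tate_full2 hψ hψi hN h hx1
  have ht0 : 0 < ‖t‖ := one_pos.trans ht
  have ht'0 : 0 < ‖t'‖ := one_pos.trans ht'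
  have hζn := root_norm_one hg hζ.pow_eq_one
  have hnorm : ‖t‖ ^ A = ‖t'‖ ^ B := by
    have h1 := congrArg norm hq
    rw [norm_mul, hζn, one_mul, norm_pow, norm_pow, qT_norm hψ hx1, qT_norm hψ hy1, hxn, hyn,
      inv_pow, inv_pow, inv_inj] at h1
    exact h1.symm
  have hqx0 := qT_ne hψ hx1
  have hqy0 := qT_ne hψ hy1
  have htC : t ≠ 0 := norm_pos_iff.1 ht0
  have ht'C : t' ≠ 0 := norm_pos_iff.1 ht'0
  have hηn : ‖t ^ A / t' ^ B‖ = 1 := by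
    rw [norm_div, norm_pow, norm_pow, hnorm]
    exact div_self (pow_pos ht'0 _).ne'
  set E := max (max 1 ‖c‖ / ‖t‖) (max 1 ‖c'‖ / ‖t'‖) with hE
  have hE1 : E < 1 := by
    rw [hE]
    refine max_lt ?_ ?_
    · rw [div_lt_one ht0]
      exact max_lt ht hc
    · rw [div_lt_one ht'0]
      exact max_lt ht' hc'
  have hX1 : ‖qT ψ x * t‖ = 1 := neq_one ((hxq.trans (le_max_left _ _)).trans_lt hE1) norm_one
  have hY1 : ‖qT ψ y * t'‖ = 1 := neq_one ((hyq.trans (le_max_right _ _)).trans_lt hE1) norm_one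
  have hXA : ‖(qT ψ x * t) ^ A - 1‖ ≤ E := by
    have h1 : ‖qT ψ x * t - 1‖ ≤ E := hxq.trans (le_max_left _ _)
    have := npow_sub_pow hX1.le (norm_one (α := C)).le h1 A
    rwa [one_pow] at this
  have hYB : ‖(qT ψ y * t') ^ B - 1‖ ≤ E := by
    have h1 : ‖qT ψ y * t' - 1‖ ≤ E := hyq.trans (le_max_right _ _)
    have := npow_sub_pow hY1.le (norm_one (α := C)).le h1 B
    rwa [one_pow] at this
  refine ⟨A * B * g ^ 2, ⟨A, B, g, ζ, ⟨hA, hB, hco, hg, hζ, hnorm, ?_⟩, rfl⟩, ⟨h0, hh0, hN0⟩, hΨ⟩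
  have e : t ^ A / t' ^ B - ζ = (((qT ψ x * t) ^ A - 1) - ((qT ψ y * t') ^ B - 1)) *
      (t ^ A / t' ^ B * ((qT ψ x * t) ^ A)⁻¹) := by
    have hζe : ζ = qT ψ y ^ B / qT ψ x ^ A := by
      rw [eq_div_iff (pow_ne_zero _ hqx0)]
      exact hq.symm
    rw [hζe, mul_pow, mul_pow]
    have h1 : qT ψ x ^ A ≠ 0 := pow_ne_zero _ hqx0
    have h2 : t ^ A ≠ 0 := pow_ne_zero _ htC
    have h3 : t' ^ B ≠ 0 := pow_ne_zero _ ht'C
    field_simp
    ring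
  rw [e]
  refine nmul_le' (nsub_le hXA hYB) ?_
  rw [norm_mul, norm_inv, norm_pow, hX1, one_pow, inv_one, hηn, one_mul]

end tate

/-- The pair theorem for a valuation ring, with the exact degree. -/
theorem pairVB {C : Type} [NormedField C] [IsUltrametricDist C] [CompleteSpace C] [CharZero C]
    [IsAlgClosed C] (φ : QA →+* C) {p : ℕ} [hpf : Fact p.Prime] (hp2 : p ≠ 2)
    (hp0 : 0 < ‖(p : C)‖) (hp1 : ‖(p : C)‖ < 1) (V : ValuationSubring ℂ)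
    (hV : ∀ r : QA, ‖φ r‖ < 1 → V.valuation (rA r) < 1) {N : ℕ}
    (hN : 0 < N) {t t' c c' : QA} (ht : max 1 ‖φ c‖ < ‖φ t‖)
    (ht' : max 1 ‖φ c'‖ < ‖φ t'‖) (hc' : c' ≠ 0) {u w : ℂ} (hu : u ∈ V) (hw : w ∈ V)
    (h : PsiE ιZ (mP N) (mD N) (rA t + rA c * u) (rA t' + rA c' * w) = 0)
    (hmin : ∀ M, 0 < M → PsiE ιZ (mP M) (mD M) (rA t + rA c * u) (rA t' + rA c' * w) = 0 → N ≤ M) :
    N ∈ Lev (φ t) (φ c) (φ t') (φ c') := by
  classical
  have hfin := Lev_finite (p := p) hp2 hp0 hp1 ht ht'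
  have hψi : Function.Injective (φ.comp iA) := φ.injective.comp (fun x y h => by
    have := congrArg rA h
    exact Subtype.ext this)
  have ht1 : 1 < ‖φ t‖ := (le_max_left _ _).trans_lt ht
  have ht1' : 1 < ‖φ t'‖ := (le_max_left _ _).trans_lt ht'
  have hcc : ‖φ c‖ < ‖φ t‖ := (le_max_right _ _).trans_lt ht
  have hcc' : ‖φ c'‖ < ‖φ t'‖ := (le_max_right _ _).trans_lt ht'
  let I : Finset ℕ := hfin.toFinset.filter fun M => ∃ h : ℕ, 0 < h ∧ N = M * h ^ 2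
  let G : QA[X][X] := ∏ M ∈ I, PF iA (mP M) (mD M) t c t' c'
  have hG : ∀ {S : Type} [CommRing S] (f : QA →+* S) (u w : S), ev f G u w =
      ∏ M ∈ I, PsiE (f.comp iA) (mP M) (mD M) (f t + f c * u) (f t' + f c' * w) := by
    intro S _ f u w
    have : evHom f u w G = ∏ M ∈ I, evHom f u w (PF iA (mP M) (mD M) t c t' c') :=
      map_prod _ _ _
    rw [← evHom_apply, this]
    refine Finset.prod_congr rfl fun M _ => ?_
    rw [evHom_apply, ev_PF]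
  have h1 : ev rA G u w = 0 := by
    refine transfer2 φ (π := (p : C)) (norm_pos_iff.1 hp0) hp1 V hV
      (F := PF iA (mP N) (mD N) t c t' c') ?_ ?_ hu hw ?_
    · obtain ⟨-, -, -, -, -, -, -, -, h3, -, -⟩ := modular_spec N hN
      exact PF_leadingCoeff iA (mP N) (mD N) h3 t c t' c' hc'
    · intro u w hu hw h0
      rw [ev_PF] at h0
      obtain ⟨M, hM, hMN, hM0⟩ := pairA2 (ψ := φ.comp iA) (psi_norm φ) hψi hN ht1 hcc ht1' hcc'
        (x := φ t + φ c * u) (y := φ t' + φ c' * w)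
        (by rw [add_sub_cancel_left]; exact nmul_le' le_rfl hu)
        (by rw [add_sub_cancel_left]; exact nmul_le' le_rfl hw) h0
      rw [hG]
      exact Finset.prod_eq_zero (Finset.mem_filter.2 ⟨hfin.mem_toFinset.2 hM, hMN⟩) hM0
    · rw [ev_PF, rA_comp]
      exact h
  rw [hG, Finset.prod_eq_zero_iff] at h1
  obtain ⟨M, hM, hM0⟩ := h1
  rw [rA_comp] at hM0
  obtain ⟨hM1, k, hk, hNM⟩ := Finset.mem_filter.1 hM
  have hMpos : 0 < M := Lev_pos (hfin.mem_toFinset.1 hM1)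
  have h2 := hmin M hMpos hM0
  have h3 : M ≤ N := by
    rw [hNM]
    exact Nat.le_mul_of_pos_right _ (pow_pos hk 2)
  have h4 : N = M := le_antisymm h2 h3
  rw [h4]
  exact hfin.mem_toFinset.1 hM1

end Pool.Agent.V8H78.MP
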