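import Pool.Agent.V8H78.MP.MainA
import Pool.Agent.V8H78.MP.PairB

/-!
Zilber-Pink for affine images `t + s V` with large translations `t`, at one prime, with the exact
degrees of the isogenies.
-/

set_option autoImplicit false
set_option linter.unusedSectionVars false

open Function MvPolynomial UpperHalfPlane H294ZP

namespace Pool.Agent.V8H78.MP

open Pool.Agent.Y226 Pool.Agent.W466.ZC

/-- The main theorem over an algebraically closed field. -/
theorem mainB {k : Type} [Field k] [Algebra k ℂ] [IsAlgClosed k] [CharZero k] {κ : Type*}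
    {N n m : ℕ} (G : κ → MvPolynomial (Fin (N + 1)) k)
    (hG : ∀ i, ∃ e, (G i).IsHomogeneous e) (A B : Fin n → MvPolynomial (Fin (N + 1)) k)
    (d : Fin n → ℕ) (hA : ∀ i, (A i).IsHomogeneous (d i)) (hB : ∀ i, (B i).IsHomogeneous (d i))
    (hdis : ∀ I : Finset (Fin n), I.card = m + 1 → ∀ y : Fin (N + 1) → ℂ,
      (∀ i, aeval y (G i) = 0) → (∀ i ∈ I, aeval y (B i) = 0) → y = 0)
    {ι : Type*} [Finite ι] (Γ : ι → k) :
    ∃ D : ℕ, ∀ p : ℕ, p.Prime → D < p →
      ∀ (C : Type) [NormedField C] [IsUltrametricDist C] [CompleteSpace C] [CharZero C]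
      [IsAlgClosed C] (φ : QA →+* C), 0 < ‖(p : C)‖ → ‖(p : C)‖ < 1 → ∀ t s : Fin n → QA,
      (∀ i, max 1 ‖φ (s i)‖ < ‖φ (t i)‖) →
      ∀ (r : ℕ) (cls : Fin n → Option (Fin r)) (x : Fin n → ℂ),
      (∀ i, cls i = none → IsIntegral (Algebra.adjoin ℤ (Set.range fun g => algebraMap k ℂ (Γ g)))
        (x i)) →
      (∀ i j l, cls i = some l → cls j = some l →
        ∃ (τ w : ℍ) (a b c d : ℤ), 0 < a * d - b * c ∧ (w : ℂ) * (c * τ + d) = a * τ + b ∧
          x i = jj τ ∧ x j = jj w) →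
      ∀ y : Fin (N + 1) → ℂ, y ≠ 0 → (∀ i, aeval y (G i) = 0) →
      (∀ i, aeval y (B i) * (x i - rA (t i)) = rA (s i) * aeval y (A i)) →
      ∀ S : Finset (Fin n), AlgebraicIndependent k (fun i : S => x i) →
        S.card + n ≤ r + m ∨ ∃ i j, i < j ∧ (∃ l, cls i = some l ∧ cls j = some l) ∧
          ∃ M ∈ Lev (φ (t i)) (φ (s i)) (φ (t j)) (φ (s j)),
            IsLeast {N : ℕ | 0 < N ∧ PsiE ιZ (mP N) (mD N) (x i) (x j) = 0} M := by
  classical
  obtain ⟨D, hD⟩ := goodC G hG A B hdis Γ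
  refine ⟨max D 2, fun p hp hpD C _ _ _ _ _ φ hp0 hp1 t s hts r cls x hconst hrel y hy0 hyG hxy
    S hS => ?_⟩
  have hfact : Fact p.Prime := ⟨hp⟩
  have hp2 : p ≠ 2 := by
    have := le_max_right D 2
    omega
  obtain ⟨V, hVa, hVb, hVΓ, hVx, hVy⟩ := hD p hp ((le_max_left D 2).trans_lt hpD) C φ hp1 S _ hS
  -- integral elements
  have hΓ : ∀ z : ℂ, IsIntegral (Algebra.adjoin ℤ (Set.range fun g => algebraMap k ℂ (Γ g)))
      z → z ∈ V := by
    intro z hz
    refine Pool.Agent.W466.ZC.mem_of_integral V ?_ hz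
    intro w hw
    have hle : Algebra.adjoin ℤ (Set.range fun g => algebraMap k ℂ (Γ g)) ≤
        subalgebraOfSubring V.toSubring := by
      refine Algebra.adjoin_le ?_
      rintro _ ⟨g, rfl⟩
      exact hVΓ g
    exact hle hw
  have hint : ∀ i j l, cls i = some l → cls j = some l →
      IsIntegral (Algebra.adjoin ℤ {x i}) (x j) := by
    intro i j l hi hj
    obtain ⟨τ, w, a, b, c, d, hdet, hw, h1, h2⟩ := hrel i j l hi hj
    rw [h1, h2]
    exact isogenous_integral τ w a b c d hdet hw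
  have hV1 : ∀ i j l, cls i = some l → cls j = some l → x i ∈ V → x j ∈ V := by
    intro i j l hi hj h1
    exact H294ZP.mem_of_integral V h1 (hint i j l hi hj)
  -- the classes of the coordinates in `S`
  have hSsome : ∀ t : S, ∃ k, cls t = some k := by
    intro t
    cases hc : cls t with
    | none =>
      exfalso
      have h1 := hconst t hc
      have h2 : IsIntegral (Algebra.adjoin k (∅ : Set ℂ)) (x t) := by
        obtain ⟨P, hP, hPe⟩ := h1
        have hle : ∀ z ∈ Algebra.adjoin ℤ (Set.range fun g => algebraMap k ℂ (Γ g)),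
            z ∈ Algebra.adjoin k (∅ : Set ℂ) := by
          intro z hz
          have h9 : Algebra.adjoin ℤ (Set.range fun g => algebraMap k ℂ (Γ g)) ≤
              (Algebra.adjoin k (∅ : Set ℂ)).restrictScalars ℤ := by
            refine Algebra.adjoin_le ?_
            rintro _ ⟨g, rfl⟩
            exact (Algebra.adjoin k (∅ : Set ℂ)).algebraMap_mem (Γ g)
          exact h9 hz
        let φ : Algebra.adjoin ℤ (Set.range fun g => algebraMap k ℂ (Γ g)) →+*
            Algebra.adjoin k (∅ : Set ℂ) :=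
          (algebraMap (Algebra.adjoin ℤ (Set.range fun g => algebraMap k ℂ (Γ g))) ℂ).codRestrict
            (Algebra.adjoin k (∅ : Set ℂ)) (fun a => hle a a.2)
        refine ⟨P.map φ, hP.map _, ?_⟩
        have hc : (algebraMap (Algebra.adjoin k (∅ : Set ℂ)) ℂ).comp φ =
            algebraMap (Algebra.adjoin ℤ (Set.range fun g => algebraMap k ℂ (Γ g))) ℂ :=
          RingHom.ext fun _ => rfl
        rw [Polynomial.eval₂_map, hc]
        exact hPe
      have h3 := hS.transcendental_adjoin (s := ∅) (i := t) (Set.notMem_empty t)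
      rw [Set.image_empty] at h3
      exact h3 h2.isAlgebraic
    | some k => exact ⟨k, rfl⟩
  choose cl hcl using hSsome
  have hclinj : Function.Injective cl := by
    intro t t' htt
    by_contra hne
    exact not_algInd hS hne (hint t t' (cl t) (hcl t) (by rw [htt]; exact hcl t'))
  obtain ⟨a, ha0, hAB, hI⟩ := hVy y hy0 hyG
  let Ty : Finset (Fin n) := Finset.univ.filter fun i => V.valuation (aeval (a • y) (B i)) = 1
  let E : Finset (Fin n) := Finset.univ.filter fun i => ¬ V.valuation (aeval (a • y) (B i)) = 1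
  have hcards : Ty.card + E.card = n := by
    have := Finset.card_filter_add_card_filter_not (s := (Finset.univ : Finset (Fin n)))
      (fun i => V.valuation (aeval (a • y) (B i)) = 1)
    rw [Finset.card_univ, Fintype.card_fin] at this
    exact this
  have hE : E.card ≤ m := by
    by_contra h
    push Not at h
    obtain ⟨I, hIE, hIc⟩ := Finset.exists_subset_card_eq (Nat.succ_le_of_lt h)
    obtain ⟨i, hi, h1⟩ := hI I hIc
    exact (Finset.mem_filter.1 (hIE hi)).2 h1
  have hnear : ∀ i ∈ Ty, 1 < V.valuation (x i) ∧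
      ∃ (c : QA) (u : ℂ), u ∈ V ∧ x i = rA (t i) + rA c * u ∧ c ≠ 0 ∧
        max 1 ‖φ c‖ = max 1 ‖φ (s i)‖ := by
    intro i hi
    refine near_alg φ V hVa hVb (hts i) (hAB i).1 (Finset.mem_filter.1 hi).2 ?_
    rw [aeval_smul' (hA i), aeval_smul' (hB i)]
    have := hxy i
    linear_combination a ^ d i * this
  let Fr : Finset (Option (Fin r)) := (Finset.univ.filter fun k : Fin r =>
    k ∉ Finset.univ.image cl).image some
  have hFr : Fr.card + S.card = r := by
    have h1 : Fr.card = (Finset.univ.filter fun k : Fin r =>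
        k ∉ Finset.univ.image cl).card :=
      Finset.card_image_of_injective _ (Option.some_injective _)
    have h2 : (Finset.univ.filter fun k : Fin r => k ∈ Finset.univ.image cl).card = S.card := by
      have h3 : (Finset.univ.filter fun k : Fin r => k ∈ Finset.univ.image cl) =
          Finset.univ.image cl := by
        ext k; simp
      rw [h3, Finset.card_image_of_injective _ hclinj, Finset.card_univ, Fintype.card_coe]
    have := Finset.card_filter_add_card_filter_not (s := (Finset.univ : Finset (Fin r)))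
      (fun k => k ∈ Finset.univ.image cl)
    rw [Finset.card_univ, Fintype.card_fin] at this
    rw [h1]
    omega
  have hmaps : ∀ i ∈ Ty, cls i ∈ Fr := by
    intro i hi
    have h1 := (hnear i hi).1
    cases hc : cls i with
    | none =>
      have h2 := hΓ (x i) (hconst i hc)
      rw [← ValuationSubring.valuation_le_one_iff] at h2
      exact absurd h1 (not_lt.2 h2)
    | some k =>
      refine Finset.mem_image_of_mem _ (Finset.mem_filter.2 ⟨Finset.mem_univ _, ?_⟩)
      intro hk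
      obtain ⟨t, -, ht⟩ := Finset.mem_image.1 hk
      have h3 := hV1 t i k (ht ▸ hcl t) hc (hVx t)
      rw [← ValuationSubring.valuation_le_one_iff] at h3
      exact absurd h1 (not_lt.2 h3)
  rcases le_or_gt (S.card + n) (r + m) with hcon | hcon
  · exact Or.inl hcon
  right
  obtain ⟨i, hi, i', hi', hne, hcls⟩ := Finset.exists_ne_map_eq_of_card_lt_of_maps_to
    (s := Ty) (t := Fr) (by omega) (f := cls) hmaps
  -- order the two indices
  obtain ⟨i, hi, i', hi', hlt, hcls⟩ : ∃ i ∈ Ty, ∃ i' ∈ Ty, i < i' ∧ cls i = cls i' := by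
    rcases lt_or_gt_of_ne hne with h | h
    · exact ⟨i, hi, i', hi', h, hcls⟩
    · exact ⟨i', hi', i, hi, h, hcls.symm⟩
  obtain ⟨k, -, hk⟩ := Finset.mem_image.1 (hmaps i hi)
  obtain ⟨τ, w, a1, b1, c1, d1, hdet, hw, e1, e2⟩ := hrel i i' k hk.symm (hcls ▸ hk.symm)
  have hex : ∃ M : ℕ, 0 < M ∧ PsiE ιZ (mP M) (mD M) (x i) (x i') = 0 := by
    obtain ⟨M, hM⟩ : ∃ M : ℕ, (M : ℤ) = a1 * d1 - b1 * c1 := ⟨(a1 * d1 - b1 * c1).toNat, by omega⟩
    have hM0 : 0 < M := by
      have : (0 : ℤ) < M := by rw [hM]; exact hdet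
      exact_mod_cast this
    obtain ⟨-, -, -, -, -, -, -, -, -, -, h5⟩ := modular_spec M hM0
    have hPsi := h5 τ w a1 b1 c1 d1 hM.symm hw
    rw [← e1, ← e2] at hPsi
    exact ⟨M, hM0, hPsi⟩
  set M := Nat.find hex with hMdef
  obtain ⟨hM0, hPsi⟩ := Nat.find_spec hex
  rw [← hMdef] at hM0 hPsi
  have hleast : ∀ M', 0 < M' → PsiE ιZ (mP M') (mD M') (x i) (x i') = 0 → M ≤ M' :=
    fun M' h1 h2 => Nat.find_min' hex ⟨h1, h2⟩
  refine ⟨i, i', hlt, ⟨k, hk.symm, hcls ▸ hk.symm⟩, M, ?_, ⟨hM0, hPsi⟩, fun M' h => hleast M' h.1 h.2⟩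
  obtain ⟨-, c, u, hu, hxu, -, hcs⟩ := hnear i hi
  obtain ⟨-, c', u', hu', hxu', hc', hcs'⟩ := hnear i' hi'
  rw [hxu, hxu'] at hPsi hleast
  have hM' := pairVB φ hp2 hp0 hp1 V hVb hM0 (by rw [hcs]; exact hts i)
    (by rw [hcs']; exact hts i') hc' hu hu' hPsi hleast
  unfold Lev LevData at hM' ⊢
  rwa [hcs, hcs'] at hM'

/-- From the algebraically closed field to any field. -/
theorem mainKB (K : Subfield ℂ) {κ : Type*}
    {N n m : ℕ} (G : κ → MvPolynomial (Fin (N + 1)) K)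
    (hG : ∀ i, ∃ e, (G i).IsHomogeneous e) (A B : Fin n → MvPolynomial (Fin (N + 1)) K)
    (d : Fin n → ℕ) (hA : ∀ i, (A i).IsHomogeneous (d i)) (hB : ∀ i, (B i).IsHomogeneous (d i))
    (hdis : ∀ I : Finset (Fin n), I.card = m + 1 → ∀ y : Fin (N + 1) → ℂ,
      (∀ i, aeval y (G i) = 0) → (∀ i ∈ I, aeval y (B i) = 0) → y = 0)
    (Γ : Finset ℂ) (hΓ : ∀ γ ∈ Γ, γ ∈ K) :
    ∃ D : ℕ, ∀ p : ℕ, p.Prime → D < p →
      ∀ (C : Type) [NormedField C] [IsUltrametricDist C] [CompleteSpace C] [CharZero C]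
      [IsAlgClosed C] (φ : QA →+* C), 0 < ‖(p : C)‖ → ‖(p : C)‖ < 1 → ∀ t s : Fin n → QA,
      (∀ i, max 1 ‖φ (s i)‖ < ‖φ (t i)‖) →
      ∀ (r : ℕ) (cls : Fin n → Option (Fin r)) (x : Fin n → ℂ),
      (∀ i, cls i = none → IsIntegral (Algebra.adjoin ℤ (Γ : Set ℂ)) (x i)) →
      (∀ i j l, cls i = some l → cls j = some l →
        ∃ (τ w : ℍ) (a b c d : ℤ), 0 < a * d - b * c ∧ (w : ℂ) * (c * τ + d) = a * τ + b ∧
          x i = jj τ ∧ x j = jj w) →
      ∀ y : Fin (N + 1) → ℂ, y ≠ 0 → (∀ i, aeval y (G i) = 0) →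
      (∀ i, aeval y (B i) * (x i - rA (t i)) = rA (s i) * aeval y (A i)) →
      ∀ S : Finset (Fin n), AlgebraicIndependent K (fun i : S => x i) →
        S.card + n ≤ r + m ∨ ∃ i j, i < j ∧ (∃ l, cls i = some l ∧ cls j = some l) ∧
          ∃ M ∈ Lev (φ (t i)) (φ (s i)) (φ (t j)) (φ (s j)),
            IsLeast {N : ℕ | 0 < N ∧ PsiE ιZ (mP N) (mD N) (x i) (x j) = 0} M := by
  classical
  let k := algebraicClosure K ℂ
  have hcl : IsAlgClosure K k := inferInstance
  have hac : IsAlgClosed k := hcl.isAlgClosed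
  have hmap : ∀ (y : Fin (N + 1) → ℂ) (P : MvPolynomial (Fin (N + 1)) K),
      aeval y (MvPolynomial.map (algebraMap K k) P) = aeval y P := fun y P =>
    MvPolynomial.aeval_map_algebraMap k y P
  let Γ' : Γ → k := fun γ => algebraMap K k ⟨γ, hΓ γ γ.2⟩
  have hΓ' : (Set.range fun g => algebraMap k ℂ (Γ' g)) = (Γ : Set ℂ) := by
    ext z
    constructor
    · rintro ⟨g, rfl⟩
      exact g.2
    · intro hz
      exact ⟨⟨z, hz⟩, rfl⟩
  obtain ⟨D, hD⟩ := mainB (k := k) (m := m) (fun i => MvPolynomial.map (algebraMap K k) (G i))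
    (fun i => by
      obtain ⟨e, he⟩ := hG i
      exact ⟨e, he.map _⟩)
    (fun i => MvPolynomial.map (algebraMap K k) (A i))
    (fun i => MvPolynomial.map (algebraMap K k) (B i)) d (fun i => (hA i).map _)
    (fun i => (hB i).map _)
    (fun I hI y h1 h2 => hdis I hI y (fun i => by rw [← hmap]; exact h1 i)
      (fun i hi => by rw [← hmap]; exact h2 i hi)) Γ'
  refine ⟨D, fun p hp hpD C _ _ _ _ _ φ hp0 hp1 t s hts r cls x hconst hrel y hy0 hyG hxy S hS =>
    ?_⟩
  refine hD p hp hpD C φ hp0 hp1 t s hts r cls x ?_ hrel y hy0 (fun i => (hmap y _).trans (hyG i))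
    ?_ S ?_
  · intro i hi
    rw [hΓ']
    exact hconst i hi
  · intro i
    rw [hmap, hmap]
    exact hxy i
  · exact hS.extendScalars k

/-- The criterion with several places. -/
theorem critK (K : Subfield ℂ) {κ : Type*}
    {N n m : ℕ} (G : κ → MvPolynomial (Fin (N + 1)) K)
    (hG : ∀ i, ∃ e, (G i).IsHomogeneous e) (A B : Fin n → MvPolynomial (Fin (N + 1)) K)
    (d : Fin n → ℕ) (hA : ∀ i, (A i).IsHomogeneous (d i)) (hB : ∀ i, (B i).IsHomogeneous (d i))
    (hdis : ∀ I : Finset (Fin n), I.card = m + 1 → ∀ y : Fin (N + 1) → ℂ,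
      (∀ i, aeval y (G i) = 0) → (∀ i ∈ I, aeval y (B i) = 0) → y = 0)
    (Γ : Finset ℂ) (hΓ : ∀ γ ∈ Γ, γ ∈ K) :
    ∃ D : ℕ, ∀ (p : Fin (n.choose 2 + 1) → ℕ), (∀ l, (p l).Prime ∧ D < p l) →
      ∀ (C : Fin (n.choose 2 + 1) → Type) [∀ l, NormedField (C l)] [∀ l, IsUltrametricDist (C l)]
      [∀ l, CompleteSpace (C l)] [∀ l, CharZero (C l)] [∀ l, IsAlgClosed (C l)]
      (φ : ∀ l, QA →+* C l), (∀ l, 0 < ‖(p l : C l)‖ ∧ ‖(p l : C l)‖ < 1) → ∀ t s : Fin n → QA,
      (∀ l i, max 1 ‖φ l (s i)‖ < ‖φ l (t i)‖) →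
      (∀ l l', l < l' → ∀ i j, i < j → ∀ M, M ∈ Lev (φ l (t i)) (φ l (s i)) (φ l (t j)) (φ l (s j)) →
        M ∉ Lev (φ l' (t i)) (φ l' (s i)) (φ l' (t j)) (φ l' (s j))) →
      ∀ (r : ℕ) (cls : Fin n → Option (Fin r)) (x : Fin n → ℂ),
      (∀ i, cls i = none → IsIntegral (Algebra.adjoin ℤ (Γ : Set ℂ)) (x i)) →
      (∀ i j l, cls i = some l → cls j = some l →
        ∃ (τ w : ℍ) (a b c d : ℤ), 0 < a * d - b * c ∧ (w : ℂ) * (c * τ + d) = a * τ + b ∧
          x i = jj τ ∧ x j = jj w) →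
      ∀ y : Fin (N + 1) → ℂ, y ≠ 0 → (∀ i, aeval y (G i) = 0) →
      (∀ i, aeval y (B i) * (x i - rA (t i)) = rA (s i) * aeval y (A i)) →
      ∀ S : Finset (Fin n), AlgebraicIndependent K (fun i : S => x i) →
        S.card + n ≤ r + m := by
  classical
  obtain ⟨D, hD⟩ := mainKB K (m := m) G hG A B d hA hB hdis Γ hΓ
  refine ⟨D, fun p hp C _ _ _ _ _ φ hpC t s hts hdisj r cls x hconst hrel y hy0 hyG hxy S hS =>
    ?_⟩
  by_contra hcon
  have hone : ∀ l, ∃ i j, i < j ∧ ∃ M ∈ Lev (φ l (t i)) (φ l (s i)) (φ l (t j)) (φ l (s j)),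
      IsLeast {N : ℕ | 0 < N ∧ PsiE ιZ (mP N) (mD N) (x i) (x j) = 0} M := by
    intro l
    rcases hD (p l) (hp l).1 (hp l).2 (C l) (φ l) (hpC l).1 (hpC l).2 t s (hts l) r cls x hconst
      hrel y hy0 hyG hxy S hS with h | ⟨i, j, hij, -, M, hM, hML⟩
    · exact absurd h hcon
    · exact ⟨i, j, hij, M, hM, hML⟩
  choose q1 q2 hq M hM hML using hone
  have hcard2 : ∀ l, (({q1 l, q2 l} : Finset (Fin n)).card = 2) := fun l =>
    Finset.card_pair (hq l).ne
  obtain ⟨l, l', hll, hqq⟩ := Fintype.exists_ne_map_eq_of_card_lt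
    (fun l => (⟨{q1 l, q2 l}, hcard2 l⟩ : {s : Finset (Fin n) // s.card = 2})) (by
    rw [Fintype.card_finset_len, Fintype.card_fin, Fintype.card_fin]
    omega)
  have hset : ({q1 l, q2 l} : Finset (Fin n)) = {q1 l', q2 l'} := congrArg Subtype.val hqq
  have heq : q1 l = q1 l' ∧ q2 l = q2 l' := by
    have h1 : q1 l ∈ ({q1 l', q2 l'} : Finset (Fin n)) := hset ▸ Finset.mem_insert_self _ _
    have h2 : q2 l ∈ ({q1 l', q2 l'} : Finset (Fin n)) :=
      hset ▸ Finset.mem_insert_of_mem (Finset.mem_singleton_self _)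
    rw [Finset.mem_insert, Finset.mem_singleton] at h1 h2
    have h3 := hq l
    have h4 := hq l'
    rcases h1 with h1 | h1 <;> rcases h2 with h2 | h2
    · rw [h1, h2] at h3
      exact absurd h3 (lt_irrefl _)
    · exact ⟨h1, h2⟩
    · rw [h1, h2] at h3
      exact absurd h4 (not_lt.2 h3.le)
    · rw [h1, h2] at h3
      exact absurd h3 (lt_irrefl _)
  have hMeq : M l = M l' := by
    have h1 := hML l
    have h2 := hML l'
    rw [← heq.1, ← heq.2] at h2
    exact h1.unique h2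
  have key : ∀ l l', l < l' → q1 l = q1 l' → q2 l = q2 l' → M l = M l' → False := by
    intro l l' hlt h1 h2 h3
    have h4 := hM l
    have h5 := hM l'
    rw [← h1, ← h2, ← h3] at h5
    exact hdisj l l' hlt (q1 l) (q2 l) (hq l) (M l) h4 h5
  rcases lt_or_gt_of_ne hll with h | h
  · exact key l l' h heq.1 heq.2 hMeq
  · exact key l' l h heq.1.symm heq.2.symm hMeq.symm

end Pool.Agent.V8H78.MP
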