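import Pool.Agent.V8H78.MP.GoodW
import Pool.Agent.V8H78.MP.LevW
import Pool.Agent.V8H78.MP.MainA

/-!
Zilber-Pink for affine images `t + s V` with large translations `t`, at one place (above any
prime), for families of sets `V` near a parameter for which the polar divisors are in general
position.
-/

set_option autoImplicit false
set_option linter.unusedSectionVars false

open Function MvPolynomial UpperHalfPlane H294ZP

namespace Pool.Agent.V8H78.MP

open Pool.Agent.Y226 Pool.Agent.W466.ZC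

/-- The main theorem over an algebraically closed field. -/
theorem mainW {k : Type} [Field k] [Algebra k ℂ] [IsAlgClosed k] [CharZero k] {κ : Type*}
    {N n m : ℕ} (G : κ → MvPolynomial (Fin (N + 1)) (Polynomial k))
    (hG : ∀ i, ∃ e, (G i).IsHomogeneous e)
    (A B : Fin n → MvPolynomial (Fin (N + 1)) (Polynomial k))
    (d : Fin n → ℕ) (hA : ∀ i, (A i).IsHomogeneous (d i)) (hB : ∀ i, (B i).IsHomogeneous (d i))
    (a : k) (a' : QA) (ha : algebraMap k ℂ a = rA a')
    (hdis : ∀ I : Finset (Fin n), I.card = m + 1 → ∀ y : Fin (N + 1) → ℂ,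
      (∀ i, evF (rA a') (G i) y = 0) → (∀ i ∈ I, evF (rA a') (B i) y = 0) → y = 0)
    {ι : Type*} [Finite ι] (Γ : ι → k) :
    ∃ W : ℕ, 0 < W ∧ ∀ p : ℕ, p.Prime →
      ∀ (C : Type) [NormedField C] [IsUltrametricDist C] [CompleteSpace C] [CharZero C]
      [IsAlgClosed C] (φ : QA →+* C), 0 < ‖(p : C)‖ → ‖(p : C)‖ < 1 →
      (¬ p ∣ W ∨ ∀ g, IsIntegral ℤ (algebraMap k ℂ (Γ g))) →
      ∀ w : QA, ‖φ (w - a')‖ < ‖(W : C)‖ → ∀ t s : Fin n → QA,
      (∀ i, max 1 ‖φ (s i / W)‖ < ‖φ (t i)‖) →
      ∀ (r : ℕ) (cls : Fin n → Option (Fin r)) (x : Fin n → ℂ),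
      (∀ i, cls i = none → IsIntegral (Algebra.adjoin ℤ (Set.range fun g => algebraMap k ℂ (Γ g)))
        (x i)) →
      (∀ i j l, cls i = some l → cls j = some l →
        ∃ (τ w : ℍ) (a b c d : ℤ), 0 < a * d - b * c ∧ (w : ℂ) * (c * τ + d) = a * τ + b ∧
          x i = jj τ ∧ x j = jj w) →
      ∀ y : Fin (N + 1) → ℂ, y ≠ 0 → (∀ i, evF (rA w) (G i) y = 0) →
      (∀ i, evF (rA w) (B i) y * (x i - rA (t i)) = rA (s i) * evF (rA w) (A i) y) →
      ∀ S : Finset (Fin n), AlgebraicIndependent k (fun i : S => x i) →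
        S.card + n ≤ r + m ∨ ∃ i j, i ≠ j ∧ (∃ l, cls i = some l ∧ cls j = some l) ∧
          ∃ M ∈ Lev (φ (t i)) (φ (s i / W)) (φ (t j)) (φ (s j / W)),
            PsiE ιZ (mP M) (mD M) (x i) (x j) = 0 := by
  classical
  obtain ⟨W, hW0, hD⟩ := goodW G hG A B d hA hB a (by rw [ha]; exact hdis) Γ
  refine ⟨W, hW0, fun p hp C _ _ _ _ _ φ hp0 hp1 hΓp w hw t s hts r cls x hconst hrel y hy0 hyG hxy
    S hS => ?_⟩
  have hfact : Fact p.Prime := ⟨hp⟩
  obtain ⟨V, hVa, hVb, hVΓ0, hVx, hVy⟩ := hD p hp C φ hp1 S _ hS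
  have hWC : (W : C) ≠ 0 := by exact_mod_cast hW0.ne'
  have hWn : 0 < ‖(W : C)‖ := norm_pos_iff.2 hWC
  have hWQ : (W : QA) ≠ 0 := by exact_mod_cast hW0.ne'
  have hWℂ : (W : ℂ) ≠ 0 := by exact_mod_cast hW0.ne'
  have hφW : φ (W : QA) = (W : C) := map_natCast φ W
  have hrW : rA (W : QA) = (W : ℂ) := map_natCast rA W
  have hvW0 : V.valuation (W : ℂ) ≠ 0 := (map_ne_zero V.valuation).2 hWℂ
  have hVΓ : ∀ g, algebraMap k ℂ (Γ g) ∈ V := by
    intro g
    rcases hΓp with hpW | hint
    · have h1 : ‖(W : C)‖ = 1 := by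
        have := int_unit (C := C) (p := p) hp1 (a := (W : ℤ)) (fun h => hpW (Int.natCast_dvd_natCast.1 h))
        rwa [Int.cast_natCast] at this
      have h2 : ‖φ ((W : QA)⁻¹)‖ ≤ 1 := by
        rw [map_inv₀, hφW, norm_inv, h1, inv_one]
      have h3 := hVa _ h2
      rw [map_inv₀, hrW] at h3
      have h4 : (W : ℂ)⁻¹ ∈ V := (ValuationSubring.valuation_le_one_iff _ _).1 h3
      have h5 := mul_mem h4 (hVΓ0 g)
      rwa [← mul_assoc, inv_mul_cancel₀ hWℂ, one_mul] at h5
    · obtain ⟨P, hP, hPe⟩ := hint g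
      have h1 : IsIntegral V (algebraMap k ℂ (Γ g)) := by
        refine ⟨P.map (Int.castRingHom V), hP.map _, ?_⟩
        rw [Polynomial.eval₂_map]
        have h2 : (algebraMap V ℂ).comp (Int.castRingHom V) = algebraMap ℤ ℂ :=
          RingHom.ext_int _ _
        rw [h2]
        exact hPe
      obtain ⟨y, hy⟩ := IsIntegrallyClosed.isIntegral_iff.1 h1
      rw [← hy]
      exact y.2
  -- integral elements
  have hΓ : ∀ z : ℂ, IsIntegral (Algebra.adjoin ℤ (Set.range fun g => algebraMap k ℂ (Γ g)))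
      z → z ∈ V := by
    intro z hz
    refine Pool.Agent.W466.ZC.mem_of_integral V ?_ hz
    intro w hw
    have hle : Algebra.adjoin ℤ (Set.range fun g => algebraMap k ℂ (Γ g)) ≤
        subalgebraOfSubring V.toSubring := by
      refine Algebra.adjoin_le ?_
      rintro _ ⟨g, rfl⟩
      exact hVΓ g
    exact hle hw
  have hint : ∀ i j l, cls i = some l → cls j = some l →
      IsIntegral (Algebra.adjoin ℤ {x i}) (x j) := by
    intro i j l hi hj
    obtain ⟨τ, w, a, b, c, d, hdet, hw, h1, h2⟩ := hrel i j l hi hj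
    rw [h1, h2]
    exact isogenous_integral τ w a b c d hdet hw
  have hV1 : ∀ i j l, cls i = some l → cls j = some l → x i ∈ V → x j ∈ V := by
    intro i j l hi hj h1
    exact H294ZP.mem_of_integral V h1 (hint i j l hi hj)
  -- the classes of the coordinates in `S`
  have hSsome : ∀ t : S, ∃ k, cls t = some k := by
    intro t
    cases hc : cls t with
    | none =>
      exfalso
      have h1 := hconst t hc
      have h2 : IsIntegral (Algebra.adjoin k (∅ : Set ℂ)) (x t) := by
        obtain ⟨P, hP, hPe⟩ := h1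
        have hle : ∀ z ∈ Algebra.adjoin ℤ (Set.range fun g => algebraMap k ℂ (Γ g)),
            z ∈ Algebra.adjoin k (∅ : Set ℂ) := by
          intro z hz
          have h9 : Algebra.adjoin ℤ (Set.range fun g => algebraMap k ℂ (Γ g)) ≤
              (Algebra.adjoin k (∅ : Set ℂ)).restrictScalars ℤ := by
            refine Algebra.adjoin_le ?_
            rintro _ ⟨g, rfl⟩
            exact (Algebra.adjoin k (∅ : Set ℂ)).algebraMap_mem (Γ g)
          exact h9 hz
        let φ : Algebra.adjoin ℤ (Set.range fun g => algebraMap k ℂ (Γ g)) →+*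
            Algebra.adjoin k (∅ : Set ℂ) :=
          (algebraMap (Algebra.adjoin ℤ (Set.range fun g => algebraMap k ℂ (Γ g))) ℂ).codRestrict
            (Algebra.adjoin k (∅ : Set ℂ)) (fun a => hle a a.2)
        refine ⟨P.map φ, hP.map _, ?_⟩
        have hc : (algebraMap (Algebra.adjoin k (∅ : Set ℂ)) ℂ).comp φ =
            algebraMap (Algebra.adjoin ℤ (Set.range fun g => algebraMap k ℂ (Γ g))) ℂ :=
          RingHom.ext fun _ => rfl
        rw [Polynomial.eval₂_map, hc]
        exact hPe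
      have h3 := hS.transcendental_adjoin (s := ∅) (i := t) (Set.notMem_empty t)
      rw [Set.image_empty] at h3
      exact h3 h2.isAlgebraic
    | some k => exact ⟨k, rfl⟩
  choose cl hcl using hSsome
  have hclinj : Function.Injective cl := by
    intro t t' htt
    by_contra hne
    exact not_algInd hS hne (hint t t' (cl t) (hcl t) (by rw [htt]; exact hcl t'))
  have hδ : V.valuation (rA w - algebraMap k ℂ a) < V.valuation (W : ℂ) := by
    have h1 : ‖φ ((w - a') / W)‖ < 1 := by
      rw [map_div₀, norm_div, hφW, div_lt_one hWn]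
      exact hw
    have h2 := hVb _ h1
    rw [map_div₀, map_div₀, hrW, map_sub, ← ha, div_lt_one₀ (zero_lt_iff.2 hvW0)] at h2
    exact h2
  have hI := hVy (rA w) hδ y hy0 hyG
  let Good : Fin n → Prop := fun i => evF (rA w) (B i) y ≠ 0 ∧
    ∃ g ∈ V, W * evF (rA w) (A i) y = g * evF (rA w) (B i) y
  let Ty : Finset (Fin n) := Finset.univ.filter fun i => Good i
  let E : Finset (Fin n) := Finset.univ.filter fun i => ¬ Good i
  have hcards : Ty.card + E.card = n := by
    have := Finset.card_filter_add_card_filter_not (s := (Finset.univ : Finset (Fin n)))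
      (fun i => Good i)
    rw [Finset.card_univ, Fintype.card_fin] at this
    exact this
  have hE : E.card ≤ m := by
    by_contra h
    push Not at h
    obtain ⟨I, hIE, hIc⟩ := Finset.exists_subset_card_eq (Nat.succ_le_of_lt h)
    obtain ⟨i, hi, h1⟩ := hI I hIc
    exact (Finset.mem_filter.1 (hIE hi)).2 h1
  have hnear : ∀ i ∈ Ty, 1 < V.valuation (x i) ∧
      ∃ (c : QA) (u : ℂ), u ∈ V ∧ x i = rA (t i) + rA c * u ∧ c ≠ 0 ∧
        max 1 ‖φ c‖ = max 1 ‖φ (s i / W)‖ := by
    intro i hi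
    obtain ⟨hB0, g, hg, hgA⟩ := (Finset.mem_filter.1 hi).2
    refine near_alg φ V hVa hVb (hts i) (α := g) (β := 1) hg (map_one _) ?_
    have h1 := hxy i
    have h2 : evF (rA w) (B i) y * ((W : ℂ) * (x i - rA (t i))) =
        evF (rA w) (B i) y * (rA (s i) * g) := by
      linear_combination (W : ℂ) * h1 + rA (s i) * hgA
    have h3 := mul_left_cancel₀ hB0 h2
    rw [one_mul, map_div₀, hrW, div_mul_eq_mul_div, eq_div_iff hWℂ]
    linear_combination h3
  let Fr : Finset (Option (Fin r)) := (Finset.univ.filter fun k : Fin r =>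
    k ∉ Finset.univ.image cl).image some
  have hFr : Fr.card + S.card = r := by
    have h1 : Fr.card = (Finset.univ.filter fun k : Fin r =>
        k ∉ Finset.univ.image cl).card :=
      Finset.card_image_of_injective _ (Option.some_injective _)
    have h2 : (Finset.univ.filter fun k : Fin r => k ∈ Finset.univ.image cl).card = S.card := by
      have h3 : (Finset.univ.filter fun k : Fin r => k ∈ Finset.univ.image cl) =
          Finset.univ.image cl := by
        ext k; simp
      rw [h3, Finset.card_image_of_injective _ hclinj, Finset.card_univ, Fintype.card_coe]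
    have := Finset.card_filter_add_card_filter_not (s := (Finset.univ : Finset (Fin r)))
      (fun k => k ∈ Finset.univ.image cl)
    rw [Finset.card_univ, Fintype.card_fin] at this
    rw [h1]
    omega
  have hmaps : ∀ i ∈ Ty, cls i ∈ Fr := by
    intro i hi
    have h1 := (hnear i hi).1
    cases hc : cls i with
    | none =>
      have h2 := hΓ (x i) (hconst i hc)
      rw [← ValuationSubring.valuation_le_one_iff] at h2
      exact absurd h1 (not_lt.2 h2)
    | some k =>
      refine Finset.mem_image_of_mem _ (Finset.mem_filter.2 ⟨Finset.mem_univ _, ?_⟩)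
      intro hk
      obtain ⟨t, -, ht⟩ := Finset.mem_image.1 hk
      have h3 := hV1 t i k (ht ▸ hcl t) hc (hVx t)
      rw [← ValuationSubring.valuation_le_one_iff] at h3
      exact absurd h1 (not_lt.2 h3)
  rcases le_or_gt (S.card + n) (r + m) with hcon | hcon
  · exact Or.inl hcon
  right
  obtain ⟨i, hi, i', hi', hne, hcls⟩ := Finset.exists_ne_map_eq_of_card_lt_of_maps_to
    (s := Ty) (t := Fr) (by omega) (f := cls) hmaps
  obtain ⟨k, -, hk⟩ := Finset.mem_image.1 (hmaps i hi)
  obtain ⟨τ, w, a1, b1, c1, d1, hdet, hw, e1, e2⟩ := hrel i i' k hk.symm (hcls ▸ hk.symm)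
  obtain ⟨M, hM⟩ : ∃ M : ℕ, (M : ℤ) = a1 * d1 - b1 * c1 := ⟨(a1 * d1 - b1 * c1).toNat, by omega⟩
  have hM0 : 0 < M := by
    have : (0 : ℤ) < M := by rw [hM]; exact hdet
    exact_mod_cast this
  obtain ⟨-, -, -, -, -, -, -, -, -, -, h5⟩ := modular_spec M hM0
  have hPsi := h5 τ w a1 b1 c1 d1 hM.symm hw
  rw [← e1, ← e2] at hPsi
  obtain ⟨-, c, u, hu, hxu, -, hcs⟩ := hnear i hi
  obtain ⟨-, c', u', hu', hxu', hc', hcs'⟩ := hnear i' hi'
  rw [hxu, hxu'] at hPsi
  obtain ⟨M', hM', hM'0⟩ := pairVA2 φ hp0 hp1 V hVb hM0 (by rw [hcs]; exact hts i)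
    (by rw [hcs']; exact hts i') hc' hu hu' hPsi
  refine ⟨i, i', hne, ⟨k, hk.symm, hcls ▸ hk.symm⟩, M', ?_, by rw [hxu, hxu']; exact hM'0⟩
  unfold Lev LevData at hM' ⊢
  rwa [hcs, hcs'] at hM'

end Pool.Agent.V8H78.MP
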