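import Pool.Agent.Y226.ZP.Emb

/-!
Polynomials in two variables without zeros in the closed unit polydisc of an algebraically closed
ultrametric field have a dominating constant coefficient; transfer to valuation rings of `ℂ`.
-/

set_option autoImplicit false
set_option linter.unusedSectionVars false

namespace Pool.Agent.V8H78.MP

open Polynomial Pool.Agent.Y226

section one

variable {C : Type} [NormedField C] [IsUltrametricDist C]

/-- polynomials with dominating constant coefficient of norm one -/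
def Dom (f : C[X]) : Prop := ‖f.coeff 0‖ = 1 ∧ ∀ j, 0 < j → ‖f.coeff j‖ < 1

theorem Dom.mul {f g : C[X]} (hf : Dom f) (hg : Dom g) : Dom (f * g) := by
  refine ⟨?_, ?_⟩
  · rw [mul_coeff_zero, norm_mul, hf.1, hg.1, one_mul]
  · intro j hj
    rw [coeff_mul]
    refine Finset.sum_induction _ (fun x => ‖x‖ < 1) (fun a b ha hb => nadd_lt ha hb) (by simp) ?_
    rintro ⟨a, b⟩ hab
    replace hab := Finset.HasAntidiagonal.mem_antidiagonal.1 hab
    simp only at hab ⊢
    rw [norm_mul]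
    have h1 : ‖f.coeff a‖ ≤ 1 := by
      rcases Nat.eq_zero_or_pos a with rfl | ha
      · exact hf.1.le
      · exact (hf.2 a ha).le
    have h2 : ‖g.coeff b‖ ≤ 1 := by
      rcases Nat.eq_zero_or_pos b with rfl | hb
      · exact hg.1.le
      · exact (hg.2 b hb).le
    rcases Nat.eq_zero_or_pos a with ha | ha
    · have hb : 0 < b := by omega
      calc ‖f.coeff a‖ * ‖g.coeff b‖ ≤ 1 * ‖g.coeff b‖ :=
            mul_le_mul_of_nonneg_right h1 (norm_nonneg _)
        _ < 1 := by rw [one_mul]; exact hg.2 b hb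
    · calc ‖f.coeff a‖ * ‖g.coeff b‖ ≤ ‖f.coeff a‖ * 1 :=
            mul_le_mul_of_nonneg_left h2 (norm_nonneg _)
        _ < 1 := by rw [mul_one]; exact hf.2 a ha

theorem Dom.one : Dom (1 : C[X]) := by
  refine ⟨by simp, fun j hj => ?_⟩
  rw [coeff_one, if_neg (by omega)]
  simp

theorem Dom.lin {a : C} (ha : 1 < ‖a‖) : Dom (1 - Polynomial.C a⁻¹ * X : C[X]) := by
  refine ⟨by simp, fun j hj => ?_⟩
  rw [coeff_sub, coeff_one, if_neg (by omega), zero_sub, norm_neg, coeff_C_mul, coeff_X]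
  split_ifs with h
  · rw [mul_one, norm_inv]
    exact inv_lt_one_of_one_lt₀ ha
  · simp

theorem exists_dom (s : Multiset C) (hs : ∀ a ∈ s, 1 < ‖a‖) :
    ∃ (c : C) (g : C[X]), c ≠ 0 ∧ Dom g ∧ (s.map fun a => X - Polynomial.C a).prod =
      Polynomial.C c * g := by
  induction s using Multiset.induction with
  | empty => exact ⟨1, 1, one_ne_zero, Dom.one, by simp⟩
  | cons a s ih =>
    obtain ⟨c, g, hc, hg, h⟩ := ih fun b hb => hs b (Multiset.mem_cons_of_mem hb)
    have ha := hs a (Multiset.mem_cons_self a s)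
    have ha0 : a ≠ 0 := norm_pos_iff.1 (one_pos.trans ha)
    refine ⟨-a * c, (1 - Polynomial.C a⁻¹ * X) * g, mul_ne_zero (neg_ne_zero.2 ha0) hc,
      (Dom.lin ha).mul hg, ?_⟩
    rw [Multiset.map_cons, Multiset.prod_cons, h]
    have h1 : (X - Polynomial.C a : C[X]) = Polynomial.C (-a) * (1 - Polynomial.C a⁻¹ * X) := by
      rw [mul_sub, mul_one, ← mul_assoc, ← Polynomial.C_mul, neg_mul, mul_inv_cancel₀ ha0,
        Polynomial.C_neg, Polynomial.C_neg, Polynomial.C_1]
      ring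
    rw [h1, Polynomial.C_mul]
    ring

/-- one variable -/
theorem lemA [IsAlgClosed C] {f : C[X]} (h : ∀ x, ‖x‖ ≤ 1 → f.eval x ≠ 0) :
    ∀ j, 0 < j → ‖f.coeff j‖ < ‖f.coeff 0‖ := by
  have hf0 : f ≠ 0 := by
    rintro rfl
    exact h 0 (by simp) (by simp)
  have hsplit := IsAlgClosed.splits f
  have hprod := hsplit.eq_prod_roots
  obtain ⟨c, g, hc, hg, hcg⟩ := exists_dom f.roots fun a ha => by
    by_contra hcon
    push Not at hcon
    exact h a hcon ((mem_roots hf0).1 ha)
  rw [hcg, ← mul_assoc, ← Polynomial.C_mul] at hprod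
  have hlc : f.leadingCoeff * c ≠ 0 := mul_ne_zero (leadingCoeff_ne_zero.2 hf0) hc
  intro j hj
  generalize f.leadingCoeff * c = b at hprod hlc
  rw [hprod, coeff_C_mul, coeff_C_mul, norm_mul, norm_mul, hg.1]
  exact mul_lt_mul_of_pos_left (hg.2 j hj) (norm_pos_iff.2 hlc)

/-- value of a polynomial whose constant coefficient dominates -/
theorem eval_lt {f : C[X]} {r : ℝ} (hr : 0 < r) (hf : ∀ j, ‖f.coeff j‖ < r) {x : C} (hx : ‖x‖ ≤ 1) :
    ‖f.eval x‖ < r := by
  rw [eval_eq_sum_range]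
  refine Finset.sum_induction _ (fun x => ‖x‖ < r) (fun a b ha hb => nadd_lt ha hb) (by simpa) ?_
  intro j _
  rw [norm_mul, norm_pow]
  calc ‖f.coeff j‖ * ‖x‖ ^ j ≤ ‖f.coeff j‖ * 1 :=
        mul_le_mul_of_nonneg_left (pow_le_one₀ (norm_nonneg _) hx) (norm_nonneg _)
    _ < r := by rw [mul_one]; exact hf j

theorem eval_eq_of_dom {f : C[X]} (h0 : f.coeff 0 ≠ 0)
    (hf : ∀ j, 0 < j → ‖f.coeff j‖ < ‖f.coeff 0‖) {x : C} (hx : ‖x‖ ≤ 1) :
    ‖f.eval x‖ = ‖f.coeff 0‖ := by
  have h1 : ‖(f - Polynomial.C (f.coeff 0)).eval x‖ < ‖f.coeff 0‖ := by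
    refine eval_lt (norm_pos_iff.2 h0) (fun j => ?_) hx
    rcases Nat.eq_zero_or_pos j with rfl | hj
    · simpa using h0
    · rw [coeff_sub, coeff_C, if_neg (by omega), sub_zero]
      exact hf j hj
  rw [eval_sub, eval_C] at h1
  exact neq_of_sub_lt h1

/-- evaluation of a polynomial in two variables -/
noncomputable def ev {R S : Type*} [CommRing R] [CommRing S] (f : R →+* S) (F : R[X][X])
    (u w : S) : S := F.eval₂ (eval₂RingHom f u) w

/-- two variables -/
theorem lemC [IsAlgClosed C] {F : C[X][X]}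
    (h : ∀ u w, ‖u‖ ≤ 1 → ‖w‖ ≤ 1 → ev (RingHom.id C) F u w ≠ 0) :
    (F.coeff 0).coeff 0 ≠ 0 ∧
    ∀ j i, (j, i) ≠ (0, 0) → ‖(F.coeff j).coeff i‖ < ‖(F.coeff 0).coeff 0‖ := by
  have hev : ∀ u w, ev (RingHom.id C) F u w = (F.map (evalRingHom u)).eval w := by
    intro u w
    rw [ev, eval_map]
    rfl
  have h1 : ∀ u, ‖u‖ ≤ 1 → ∀ j, 0 < j → ‖(F.coeff j).eval u‖ < ‖(F.coeff 0).eval u‖ := by
    intro u hu j hj
    have := lemA (f := F.map (evalRingHom u)) (fun w hw => by
      rw [← hev]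
      exact h u w hu hw) j hj
    rwa [coeff_map, coeff_map] at this
  have h2 : ∀ u, ‖u‖ ≤ 1 → (F.coeff 0).eval u ≠ 0 := by
    intro u hu h0
    have := h u 0 hu (by simp)
    rw [hev, ← coeff_zero_eq_eval_zero, coeff_map] at this
    exact this h0
  have h00 : (F.coeff 0).coeff 0 ≠ 0 := by
    have := h2 0 (by simp)
    rwa [← coeff_zero_eq_eval_zero] at this
  have h3 := lemA h2
  refine ⟨h00, fun j i hji => ?_⟩
  rcases Nat.eq_zero_or_pos j with rfl | hj
  · exact h3 i (Nat.pos_of_ne_zero fun h => hji (by rw [h]))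
  · have h4 : ∀ u, ‖u‖ ≤ 1 → ‖(F.coeff j).eval u‖ < ‖(F.coeff 0).coeff 0‖ := by
      intro u hu
      rw [← eval_eq_of_dom h00 h3 hu]
      exact h1 u hu j hj
    have h5 : ∀ u, ‖u‖ ≤ 1 → (F.coeff j - Polynomial.C ((F.coeff 0).coeff 0)).eval u ≠ 0 := by
      intro u hu h0
      rw [eval_sub, eval_C, sub_eq_zero] at h0
      have := h4 u hu
      rw [h0] at this
      exact lt_irrefl _ this
    have h6 : ‖(F.coeff j).coeff 0‖ < ‖(F.coeff 0).coeff 0‖ := by
      have := h4 0 (by simp)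
      rwa [← coeff_zero_eq_eval_zero] at this
    rcases Nat.eq_zero_or_pos i with rfl | hi
    · exact h6
    · have h7 := lemA h5 i hi
      rw [coeff_sub, coeff_C, if_neg (by omega), sub_zero, coeff_sub, coeff_C_zero] at h7
      have h8 : ‖(F.coeff j).coeff 0 - (F.coeff 0).coeff 0‖ = ‖(F.coeff 0).coeff 0‖ := by
        rw [norm_sub_rev, sub_eq_add_neg]
        exact neq_of_add_lt (by rwa [norm_neg])
      rwa [h8] at h7

end one

/-- transfer from an ultrametric field to a valuation ring of `ℂ` -/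
theorem transfer {C : Type} [NormedField C] [IsUltrametricDist C] [IsAlgClosed C] (φ : QA →+* C)
    (V : ValuationSubring ℂ) (hV : ∀ r : QA, ‖φ r‖ < 1 → V.valuation (rA r) < 1) (F : QA[X][X])
    (hno : ∀ u w : C, ‖u‖ ≤ 1 → ‖w‖ ≤ 1 → ev φ F u w ≠ 0) {u w : ℂ} (hu : u ∈ V) (hw : w ∈ V) :
    ev rA F u w ≠ 0 := by
  have hmap : ∀ u w : C, ev (RingHom.id C) (F.map (mapRingHom φ)) u w = ev φ F u w := by
    intro u w
    rw [ev, ev, eval₂_map]
    congr 1
    refine RingHom.ext fun q => ?_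
    simp [eval₂_map]
  obtain ⟨h00, hdom⟩ := lemC (F := F.map (mapRingHom φ)) fun u w hu hw => by
    rw [hmap]
    exact hno u w hu hw
  rw [coeff_map, coe_mapRingHom, coeff_map] at h00
  set c := (F.coeff 0).coeff 0 with hc
  have hc0 : c ≠ 0 := fun h => h00 (by rw [h, map_zero])
  have hVc : V.valuation (rA c) ≠ 0 := by
    rw [Valuation.ne_zero_iff, Ne, map_eq_zero]
    exact hc0
  have hlt : ∀ j i, (j, i) ≠ (0, 0) → V.valuation (rA ((F.coeff j).coeff i)) <
      V.valuation (rA c) := by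
    intro j i hji
    have h1 := hdom j i hji
    rw [coeff_map, coe_mapRingHom, coeff_map, coeff_map, coe_mapRingHom, coeff_map] at h1
    have h2 : ‖φ ((F.coeff j).coeff i / c)‖ < 1 := by
      rw [map_div₀, norm_div, div_lt_one (norm_pos_iff.2 h00)]
      exact h1
    have h3 := hV _ h2
    rw [map_div₀, map_div₀, div_lt_one₀ (zero_lt_iff.2 hVc)] at h3
    exact h3
  have hu1 : V.valuation u ≤ 1 := (V.valuation_le_one_iff _).2 hu
  have hw1 : V.valuation w ≤ 1 := (V.valuation_le_one_iff _).2 hw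
  -- the value of `F - c`
  have hval : V.valuation (ev rA (F - Polynomial.C (Polynomial.C c)) u w) <
      V.valuation (rA c) := by
    rw [ev, eval₂_eq_sum_range]
    refine Valuation.map_sum_lt _ hVc fun j _ => ?_
    rw [map_mul, map_pow]
    refine (mul_le_of_le_one_right' (pow_le_one' hw1 _)).trans_lt ?_
    rw [coe_eval₂RingHom, eval₂_eq_sum_range]
    refine Valuation.map_sum_lt _ hVc fun i _ => ?_
    rw [map_mul, map_pow]
    refine (mul_le_of_le_one_right' (pow_le_one' hu1 _)).trans_lt ?_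
    by_cases hji : (j, i) = (0, 0)
    · rw [Prod.mk.injEq] at hji
      rw [hji.1, hji.2, coeff_sub, coeff_C_zero, coeff_sub, coeff_C_zero, ← hc, sub_self, map_zero,
        map_zero]
      exact zero_lt_iff.2 hVc
    · have h1 : ((F - Polynomial.C (Polynomial.C c)).coeff j).coeff i = (F.coeff j).coeff i := by
        rw [coeff_sub, coeff_sub]
        rcases Nat.eq_zero_or_pos j with rfl | hj
        · rw [coeff_C_zero, coeff_C, if_neg (fun h => hji (by rw [h])), sub_zero]
        · rw [coeff_C, if_neg (by omega), coeff_zero, sub_zero]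
      rw [h1]
      exact hlt j i hji
  intro h0
  have h1 : ev rA (F - Polynomial.C (Polynomial.C c)) u w = ev rA F u w - rA c := by
    simp only [ev]
    rw [eval₂_sub, eval₂_C, coe_eval₂RingHom, eval₂_C]
  rw [h1, h0, zero_sub, Valuation.map_neg] at hval
  exact lt_irrefl _ hval

end Pool.Agent.V8H78.MP
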