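import Pool.Agent.V8H78.MP.NonVan
import Pool.Agent.Y226.ZP.Modular
import Pool.Agent.Y226.ZP.Contact

/-!
Isogenous `j`-invariants close to rational numbers of large `p`-adic size.
-/

set_option autoImplicit false
set_option linter.unusedSectionVars false

namespace Pool.Agent.V8H78.MP

open Polynomial UpperHalfPlane H294ZP Pool.Agent.Y226

section tate

variable {C : Type} [NormedField C] [IsUltrametricDist C] [CompleteSpace C] [CharZero C]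
  [IsAlgClosed C] {ψ : ZZ →+* C} (hψ : ∀ z, ‖ψ z‖ ≤ 1)

include hψ

/-- the relation between the Tate parameters of isogenous curves -/
theorem tate_pow {N : ℕ} (hN : 0 < N) {x y : C} (h : PsiE ψ (mP N) (mD N) x y = 0)
    (hx : 1 < ‖x‖) : ∃ α δ : ℕ, 0 < α ∧ 0 < δ ∧ 1 < ‖y‖ ∧ qT ψ y ^ δ = qT ψ x ^ α := by
  have hq1 := qT_lt hψ hx
  have hq0 := qT_ne hψ hx
  obtain ⟨Q, hQ⟩ := IsAlgClosed.exists_pow_nat_eq (qT ψ x) hN
  have hQ0 : Q ≠ 0 := by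
    rintro rfl
    rw [zero_pow hN.ne'] at hQ
    exact hq0 hQ.symm
  have hQ1 : ‖Q‖ < 1 := by
    by_contra hcon
    push Not at hcon
    have : 1 ≤ ‖Q ^ N‖ := by rw [norm_pow]; exact one_le_pow₀ hcon
    rw [hQ] at this
    exact absurd hq1 (not_lt.2 this)
  have hJX : JC ψ (Q ^ N) = x := by rw [hQ]; exact JC_qT hψ hx
  rw [← hJX] at h
  obtain ⟨α, δ, β, hα, hδ, hαδ, hYe⟩ := psi_roots hψ hN hQ0 hQ1 h
  have huu : ψ (eZ β δ hδ) * ψ (eZ (-β) δ hδ) = 1 := by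
    rw [← map_mul, eZ_mul, map_one]
  have hu0 : ψ (eZ β δ hδ) ≠ 0 := left_ne_zero_of_mul_eq_one huu
  have hz0 : ψ (eZ β δ hδ) * Q ^ (α ^ 2) ≠ 0 := mul_ne_zero hu0 (pow_ne_zero _ hQ0)
  have hz1 : ‖ψ (eZ β δ hδ) * Q ^ (α ^ 2)‖ < 1 :=
    (nmul_le (hψ _) le_rfl).trans_lt (by
      rw [norm_pow]; exact pow_lt_one₀ (norm_nonneg _) hQ1 (pow_ne_zero _ hα.ne'))
  have hqY : qT ψ y = ψ (eZ β δ hδ) * Q ^ (α ^ 2) := by
    rw [hYe]; exact qT_JC hψ hz1 hz0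
  have heδ : (eZ β δ hδ) ^ δ = 1 := by
    apply Subtype.ext
    show (Complex.exp (2 * Real.pi * Complex.I * β / δ)) ^ δ = 1
    rw [← Complex.exp_nat_mul]
    have e3 : (δ : ℂ) ≠ 0 := by exact_mod_cast hδ.ne'
    have : (δ : ℂ) * (2 * Real.pi * Complex.I * β / δ) = β * (2 * Real.pi * Complex.I) := by
      field_simp
    rw [this, Complex.exp_int_mul_two_pi_mul_I]
  refine ⟨α, δ, hα, hδ, by rw [hYe]; exact JC_norm hψ hz1 hz0, ?_⟩
  rw [hqY, mul_pow, ← map_pow, heδ, map_one, one_mul, ← pow_mul, ← hQ, ← pow_mul]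
  congr 1
  rw [← hαδ]
  ring

end tate

section wief

variable {C : Type} [NormedField C] [IsUltrametricDist C] [CharZero C]
variable {p : ℕ} [hpf : Fact p.Prime]

/-- Fermat -/
theorem fermat_int {a : ℤ} (ha : ¬ (p : ℤ) ∣ a) : ‖(a : C) ^ (p - 1) - 1‖ ≤ ‖(p : C)‖ := by
  have h1 : ((a : ZMod p)) ≠ 0 := by
    rwa [Ne, ZMod.intCast_zmod_eq_zero_iff_dvd]
  have h2 := ZMod.pow_card_sub_one_eq_one h1
  have h3 : ((a ^ (p - 1) - 1 : ℤ) : ZMod p) = 0 := by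
    push_cast
    rw [h2, sub_self]
  rw [ZMod.intCast_zmod_eq_zero_iff_dvd] at h3
  obtain ⟨b, hb⟩ := h3
  have h4 : (a : C) ^ (p - 1) - 1 = p * b := by
    have := congrArg (Int.cast : ℤ → C) hb
    push_cast at this
    exact this
  rw [h4]
  exact nmul_le' le_rfl (nint b)

theorem unit_num {η : ℚ} (hp1 : ‖(p : C)‖ < 1) (h : ‖(η : C)‖ = 1) :
    ¬ (p : ℤ) ∣ η.num ∧ ¬ (p : ℤ) ∣ (η.den : ℤ) := by
  have hη : (η : C) = (η.num : C) / (η.den : C) := by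
    conv_lhs => rw [← Rat.num_div_den η]
    push_cast
    rfl
  have hden0 : (η.den : C) ≠ 0 := by exact_mod_cast η.den_nz
  have hcop : ¬ ((p : ℤ) ∣ η.num ∧ (p : ℤ) ∣ (η.den : ℤ)) := by
    rintro ⟨h1, h2⟩
    have h3 := Nat.dvd_gcd (Int.natCast_dvd.1 h1) (Int.natCast_dvd_natCast.1 h2)
    rw [η.reduced] at h3
    exact hpf.out.one_lt.ne' (Nat.dvd_one.1 h3)
  have hdvd : ∀ z : ℤ, (p : ℤ) ∣ z → ‖(z : C)‖ < 1 := by
    rintro _ ⟨b, rfl⟩
    push_cast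
    exact (nmul_le' le_rfl (nint b)).trans_lt hp1
  have heq : ‖(η.num : C)‖ = ‖((η.den : ℤ) : C)‖ := by
    rw [hη, norm_div, div_eq_one_iff_eq (norm_ne_zero_iff.2 hden0)] at h
    rw [h]
    push_cast
    rfl
  constructor
  · intro h1
    have h2 : ¬ (p : ℤ) ∣ (η.den : ℤ) := fun h => hcop ⟨h1, h⟩
    have h3 := hdvd _ h1
    rw [heq, int_unit hp1 h2] at h3
    exact lt_irrefl _ h3
  · intro h1
    have h2 : ¬ (p : ℤ) ∣ η.num := fun h => hcop ⟨h, h1⟩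
    have h3 := hdvd _ h1
    rw [← heq, int_unit hp1 h2] at h3
    exact lt_irrefl _ h3

theorem fermat_rat {η : ℚ} (hp1 : ‖(p : C)‖ < 1) (h : ‖(η : C)‖ = 1) :
    ‖(η : C) ^ (p - 1) - 1‖ ≤ ‖(p : C)‖ := by
  obtain ⟨h1, h2⟩ := unit_num hp1 h
  have hη : (η : C) = (η.num : C) / ((η.den : ℤ) : C) := by
    conv_lhs => rw [← Rat.num_div_den η]
    push_cast
    rfl
  have hd1 := int_unit hp1 h2
  have hd0 : ((η.den : ℤ) : C) ^ (p - 1) ≠ 0 := by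
    apply pow_ne_zero
    rw [← norm_pos_iff, hd1]
    exact one_pos
  have e : (η : C) ^ (p - 1) - 1 = (((η.num : C) ^ (p - 1) - 1) - (((η.den : ℤ) : C) ^ (p - 1) - 1)) *
      (((η.den : ℤ) : C) ^ (p - 1))⁻¹ := by
    rw [hη, div_pow]
    field_simp
    ring
  rw [e]
  refine nmul_le' (nsub_le (fermat_int h1) (fermat_int h2)) ?_
  rw [norm_inv, norm_pow, hd1, one_pow, inv_one]

/-- a root of unity close to a rational number -/
theorem wieferich (hp2 : p ≠ 2) (hp1 : ‖(p : C)‖ < 1) {ζ : C} {g : ℕ} (hg : 0 < g)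
    (hζ : ζ ^ g = 1) {η : ℚ} (hη : ‖(η : C)‖ = 1) {δ : ℝ} (hδ : δ ≤ ‖(p : C)‖)
    (h : ‖ζ - η‖ ≤ δ) : ‖(η : C) ^ (p - 1) - 1‖ ≤ δ := by
  have hζn : ‖ζ‖ = 1 := by
    have h1 : ‖ζ‖ ^ g = 1 := by rw [← norm_pow, hζ, norm_one]
    exact (pow_eq_one_iff_of_nonneg (norm_nonneg _) hg.ne').1 h1
  have hζfin : IsOfFinOrder ζ := isOfFinOrder_iff_pow_eq_one.2 ⟨g, hg, hζ⟩
  obtain ⟨g', s, ζ', ε, hgg, hg'p, hζ', hε, hζe⟩ := root_decomp (p := p) hζfin.orderOf_pos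
    (IsPrimitiveRoot.orderOf ζ)
  have hpow : ‖ζ ^ (p - 1) - (η : C) ^ (p - 1)‖ ≤ δ := npow_sub_pow hζn.le hη.le h _
  have h1 : ‖ζ ^ (p - 1) - 1‖ ≤ ‖(p : C)‖ := by
    have : ζ ^ (p - 1) - 1 = (ζ ^ (p - 1) - (η : C) ^ (p - 1)) + ((η : C) ^ (p - 1) - 1) := by ring
    rw [this]
    exact nadd_le (hpow.trans hδ) (fermat_rat hp1 hη)
  have hε1 : ‖ε - 1‖ < 1 := ppow_root_lt hp1 hε.pow_eq_one
  have hεn : ‖ε‖ = 1 := neq_one hε1 norm_one
  have hεp : ‖ε ^ (p - 1) - 1‖ < 1 := by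
    have := npow_sub_pow hεn.le (norm_one (α := C)).le (le_refl ‖ε - 1‖) (p - 1)
    rw [one_pow] at this
    exact this.trans_lt hε1
  have hg'0 : 0 < g' := Nat.pos_of_ne_zero (by
    rintro rfl
    rw [zero_mul] at hgg
    exact hζfin.orderOf_pos.ne' hgg)
  have hζ'n : ‖ζ'‖ = 1 := by
    have h1 : ‖ζ'‖ ^ g' = 1 := by rw [← norm_pow, hζ'.pow_eq_one, norm_one]
    exact (pow_eq_one_iff_of_nonneg (norm_nonneg _) hg'0.ne').1 h1
  have hζ'p : ζ' ^ (p - 1) = 1 := by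
    refine tame_eq_one (m := g') ?_ ?_ ?_
    · have : ¬ (p : ℤ) ∣ (g' : ℤ) := by
        intro h
        have h2 := Int.natCast_dvd_natCast.1 h
        have h3 := Nat.dvd_gcd h2 (dvd_refl p)
        rw [hg'p] at h3
        exact hpf.out.one_lt.ne' (Nat.dvd_one.1 h3)
      have := int_unit (C := C) hp1 this
      push_cast at this
      exact this
    · rw [← pow_mul, mul_comm, pow_mul, hζ'.pow_eq_one, one_pow]
    · have e : ζ' ^ (p - 1) - 1 = (ζ ^ (p - 1) - 1) - ζ' ^ (p - 1) * (ε ^ (p - 1) - 1) := by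
        rw [hζe, mul_pow]; ring
      rw [e]
      refine nsub_lt (h1.trans_lt hp1) ?_
      rw [norm_mul, norm_pow, hζ'n, one_pow, one_mul]
      exact hεp
  have hs : s = 0 := by
    by_contra hs
    obtain ⟨s', rfl⟩ : ∃ s', s = s' + 1 := ⟨s - 1, by omega⟩
    have hcop : (p - 1).Coprime (p ^ (s' + 1)) := by
      apply Nat.Coprime.pow_right
      have := Nat.coprime_self_sub_left (n := p) (m := 1) hpf.out.one_lt.le
      rw [this]
      exact Nat.coprime_one_left p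
    have hprim := hε.pow_of_coprime (p - 1) hcop
    have h2 : ε ^ (p - 1) = ζ ^ (p - 1) := by rw [hζe, mul_pow, hζ'p, one_mul]
    have h3 := ppow_root_norm_aux hp2 hp1 hprim
    have h4 : (ε ^ (p - 1)) ^ p ^ s' ≠ 1 := hprim.pow_ne_one_of_pos_of_lt
      (pow_pos hpf.out.pos s').ne' (Nat.pow_lt_pow_right hpf.out.one_lt (Nat.lt_succ_self s'))
    have h5 : ((ε ^ (p - 1)) ^ p ^ s') ^ p = 1 := by
      rw [← pow_mul, ← pow_succ]; exact hprim.pow_eq_one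
    have h6 := p_lt_root hp2 hp1 h5 h4
    rw [← h3] at h6
    have h7 : ‖ε ^ (p - 1) - 1‖ ^ p ^ s' ≤ ‖ε ^ (p - 1) - 1‖ :=
      pow_le_of_le_one (norm_nonneg _) hεp.le (pow_pos hpf.out.pos s').ne'
    rw [h2] at h7 h6
    exact absurd (h6.trans_le h7) (not_lt.2 h1)
  subst hs
  rw [pow_zero, IsPrimitiveRoot.one_right_iff] at hε
  have h2 : ζ ^ (p - 1) = 1 := by rw [hζe, hε, mul_one, hζ'p]
  rw [h2, norm_sub_rev] at hpow
  exact hpow

end wief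

end Pool.Agent.V8H78.MP
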