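import Pool.Agent.V8H78.MP.NonVan

/-!
Transfer of implications between polynomial equations in two variables from the closed unit
polydisc of an algebraically closed ultrametric field to a valuation ring of `ℂ`.
-/

set_option autoImplicit false
set_option linter.unusedSectionVars false

namespace Pool.Agent.V8H78.MP

open Polynomial Pool.Agent.Y226

/-- evaluation as a ring homomorphism -/
noncomputable def evHom {R S : Type*} [CommRing R] [CommRing S] (f : R →+* S) (u w : S) :
    R[X][X] →+* S := eval₂RingHom (eval₂RingHom f u) w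

theorem evHom_apply {R S : Type*} [CommRing R] [CommRing S] (f : R →+* S) (F : R[X][X])
    (u w : S) : evHom f u w F = ev f F u w := rfl

/-- an irreducible factor at a zero -/
theorem exists_factor {R S : Type*} [CommRing R] [IsDomain R] [WfDvdMonoid R] [CommRing S]
    [IsDomain S] (f : R →+* S) {F : R} (hF : F ≠ 0) (h : f F = 0) :
    ∃ P, Irreducible P ∧ P ∣ F ∧ f P = 0 := by
  obtain ⟨s, hs, hsF⟩ := WfDvdMonoid.exists_factors F hF
  obtain ⟨c, hc⟩ := hsF
  have h1 : f s.prod = 0 := by
    rw [← hc, map_mul] at h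
    rcases mul_eq_zero.1 h with h | h
    · exact h
    · exact absurd h ((c.isUnit.map f).ne_zero)
  rw [map_multiset_prod, Multiset.prod_eq_zero_iff, Multiset.mem_map] at h1
  obtain ⟨P, hP, hP0⟩ := h1
  refine ⟨P, hs P hP, ?_, hP0⟩
  rw [← hc]
  exact (Multiset.dvd_prod hP).mul_right _

section

variable {C : Type} [NormedField C] [IsUltrametricDist C] [IsAlgClosed C]

/-- Near a zero of a polynomial, monic in the second variable, there are zeros for infinitely many
values of the first variable. -/
theorem infinite_zeros (φ : QA →+* C) {π : C} (hπ0 : π ≠ 0) (hπ : ‖π‖ < 1) {P : QA[X][X]}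
    (hP : P.Monic) (hdeg : 0 < P.natDegree) {a b : C} (ha : ‖a‖ ≤ 1) (hb : ‖b‖ ≤ 1)
    (h : ev φ P a b = 0) :
    {a' : C | ‖a'‖ ≤ 1 ∧ ∃ b', ‖b'‖ ≤ 1 ∧ ev φ P a' b' = 0}.Infinite := by
  -- the polynomial in the second variable, centered at `b`
  let q : C → C[X] := fun a' => (P.map (eval₂RingHom φ a')).comp (X + Polynomial.C b)
  have hq : ∀ a' w, (q a').eval w = ev φ P a' (b + w) := by
    intro a' w
    simp only [q]
    rw [eval_comp, eval_add, eval_X, eval_C, eval_map, add_comm w b]
    rfl
  have hqm : ∀ a', (q a').Monic := fun a' => (hP.map _).comp_X_add_C b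
  have hqd : ∀ a', (q a').natDegree = P.natDegree := by
    intro a'
    simp only [q]
    rw [natDegree_comp, natDegree_X_add_C, mul_one, hP.natDegree_map]
  -- the constant coefficient is a polynomial in `a'`
  let hpol : C[X] := P.eval₂ (mapRingHom φ) (Polynomial.C b)
  have hh : ∀ a', (q a').coeff 0 = hpol.eval a' := by
    intro a'
    rw [coeff_zero_eq_eval_zero, hq, add_zero]
    simp only [hpol, ev]
    rw [← coe_evalRingHom, hom_eval₂, coe_evalRingHom, eval_C]
    congr 1
    refine RingHom.ext fun r => ?_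
    simp [eval₂_eq_eval_map]
  have hh0 : hpol.eval a = 0 := by
    rw [← hh, coeff_zero_eq_eval_zero, hq, add_zero]
    exact h
  have hroot : ∀ a', ‖hpol.eval a'‖ < 1 → ∃ b', ‖b'‖ ≤ 1 ∧ ev φ P a' b' = 0 := by
    intro a' ha'
    by_contra hcon
    push Not at hcon
    have h1 := lemA (f := q a') (fun w hw => by
      rw [hq]
      exact hcon _ (nadd_le hb hw)) P.natDegree hdeg
    have h2 : (q a').coeff P.natDegree = 1 := by
      rw [← hqd a']
      exact hqm a'
    rw [h2, norm_one, hh] at h1
    exact lt_irrefl _ (h1.trans ha')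
  have hpow : Filter.Tendsto (fun k : ℕ => a + π ^ k) Filter.atTop (nhds a) := by
    have := (tendsto_pow_atTop_nhds_zero_of_norm_lt_one hπ).const_add a
    rwa [add_zero] at this
  have hcont : Filter.Tendsto (fun k : ℕ => ‖hpol.eval (a + π ^ k)‖) Filter.atTop (nhds 0) := by
    have h1 : Filter.Tendsto (fun k : ℕ => hpol.eval (a + π ^ k)) Filter.atTop
        (nhds (hpol.eval a)) := (hpol.continuous.tendsto a).comp hpow
    rw [hh0] at h1
    have := h1.norm
    rwa [norm_zero] at this
  obtain ⟨k₀, hk₀⟩ := Filter.eventually_atTop.1 (hcont.eventually (gt_mem_nhds one_pos))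
  have hinj : Function.Injective fun k : ℕ => a + π ^ (k + k₀) := by
    intro k l hkl
    have h1 : π ^ (k + k₀) = π ^ (l + k₀) := add_left_cancel hkl
    have h2 := congrArg norm h1
    rw [norm_pow, norm_pow] at h2
    have := pow_right_injective₀ (norm_pos_iff.2 hπ0) hπ.ne h2
    omega
  refine (Set.infinite_range_of_injective hinj).mono ?_
  rintro _ ⟨k, rfl⟩
  refine ⟨nadd_le ha (by rw [norm_pow]; exact pow_le_one₀ (norm_nonneg _) hπ.le), ?_⟩
  exact hroot _ (hk₀ (k + k₀) (by omega))

/-- The transfer of implications. -/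
theorem transfer2 (φ : QA →+* C) {π : C} (hπ0 : π ≠ 0) (hπ : ‖π‖ < 1)
    (V : ValuationSubring ℂ) (hV : ∀ r : QA, ‖φ r‖ < 1 → V.valuation (rA r) < 1)
    {F G : QA[X][X]} (hF : IsUnit F.leadingCoeff)
    (hFG : ∀ u w : C, ‖u‖ ≤ 1 → ‖w‖ ≤ 1 → ev φ F u w = 0 → ev φ G u w = 0)
    {u w : ℂ} (hu : u ∈ V) (hw : w ∈ V) (h : ev rA F u w = 0) : ev rA G u w = 0 := by
  have hF0 : F ≠ 0 := by
    rintro rfl
    rw [leadingCoeff_zero] at hF
    exact not_isUnit_zero hF
  obtain ⟨P₀, hP₀, hP₀F, hP₀z⟩ := exists_factor (evHom rA u w) hF0 h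
  have hlc : IsUnit P₀.leadingCoeff := by
    obtain ⟨Q, hQ⟩ := hP₀F
    rw [hQ, leadingCoeff_mul] at hF
    exact isUnit_of_mul_isUnit_left hF
  -- make it monic
  obtain ⟨e, he⟩ := hlc
  set P : QA[X][X] := Polynomial.C ((e⁻¹ : QA[X]ˣ) : QA[X]) * P₀ with hPdef
  have hunit : IsUnit (Polynomial.C ((e⁻¹ : QA[X]ˣ) : QA[X])) := isUnit_C.2 (e⁻¹).isUnit
  have hPm : P.Monic := by
    rw [Monic, hPdef, leadingCoeff_mul, leadingCoeff_C, ← he]
    exact e.inv_mul
  have hPirr : Irreducible P := by
    rw [hPdef]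
    exact (irreducible_isUnit_mul hunit).2 hP₀
  have hPF : P ∣ F := by
    rw [hPdef]
    exact hunit.mul_left_dvd.2 hP₀F
  have hPz : ev rA P u w = 0 := by
    have : evHom rA u w P = 0 := by rw [hPdef, map_mul, hP₀z, mul_zero]
    exact this
  clear_value P
  -- degree
  have hdeg : 0 < P.natDegree := by
    rw [Nat.pos_iff_ne_zero]
    intro h0
    exact hPirr.not_isUnit (by rw [eq_one_of_monic_natDegree_zero hPm h0]; exact isUnit_one)
  -- a zero over `C`
  obtain ⟨a, b, ha, hb, hab⟩ : ∃ a b : C, ‖a‖ ≤ 1 ∧ ‖b‖ ≤ 1 ∧ ev φ P a b = 0 := by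
    by_contra hcon
    push Not at hcon
    exact transfer φ V hV P hcon hu hw hPz
  have hinf := infinite_zeros φ hπ0 hπ hPm hdeg ha hb hab
  -- the divisibility
  have hdvd : P ∣ G := by
    by_contra hnd
    let K := FractionRing QA[X]
    have hinj : Function.Injective (algebraMap QA[X] K) := IsFractionRing.injective _ _
    have h1 : Irreducible (P.map (algebraMap QA[X] K)) :=
      (hPm.irreducible_iff_irreducible_map_fraction_map).1 hPirr
    have h2 : ¬ P.map (algebraMap QA[X] K) ∣ G.map (algebraMap QA[X] K) := by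
      rw [map_dvd_map _ hinj hPm]
      exact hnd
    have h3 : IsCoprime (P.map (algebraMap QA[X] K)) (G.map (algebraMap QA[X] K)) :=
      (h1.coprime_iff_not_dvd).2 h2
    have h4 : resultant (P.map (algebraMap QA[X] K)) (G.map (algebraMap QA[X] K)) ≠ 0 := by
      intro h5
      exact (resultant_eq_zero_iff.1 h5).2 h3
    have h5 : resultant P G ≠ 0 := by
      intro h6
      apply h4
      have h7 := resultant_map_map (f := P) (g := G) (m := P.natDegree) (n := G.natDegree)
        (algebraMap QA[X] K)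
      rw [h6, map_zero] at h7
      rw [natDegree_map_eq_of_injective hinj, natDegree_map_eq_of_injective hinj]
      exact h7
    obtain ⟨α, β, -, -, hαβ⟩ := exists_mul_add_mul_eq_C_resultant P G (m := P.natDegree)
      (n := G.natDegree) le_rfl le_rfl (Or.inl hdeg.ne')
    set r := resultant P G with hr
    have hr0 : r.map φ = 0 := by
      refine eq_zero_of_infinite_isRoot _ (hinf.mono ?_)
      rintro a' ⟨ha', b', hb', hz⟩
      have hzF : ev φ F a' b' = 0 := by
        obtain ⟨Q, hQ⟩ := hPF
        have : evHom φ a' b' F = 0 := by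
          rw [hQ, map_mul, evHom_apply, hz, zero_mul]
        exact this
      have hzG := hFG a' b' ha' hb' hzF
      have h8 := congrArg (evHom φ a' b') hαβ
      have hz' : evHom φ a' b' P = 0 := hz
      have hzG' : evHom φ a' b' G = 0 := hzG
      rw [map_add, map_mul, map_mul, hz', hzG', zero_mul, zero_mul, add_zero] at h8
      show (r.map φ).eval a' = 0
      rw [eval_map]
      have h9 : evHom φ a' b' (Polynomial.C r) = r.eval₂ φ a' := by
        simp [evHom]
      rw [← h9]
      exact h8.symm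
    exact h5 ((Polynomial.map_eq_zero φ).1 hr0)
  obtain ⟨Q, hQ⟩ := hdvd
  have : evHom rA u w G = 0 := by
    rw [hQ, map_mul, evHom_apply, hPz, zero_mul]
  exact this

end

end Pool.Agent.V8H78.MP
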