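import Pool.Agent.V8H78.MP.PairC
import Pool.Agent.V8H78.MP.Transfer2

/-!
Isogenous `j`-invariants close to algebraic numbers of large `p`-adic size: the degree of the
isogeny.
-/

set_option autoImplicit false
set_option linter.unusedSectionVars false

namespace Pool.Agent.V8H78.MP

open Polynomial UpperHalfPlane H294ZP Pool.Agent.Y226

section tate

variable {C : Type} [NormedField C] [IsUltrametricDist C] [CompleteSpace C] [CharZero C]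
  [IsAlgClosed C] {ψ : ZZ →+* C} (hψ : ∀ z, ‖ψ z‖ ≤ 1)

include hψ

/-- the Tate relation, over `C` -/
theorem tate_full (hψi : Function.Injective ψ) {N : ℕ} (hN0 : 0 < N) {x y : C}
    (hrelC : PsiE ψ (mP N) (mD N) x y = 0) (hXn : 1 < ‖x‖) :
    ∃ (A B g : ℕ) (ζ : C), 0 < A ∧ 0 < B ∧ A.Coprime B ∧ 0 < g ∧ IsPrimitiveRoot ζ g ∧
      qT ψ y ^ B = ζ * qT ψ x ^ A ∧ 1 < ‖y‖ ∧
      PsiE ψ (mP (A * B * g ^ 2)) (mD (A * B * g ^ 2)) x y = 0 := by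
  have hq1 := qT_lt hψ hXn
  have hq0 := qT_ne hψ hXn
  obtain ⟨Q, hQ⟩ := IsAlgClosed.exists_pow_nat_eq (qT ψ x) hN0
  have hQ0 : Q ≠ 0 := by
    rintro rfl
    rw [zero_pow hN0.ne'] at hQ
    exact hq0 hQ.symm
  have hQ1 : ‖Q‖ < 1 := by
    by_contra hcon
    push Not at hcon
    have : 1 ≤ ‖Q ^ N‖ := by rw [norm_pow]; exact one_le_pow₀ hcon
    rw [hQ] at this
    exact absurd hq1 (not_lt.2 this)
  have hJX : JC ψ (Q ^ N) = x := by rw [hQ]; exact JC_qT hψ hXn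
  rw [← hJX] at hrelC
  obtain ⟨α, δ, β, hα, hδ, hαδ, hYe⟩ := psi_roots hψ hN0 hQ0 hQ1 hrelC
  -- reduce the matrix
  set h0 := Nat.gcd (Nat.gcd α δ) β.natAbs with hh0
  have hg0 : 0 < Nat.gcd α δ := Nat.gcd_pos_of_pos_left _ hα
  have hh0pos : 0 < h0 := Nat.gcd_pos_of_pos_left _ hg0
  obtain ⟨α', hα'⟩ : h0 ∣ α := (Nat.gcd_dvd_left _ _).trans (Nat.gcd_dvd_left _ _)
  obtain ⟨δ', hδ'⟩ : h0 ∣ δ := (Nat.gcd_dvd_left _ _).trans (Nat.gcd_dvd_right _ _)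
  obtain ⟨β', hβ'⟩ : (h0 : ℤ) ∣ β := Int.natCast_dvd.2 (Nat.gcd_dvd_right _ _)
  have hα'0 : 0 < α' := Nat.pos_of_ne_zero (by rintro rfl; simp at hα'; omega)
  have hδ'0 : 0 < δ' := Nat.pos_of_ne_zero (by rintro rfl; simp at hδ'; omega)
  set cc := Nat.gcd α' δ' with hcc
  have hcc0 : 0 < cc := Nat.gcd_pos_of_pos_left _ hα'0
  obtain ⟨A, hA⟩ : cc ∣ α' := Nat.gcd_dvd_left _ _
  obtain ⟨B, hB⟩ : cc ∣ δ' := Nat.gcd_dvd_right _ _
  have hA0 : 0 < A := Nat.pos_of_ne_zero (by rintro rfl; simp at hA; omega)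
  have hB0 : 0 < B := Nat.pos_of_ne_zero (by rintro rfl; simp at hB; omega)
  have hAB : A.Coprime B := by
    have h1 : cc * Nat.gcd A B = cc := by
      rw [← Nat.gcd_mul_left, ← hA, ← hB]
    have h2 : Nat.gcd A B = 1 := by
      have : cc * Nat.gcd A B = cc * 1 := by rw [h1, mul_one]
      exact Nat.eq_of_mul_eq_mul_left hcc0 this
    exact h2
  have hcop : IsCoprime β' (cc : ℤ) := by
    rw [Int.isCoprime_iff_nat_coprime, Int.natAbs_natCast]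
    have h1 : h0 * Nat.gcd cc β'.natAbs = h0 := by
      rw [← Nat.gcd_mul_left]
      have e1 : h0 * cc = Nat.gcd α δ := by rw [hcc, ← Nat.gcd_mul_left, ← hα', ← hδ']
      have e2 : h0 * β'.natAbs = β.natAbs := by
        rw [hβ', Int.natAbs_mul, Int.natAbs_natCast]
      rw [e1, e2]
    have h2 : Nat.gcd cc β'.natAbs = 1 := by
      have : h0 * Nat.gcd cc β'.natAbs = h0 * 1 := by rw [h1, mul_one]
      exact Nat.eq_of_mul_eq_mul_left hh0pos this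
    exact (Nat.coprime_comm.1 h2)
  have heZ : eZ β δ hδ = eZ β' δ' hδ'0 := by
    apply Subtype.ext
    show Complex.exp (2 * Real.pi * Complex.I * β / δ) =
      Complex.exp (2 * Real.pi * Complex.I * β' / δ')
    congr 1
    have e1 : (β : ℂ) = h0 * β' := by rw [hβ']; push_cast; ring
    have e2 : (δ : ℂ) = h0 * δ' := by rw [hδ']; push_cast; ring
    have e3 : (h0 : ℂ) ≠ 0 := by exact_mod_cast hh0pos.ne'
    have e4 : (δ' : ℂ) ≠ 0 := by exact_mod_cast hδ'0.ne'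
    rw [e1, e2]
    field_simp
  have heZB : eZ β' δ' hδ'0 ^ B = eZ β' cc hcc0 := by
    apply Subtype.ext
    show (Complex.exp (2 * Real.pi * Complex.I * β' / δ')) ^ B =
      Complex.exp (2 * Real.pi * Complex.I * β' / cc)
    rw [← Complex.exp_nat_mul]
    congr 1
    have e2 : (δ' : ℂ) = cc * B := by rw [hB]; push_cast; ring
    have e3 : (cc : ℂ) ≠ 0 := by exact_mod_cast hcc0.ne'
    have e4 : (B : ℂ) ≠ 0 := by exact_mod_cast hB0.ne'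
    rw [e2]
    field_simp
  rw [heZ] at hYe
  -- the parameter of `y`
  have huu : ψ (eZ β' δ' hδ'0) * ψ (eZ (-β') δ' hδ'0) = 1 := by
    rw [← map_mul, eZ_mul, map_one]
  have hu0 : ψ (eZ β' δ' hδ'0) ≠ 0 := left_ne_zero_of_mul_eq_one huu
  have hα2 : α ^ 2 ≠ 0 := pow_ne_zero _ hα.ne'
  have hz0 : ψ (eZ β' δ' hδ'0) * Q ^ (α ^ 2) ≠ 0 := mul_ne_zero hu0 (pow_ne_zero _ hQ0)
  have hz1 : ‖ψ (eZ β' δ' hδ'0) * Q ^ (α ^ 2)‖ < 1 :=
    (nmul_le (hψ _) le_rfl).trans_lt (by rw [norm_pow]; exact pow_lt_one₀ (norm_nonneg _) hQ1 hα2)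
  have hYn : 1 < ‖y‖ := by rw [hYe]; exact JC_norm hψ hz1 hz0
  have hqY : qT ψ y = ψ (eZ β' δ' hδ'0) * Q ^ (α ^ 2) := by
    rw [hYe]; exact qT_JC hψ hz1 hz0
  refine ⟨A, B, cc, ψ (eZ β' cc hcc0), hA0, hB0, hAB, hcc0, ?_, ?_, hYn, ?_⟩
  · exact (eZ_prim β' hcc0 hcop).map_of_injective hψi
  · rw [hqY, mul_pow, ← map_pow, heZB, ← pow_mul, ← hQ, ← pow_mul]
    congr 2
    have : α ^ 2 * B = N * A := by
      rw [← hαδ, hα', hδ', hB, hA]; ring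
    exact this
  · have hN' : α' * δ' = A * B * cc ^ 2 := by rw [hA, hB]; ring
    have hQ'0 : Q ^ (h0 ^ 2) ≠ 0 := pow_ne_zero _ hQ0
    have hQ'1 : ‖Q ^ (h0 ^ 2)‖ < 1 := by
      rw [norm_pow]; exact pow_lt_one₀ (norm_nonneg _) hQ1 (pow_ne_zero _ hh0pos.ne')
    have h7 := psi_of_param hψ β' hα'0 hδ'0 hN' hQ'0 hQ'1
    have e1 : (Q ^ (h0 ^ 2)) ^ (A * B * cc ^ 2) = Q ^ N := by
      rw [← pow_mul, ← hN', ← hαδ]
      congr 1
      rw [hα', hδ']; ring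
    have e2 : (Q ^ (h0 ^ 2)) ^ (α' ^ 2) = Q ^ (α ^ 2) := by
      rw [← pow_mul]
      congr 1
      rw [hα']; ring
    rw [e1, e2, hJX, ← hYe] at h7
    exact h7

end tate

/-- The data of an isogeny between points near `t` and `t'`, for the precision given by `s`, `s'`. -/
def LevData {C : Type} [NormedField C] (t s t' s' : C) (A B g : ℕ) (ζ : C) : Prop :=
  0 < A ∧ 0 < B ∧ A.Coprime B ∧ 0 < g ∧ IsPrimitiveRoot ζ g ∧ ‖t‖ ^ A = ‖t'‖ ^ B ∧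
    ‖t ^ A / t' ^ B - ζ‖ ≤ max (max 1 ‖s‖ / ‖t‖) (max 1 ‖s'‖ / ‖t'‖)

/-- The possible degrees. -/
def Lev {C : Type} [NormedField C] (t s t' s' : C) : Set ℕ :=
  {N | ∃ (A B g : ℕ) (ζ : C), LevData t s t' s' A B g ζ ∧ N = A * B * g ^ 2}

theorem Lev_pos {C : Type} [NormedField C] {t s t' s' : C} {N : ℕ} (h : N ∈ Lev t s t' s') :
    0 < N := by
  obtain ⟨A, B, g, ζ, ⟨hA, hB, -, hg, -⟩, rfl⟩ := h
  positivity

section lev

variable {C : Type} [NormedField C] [IsUltrametricDist C] [CompleteSpace C] [CharZero C]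
  [IsAlgClosed C]

theorem root_norm_one {ζ : C} {g : ℕ} (hg : 0 < g) (hζ : ζ ^ g = 1) : ‖ζ‖ = 1 := by
  have h1 : ‖ζ‖ ^ g = 1 := by rw [← norm_pow, hζ, norm_one]
  exact (pow_eq_one_iff_of_nonneg (norm_nonneg _) hg.ne').1 h1

variable {ψ : ZZ →+* C} (hψ : ∀ z, ‖ψ z‖ ≤ 1)

include hψ in
/-- isogenous points near `t` and `t'` -/
theorem pairA (hψi : Function.Injective ψ) {N : ℕ}
    (hN : 0 < N) {t t' c c' : C} (ht : 1 < ‖t‖) (hc : ‖c‖ < ‖t‖)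
    (ht' : 1 < ‖t'‖) (hc' : ‖c'‖ < ‖t'‖) {x y : C}
    (hx : ‖x - t‖ ≤ ‖c‖) (hy : ‖y - t'‖ ≤ ‖c'‖)
    (h : PsiE ψ (mP N) (mD N) x y = 0) :
    ∃ M ∈ Lev t c t' c', PsiE ψ (mP M) (mD M) x y = 0 := by
  obtain ⟨hxn, hxq⟩ := near_one hψ ht hc hx
  obtain ⟨hyn, hyq⟩ := near_one hψ ht' hc' hy
  have hx1 : 1 < ‖x‖ := by rwa [hxn]
  have hy1 : 1 < ‖y‖ := by rwa [hyn]
  obtain ⟨A, B, g, ζ, hA, hB, hco, hg, hζ, hq, -, hΨ⟩ := tate_full hψ hψi hN h hx1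
  have ht0 : 0 < ‖t‖ := one_pos.trans ht
  have ht'0 : 0 < ‖t'‖ := one_pos.trans ht'
  have hζn := root_norm_one hg hζ.pow_eq_one
  have hnorm : ‖t‖ ^ A = ‖t'‖ ^ B := by
    have h1 := congrArg norm hq
    rw [norm_mul, hζn, one_mul, norm_pow, norm_pow, qT_norm hψ hx1, qT_norm hψ hy1, hxn, hyn,
      inv_pow, inv_pow, inv_inj] at h1
    exact h1.symm
  have hqx0 := qT_ne hψ hx1
  have hqy0 := qT_ne hψ hy1
  have htC : t ≠ 0 := norm_pos_iff.1 ht0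
  have ht'C : t' ≠ 0 := norm_pos_iff.1 ht'0
  have hηn : ‖t ^ A / t' ^ B‖ = 1 := by
    rw [norm_div, norm_pow, norm_pow, hnorm]
    exact div_self (pow_pos ht'0 _).ne'
  set E := max (max 1 ‖c‖ / ‖t‖) (max 1 ‖c'‖ / ‖t'‖) with hE
  have hE1 : E < 1 := by
    rw [hE]
    refine max_lt ?_ ?_
    · rw [div_lt_one ht0]
      exact max_lt ht hc
    · rw [div_lt_one ht'0]
      exact max_lt ht' hc'
  have hX1 : ‖qT ψ x * t‖ = 1 := neq_one ((hxq.trans (le_max_left _ _)).trans_lt hE1) norm_one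
  have hY1 : ‖qT ψ y * t'‖ = 1 := neq_one ((hyq.trans (le_max_right _ _)).trans_lt hE1) norm_one
  have hXA : ‖(qT ψ x * t) ^ A - 1‖ ≤ E := by
    have h1 : ‖qT ψ x * t - 1‖ ≤ E := hxq.trans (le_max_left _ _)
    have := npow_sub_pow hX1.le (norm_one (α := C)).le h1 A
    rwa [one_pow] at this
  have hYB : ‖(qT ψ y * t') ^ B - 1‖ ≤ E := by
    have h1 : ‖qT ψ y * t' - 1‖ ≤ E := hyq.trans (le_max_right _ _)
    have := npow_sub_pow hY1.le (norm_one (α := C)).le h1 B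
    rwa [one_pow] at this
  refine ⟨A * B * g ^ 2, ⟨A, B, g, ζ, ⟨hA, hB, hco, hg, hζ, hnorm, ?_⟩, rfl⟩, hΨ⟩
  have e : t ^ A / t' ^ B - ζ = (((qT ψ x * t) ^ A - 1) - ((qT ψ y * t') ^ B - 1)) *
      (t ^ A / t' ^ B * ((qT ψ x * t) ^ A)⁻¹) := by
    have hζe : ζ = qT ψ y ^ B / qT ψ x ^ A := by
      rw [eq_div_iff (pow_ne_zero _ hqx0)]
      exact hq.symm
    rw [hζe, mul_pow, mul_pow]
    have h1 : qT ψ x ^ A ≠ 0 := pow_ne_zero _ hqx0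
    have h2 : t ^ A ≠ 0 := pow_ne_zero _ htC
    have h3 : t' ^ B ≠ 0 := pow_ne_zero _ ht'C
    field_simp
    ring
  rw [e]
  refine nmul_le' (nsub_le hXA hYB) ?_
  rw [norm_mul, norm_inv, norm_pow, hX1, one_pow, inv_one, hηn, one_mul]

end lev

section fin

variable {C : Type} [NormedField C] [IsUltrametricDist C] [CharZero C]
variable {p : ℕ} [hpf : Fact p.Prime]

/-- roots of unity close to `1` have bounded order -/
theorem close_root (hp2 : p ≠ 2) (hp0 : 0 < ‖(p : C)‖) (hp1 : ‖(p : C)‖ < 1) {E : ℝ} (hE1 : E < 1) :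
    ∃ s₀ : ℕ, ∀ (ξ : C) (g : ℕ), 0 < g → ξ ^ g = 1 → ‖ξ - 1‖ ≤ E → ξ ^ p ^ s₀ = 1 := by
  have hlim : Filter.Tendsto (fun n : ℕ => (max E 0) ^ n) Filter.atTop (nhds 0) :=
    tendsto_pow_atTop_nhds_zero_of_lt_one (le_max_right _ _) (max_lt hE1 one_pos)
  obtain ⟨n₀, hn₀⟩ := Filter.eventually_atTop.1 (hlim.eventually (gt_mem_nhds hp0))
  refine ⟨n₀, fun ξ g hg hξ hle => ?_⟩
  have hlt : ‖ξ - 1‖ < 1 := hle.trans_lt hE1
  have hξfin : IsOfFinOrder ξ := isOfFinOrder_iff_pow_eq_one.2 ⟨g, hg, hξ⟩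
  obtain ⟨g', s, ζ', ε, hgg, hg'p, hζ', hε, hζe⟩ := root_decomp (p := p) hξfin.orderOf_pos
    (IsPrimitiveRoot.orderOf ξ)
  have hg'0 : 0 < g' := Nat.pos_of_ne_zero (by
    rintro rfl
    rw [zero_mul] at hgg
    exact hξfin.orderOf_pos.ne' hgg)
  have hε1 : ‖ε - 1‖ < 1 := ppow_root_lt hp1 hε.pow_eq_one
  have hζ'n := root_norm_one' hg'0 hζ'.pow_eq_one
  have hζ'1 : ζ' = 1 := by
    refine tame_eq_one (m := g') ?_ hζ'.pow_eq_one ?_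
    · have : ¬ (p : ℤ) ∣ (g' : ℤ) := by
        intro h
        have h2 := Int.natCast_dvd_natCast.1 h
        have h3 := Nat.dvd_gcd h2 (dvd_refl p)
        rw [hg'p] at h3
        exact hpf.out.one_lt.ne' (Nat.dvd_one.1 h3)
      have := int_unit (C := C) hp1 this
      push_cast at this
      exact this
    · have e : ζ' - 1 = (ξ - 1) - ζ' * (ε - 1) := by rw [hζe]; ring
      rw [e]
      refine nsub_lt hlt ?_
      rw [norm_mul, hζ'n, one_mul]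
      exact hε1
  have hξε : ξ = ε := by rw [hζe, hζ'1, one_mul]
  have hs : s ≤ n₀ := by
    by_contra hcon
    push Not at hcon
    obtain ⟨s', rfl⟩ : ∃ s', s = s' + 1 := ⟨s - 1, by omega⟩
    have h1 := ppow_root_norm hp2 hp1 hε
    have h2 : n₀ ≤ p ^ s' * (p - 1) := by
      have h3 : s' < p ^ s' := Nat.lt_pow_self hpf.out.one_lt
      have h4 : 1 ≤ p - 1 := by have := hpf.out.two_le; omega
      calc n₀ ≤ s' := by omega
        _ ≤ p ^ s' := h3.le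
        _ = p ^ s' * 1 := (mul_one _).symm
        _ ≤ p ^ s' * (p - 1) := Nat.mul_le_mul_left _ h4
    have h5 := hn₀ _ h2
    have h6 : ‖ε - 1‖ ^ (p ^ s' * (p - 1)) ≤ (max E 0) ^ (p ^ s' * (p - 1)) := by
      rw [← hξε]
      exact pow_le_pow_left₀ (norm_nonneg _) (hle.trans (le_max_left _ _)) _
    rw [h1] at h6
    exact absurd h5 (not_lt.2 h6)
  rw [hξε]
  obtain ⟨k, hk⟩ := Nat.exists_eq_add_of_le hs
  rw [hk, pow_add, pow_mul, hε.pow_eq_one, one_pow]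
where
  root_norm_one' {ζ : C} {g : ℕ} (hg : 0 < g) (hζ : ζ ^ g = 1) : ‖ζ‖ = 1 := by
    have h1 : ‖ζ‖ ^ g = 1 := by rw [← norm_pow, hζ, norm_one]
    exact (pow_eq_one_iff_of_nonneg (norm_nonneg _) hg.ne').1 h1

theorem Lev_finite (hp2 : p ≠ 2) (hp0 : 0 < ‖(p : C)‖) (hp1 : ‖(p : C)‖ < 1) {t s t' s' : C}
    (ht : max 1 ‖s‖ < ‖t‖) (ht' : max 1 ‖s'‖ < ‖t'‖) : (Lev t s t' s').Finite := by
  have ht1 : 1 < ‖t‖ := (le_max_left _ _).trans_lt ht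
  have ht1' : 1 < ‖t'‖ := (le_max_left _ _).trans_lt ht'
  have ht0 : 0 < ‖t‖ := one_pos.trans ht1
  have ht0' : 0 < ‖t'‖ := one_pos.trans ht1'
  set E := max (max 1 ‖s‖ / ‖t‖) (max 1 ‖s'‖ / ‖t'‖) with hE
  have hE1 : E < 1 := max_lt ((div_lt_one ht0).2 ht) ((div_lt_one ht0').2 ht')
  obtain ⟨s₀, hs₀⟩ := close_root (C := C) hp2 hp0 hp1 hE1
  rcases Set.eq_empty_or_nonempty (Lev t s t' s') with h | ⟨N₀, A₀, B₀, g₀, ζ₀, h₀, hN₀⟩
  · rw [h]; exact Set.finite_empty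
  obtain ⟨hA₀, hB₀, hco₀, hg₀, hζ₀, hn₀, hc₀⟩ := h₀
  refine ((Nat.divisors (g₀ * p ^ s₀)).finite_toSet.image fun g => A₀ * B₀ * g ^ 2).subset ?_
  rintro N ⟨A, B, g, ζ, ⟨hA, hB, hco, hg, hζ, hn, hc⟩, rfl⟩
  -- the exponents
  have hexp : A * B₀ = A₀ * B := by
    have h1 : ‖t‖ ^ (A * B₀) = ‖t‖ ^ (A₀ * B) := by
      rw [pow_mul, hn, pow_mul, hn₀, ← pow_mul, ← pow_mul, mul_comm]
    exact pow_right_injective₀ ht0 ht1.ne' h1
  have hAA : A = A₀ := by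
    have h1 : A ∣ A₀ := hco.dvd_of_dvd_mul_right (Dvd.intro _ hexp)
    have h2 : A₀ ∣ A := hco₀.dvd_of_dvd_mul_right (Dvd.intro _ hexp.symm)
    exact Nat.dvd_antisymm h1 h2
  subst hAA
  have hBB : B = B₀ := (Nat.eq_of_mul_eq_mul_left hA hexp).symm
  subst hBB
  refine ⟨g, ?_, rfl⟩
  show g ∈ (Nat.divisors (g₀ * p ^ s₀) : Set ℕ)
  rw [Finset.mem_coe, Nat.mem_divisors]
  refine ⟨?_, (Nat.mul_pos hg₀ (pow_pos hpf.out.pos _)).ne'⟩
  have hζn : ‖ζ‖ = 1 := close_root.root_norm_one' hg hζ.pow_eq_one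
  have hζ₀n : ‖ζ₀‖ = 1 := close_root.root_norm_one' hg₀ hζ₀.pow_eq_one
  have hζ₀0 : ζ₀ ≠ 0 := norm_pos_iff.1 (by rw [hζ₀n]; exact one_pos)
  have h1 : ‖ζ / ζ₀ - 1‖ ≤ E := by
    have e : ζ / ζ₀ - 1 = ((t ^ A / t' ^ B - ζ₀) - (t ^ A / t' ^ B - ζ)) * ζ₀⁻¹ := by
      field_simp
      ring
    rw [e]
    refine nmul_le' (nsub_le hc₀ hc) ?_
    rw [norm_inv, hζ₀n, inv_one]
  have h2 := hs₀ (ζ / ζ₀) (g * g₀) (Nat.mul_pos hg hg₀) (by
    rw [div_pow, pow_mul, hζ.pow_eq_one, one_pow, mul_comm, pow_mul, hζ₀.pow_eq_one, one_pow,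
      div_one]) h1
  rw [div_pow, div_eq_one_iff_eq (pow_ne_zero _ hζ₀0)] at h2
  refine hζ.dvd_of_pow_eq_one _ ?_
  rw [mul_comm, pow_mul, h2, ← pow_mul, mul_comm, pow_mul, hζ₀.pow_eq_one, one_pow]

end fin

end Pool.Agent.V8H78.MP
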