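import Pool.Agent.V8H78.MP.Pair

/-!
Isogenous `j`-invariants close to rational numbers of large `p`-adic size, over an algebraically
closed complete ultrametric field and over valuation rings of `ℂ`.
-/

set_option autoImplicit false
set_option linter.unusedSectionVars false

namespace Pool.Agent.V8H78.MP

open Polynomial UpperHalfPlane H294ZP Pool.Agent.Y226

section ratl

variable {C : Type} [NormedField C] [IsUltrametricDist C] [CharZero C]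
variable {p : ℕ} [hpf : Fact p.Prime]

theorem rat_gap {r : ℚ} (hp1 : ‖(p : C)‖ < 1) (h : ‖(r : C)‖ < 1) : ‖(r : C)‖ ≤ ‖(p : C)‖ := by
  have hη : (r : C) = (r.num : C) / ((r.den : ℤ) : C) := by
    conv_lhs => rw [← Rat.num_div_den r]
    push_cast
    rfl
  have hden0 : ((r.den : ℤ) : C) ≠ 0 := by exact_mod_cast r.den_nz
  have hden : 0 < ‖((r.den : ℤ) : C)‖ := norm_pos_iff.2 hden0
  have h1 : (p : ℤ) ∣ r.num := by
    by_contra hcon
    rw [hη, norm_div, int_unit hp1 hcon, div_lt_one hden] at h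
    exact absurd (nint (C := C) (r.den : ℤ)) (not_le.2 h)
  have h2 : ¬ (p : ℤ) ∣ (r.den : ℤ) := by
    intro h2
    have h3 := Nat.dvd_gcd (Int.natCast_dvd.1 h1) (Int.natCast_dvd_natCast.1 h2)
    rw [r.reduced] at h3
    exact hpf.out.one_lt.ne' (Nat.dvd_one.1 h3)
  rw [hη, norm_div, int_unit hp1 h2, div_one]
  obtain ⟨b, hb⟩ := h1
  rw [hb]
  push_cast
  exact nmul_le' le_rfl (nint b)

end ratl

section tate

variable {C : Type} [NormedField C] [IsUltrametricDist C] [CompleteSpace C] [CharZero C]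
  [IsAlgClosed C] {ψ : ZZ →+* C} (hψ : ∀ z, ‖ψ z‖ ≤ 1)

include hψ

theorem near_one {x t c : C} (ht : 1 < ‖t‖) (hc : ‖c‖ < ‖t‖) (hx : ‖x - t‖ ≤ ‖c‖) :
    ‖x‖ = ‖t‖ ∧ ‖qT ψ x * t - 1‖ ≤ max 1 ‖c‖ / ‖t‖ := by
  have hxn : ‖x‖ = ‖t‖ := neq_of_sub_lt (hx.trans_lt hc)
  have h0 : 0 < ‖t‖ := one_pos.trans ht
  refine ⟨hxn, ?_⟩
  have hx1 : 1 < ‖x‖ := by rwa [hxn]
  have e : qT ψ x * t - 1 = (qT ψ x * x - 1) - qT ψ x * (x - t) := by ring
  rw [e]
  refine nsub_le ?_ ?_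
  · refine (qT_expand' hψ hx1).trans ?_
    rw [hxn, inv_eq_one_div]
    exact div_le_div_of_nonneg_right (le_max_left _ _) h0.le
  · rw [norm_mul, qT_norm hψ hx1, hxn, div_eq_inv_mul]
    exact mul_le_mul_of_nonneg_left (hx.trans (le_max_right _ _)) (inv_nonneg.2 h0.le)

theorem pairC {p : ℕ} [hpf : Fact p.Prime] (hp2 : p ≠ 2) (hp1 : ‖(p : C)‖ < 1) {N : ℕ}
    (hN : 0 < N) {t t' c c' : ℚ} (ht : 1 < ‖(t : C)‖) (hc : ‖(c : C)‖ < ‖(t : C)‖)
    (ht' : 1 < ‖(t' : C)‖) (hc' : ‖(c' : C)‖ < ‖(t' : C)‖) {x y : C}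
    (hx : ‖x - t‖ ≤ ‖(c : C)‖) (hy : ‖y - t'‖ ≤ ‖(c' : C)‖)
    (h : PsiE ψ (mP N) (mD N) x y = 0) :
    ∃ A B : ℕ, 0 < A ∧ 0 < B ∧ A.Coprime B ∧ ‖(t : C)‖ ^ A = ‖(t' : C)‖ ^ B ∧
      ‖(((t ^ A / t' ^ B) ^ (p - 1) - 1 : ℚ) : C)‖ ≤
        max (max 1 ‖(c : C)‖ / ‖(t : C)‖) (max 1 ‖(c' : C)‖ / ‖(t' : C)‖) := by
  obtain ⟨hxn, hxq⟩ := near_one hψ ht hc hx
  obtain ⟨hyn, hyq⟩ := near_one hψ ht' hc' hy
  have hx1 : 1 < ‖x‖ := by rwa [hxn]
  have hy1 : 1 < ‖y‖ := by rwa [hyn]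
  obtain ⟨α, δ, hα, hδ, -, hq⟩ := tate_pow hψ hN h hx1
  have ht0 : 0 < ‖(t : C)‖ := one_pos.trans ht
  have ht'0 : 0 < ‖(t' : C)‖ := one_pos.trans ht'
  obtain ⟨g, A, B, hg, hco, hαA, hδB⟩ := Nat.exists_coprime' (m := α) (n := δ)
    (Nat.gcd_pos_of_pos_left _ hα)
  have hA : 0 < A := Nat.pos_of_ne_zero (by rintro rfl; simp at hαA; omega)
  have hB : 0 < B := Nat.pos_of_ne_zero (by rintro rfl; simp at hδB; omega)
  have hnorm : ‖(t : C)‖ ^ A = ‖(t' : C)‖ ^ B := by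
    have h1 := congrArg norm hq
    rw [norm_pow, norm_pow, qT_norm hψ hx1, qT_norm hψ hy1, hxn, hyn, inv_pow, inv_pow,
      inv_inj, hαA, hδB, pow_mul, pow_mul] at h1
    exact ((pow_left_inj₀ (by positivity) (by positivity) hg.ne').1 h1).symm
  have hqx0 := qT_ne hψ hx1
  have hqy0 := qT_ne hψ hy1
  have htC : (t : C) ≠ 0 := norm_pos_iff.1 ht0
  have ht'C : (t' : C) ≠ 0 := norm_pos_iff.1 ht'0
  set ζ := qT ψ y ^ B / qT ψ x ^ A with hζdef
  have hζ : ζ ^ g = 1 := by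
    rw [hζdef, div_pow, ← pow_mul, ← pow_mul, ← hαA, ← hδB, hq]
    exact div_self (pow_ne_zero _ hqx0)
  set η : ℚ := t ^ A / t' ^ B with hηdef
  have hηC : (η : C) = (t : C) ^ A / (t' : C) ^ B := by
    rw [hηdef]; push_cast; rfl
  have hηn : ‖(η : C)‖ = 1 := by
    rw [hηC, norm_div, norm_pow, norm_pow, hnorm]
    exact div_self (pow_pos ht'0 _).ne'
  set E := max (max 1 ‖(c : C)‖ / ‖(t : C)‖) (max 1 ‖(c' : C)‖ / ‖(t' : C)‖) with hE
  have hgap : ∀ {t c : ℚ}, 1 < ‖(t : C)‖ → ‖(c : C)‖ < ‖(t : C)‖ →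
      max 1 ‖(c : C)‖ / ‖(t : C)‖ ≤ ‖(p : C)‖ := by
    intro t c ht hc
    have h0 : 0 < ‖(t : C)‖ := one_pos.trans ht
    rcases le_total 1 ‖(c : C)‖ with h | h
    · rw [max_eq_right h]
      have h1 : ‖((c / t : ℚ) : C)‖ < 1 := by
        push_cast
        rw [norm_div, div_lt_one h0]
        exact hc
      have h2 := rat_gap (p := p) hp1 h1
      push_cast at h2
      rwa [norm_div] at h2
    · rw [max_eq_left h]
      have h1 : ‖((1 / t : ℚ) : C)‖ < 1 := by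
        push_cast
        rw [norm_div, norm_one, div_lt_one h0]
        exact ht
      have h2 := rat_gap (p := p) hp1 h1
      push_cast at h2
      rwa [norm_div, norm_one] at h2
  have hEp : E ≤ ‖(p : C)‖ := max_le (hgap ht hc) (hgap ht' hc')
  have hE1 : E < 1 := hEp.trans_lt hp1
  have hX1 : ‖qT ψ x * t‖ = 1 := neq_one ((hxq.trans (le_max_left _ _)).trans_lt hE1) norm_one
  have hY1 : ‖qT ψ y * t'‖ = 1 := neq_one ((hyq.trans (le_max_right _ _)).trans_lt hE1) norm_one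
  have hXA : ‖(qT ψ x * t) ^ A - 1‖ ≤ E := by
    have h1 : ‖qT ψ x * t - 1‖ ≤ E := hxq.trans (le_max_left _ _)
    have := npow_sub_pow hX1.le (norm_one (α := C)).le h1 A
    rwa [one_pow] at this
  have hYB : ‖(qT ψ y * t') ^ B - 1‖ ≤ E := by
    have h1 : ‖qT ψ y * t' - 1‖ ≤ E := hyq.trans (le_max_right _ _)
    have := npow_sub_pow hY1.le (norm_one (α := C)).le h1 B
    rwa [one_pow] at this
  have hζη : ‖ζ - η‖ ≤ E := by
    have e : ζ - η = (((qT ψ y * t') ^ B - 1) - ((qT ψ x * t) ^ A - 1)) *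
        (η * ((qT ψ x * t) ^ A)⁻¹) := by
      rw [hζdef, hηC, mul_pow, mul_pow]
      have h1 : qT ψ x ^ A ≠ 0 := pow_ne_zero _ hqx0
      have h2 : (t : C) ^ A ≠ 0 := pow_ne_zero _ htC
      have h3 : (t' : C) ^ B ≠ 0 := pow_ne_zero _ ht'C
      field_simp
      ring
    rw [e]
    refine nmul_le' (nsub_le hYB hXA) ?_
    rw [norm_mul, norm_inv, norm_pow, hX1, one_pow, inv_one, hηn, one_mul]
  refine ⟨A, B, hA, hB, hco, hnorm, ?_⟩
  have := wieferich hp2 hp1 hg hζ hηn hEp hζη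
  push_cast
  rw [hηC] at this
  exact this

end tate

/-- the modular polynomial near a rational point -/
noncomputable def PF {R : Type*} [CommRing R] (i₀ : ZZ →+* R) (P : ℕ → ZZ[X]) (D : ℕ)
    (t c t' c' : R) : R[X][X] :=
  ∑ i ∈ Finset.range (D + 1), Polynomial.C (((P i).map i₀).comp (Polynomial.C t + Polynomial.C c * X)) *
    (Polynomial.C (Polynomial.C t') + Polynomial.C (Polynomial.C c') * X) ^ i

theorem ev_PF {R S : Type*} [CommRing R] [CommRing S] (i₀ : ZZ →+* R) (f : R →+* S)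
    (P : ℕ → ZZ[X]) (D : ℕ) (t c t' c' : R) (u w : S) :
    ev f (PF i₀ P D t c t' c') u w = PsiE (f.comp i₀) P D (f t + f c * u) (f t' + f c' * w) := by
  unfold ev PF PsiE
  rw [eval₂_finsetSum]
  refine Finset.sum_congr rfl fun i _ => ?_
  have e1 : (eval₂RingHom f u) (((P i).map i₀).comp (Polynomial.C t + Polynomial.C c * X)) =
      (P i).eval₂ (f.comp i₀) (f t + f c * u) := by
    rw [coe_eval₂RingHom, eval₂_comp, eval₂_map, eval₂_add, eval₂_mul, eval₂_C, eval₂_C, eval₂_X]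
  have e2 : (eval₂RingHom f u) (Polynomial.C t') = f t' := by
    rw [coe_eval₂RingHom, eval₂_C]
  have e3 : (eval₂RingHom f u) (Polynomial.C c') = f c' := by
    rw [coe_eval₂RingHom, eval₂_C]
  rw [eval₂_mul, eval₂_C, e1, eval₂_pow, eval₂_add, eval₂_mul, eval₂_C, eval₂_C, eval₂_X, e2, e3]

/-- The pair theorem for a valuation ring. -/
theorem pairV {C : Type} [NormedField C] [IsUltrametricDist C] [CompleteSpace C] [CharZero C]
    [IsAlgClosed C] (φ : QA →+* C) {p : ℕ} [hpf : Fact p.Prime] (hp2 : p ≠ 2)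
    (hp1 : ‖(p : C)‖ < 1) (V : ValuationSubring ℂ)
    (hV : ∀ r : QA, ‖φ r‖ < 1 → V.valuation (rA r) < 1) {N : ℕ}
    (hN : 0 < N) {t t' c c' : ℚ} (ht : 1 < ‖(t : C)‖) (hc : ‖(c : C)‖ < ‖(t : C)‖)
    (ht' : 1 < ‖(t' : C)‖) (hc' : ‖(c' : C)‖ < ‖(t' : C)‖) {u w : ℂ} (hu : u ∈ V) (hw : w ∈ V)
    (h : PsiE ιZ (mP N) (mD N) (t + c * u) (t' + c' * w) = 0) :
    ∃ A B : ℕ, 0 < A ∧ 0 < B ∧ A.Coprime B ∧ ‖(t : C)‖ ^ A = ‖(t' : C)‖ ^ B ∧
      ‖(((t ^ A / t' ^ B) ^ (p - 1) - 1 : ℚ) : C)‖ ≤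
        max (max 1 ‖(c : C)‖ / ‖(t : C)‖) (max 1 ‖(c' : C)‖ / ‖(t' : C)‖) := by
  by_contra hcon
  refine transfer φ V hV (PF iA (mP N) (mD N) (t : QA) (c : QA) (t' : QA) (c' : QA)) ?_ hu hw ?_
  · intro u w hu hw h0
    apply hcon
    rw [ev_PF] at h0
    simp only [map_ratCast] at h0
    refine pairC (ψ := φ.comp iA) (psi_norm φ) hp2 hp1 hN ht hc ht' hc' (x := t + c * u)
      (y := t' + c' * w) ?_ ?_ h0
    · rw [add_sub_cancel_left]
      exact nmul_le' le_rfl hu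
    · rw [add_sub_cancel_left]
      exact nmul_le' le_rfl hw
  · rw [ev_PF, rA_comp]
    simp only [map_ratCast]
    exact h

end Pool.Agent.V8H78.MP
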