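import Pool.Agent.V8H78.MP.Gen
import Pool.Agent.V8H78.MP.Count

/-!
Rational translation vectors.
-/

set_option autoImplicit false
set_option linter.unusedSectionVars false

namespace Pool.Agent.V8H78.MP

open Pool.Agent.Y226

variable {C : Type} [NormedField C] [IsUltrametricDist C] [CharZero C]
variable {p : ℕ} [hpf : Fact p.Prime]

/-- integers which are small -/
theorem dvd_of_norm (hp0 : 0 < ‖(p : C)‖) (hp1 : ‖(p : C)‖ < 1) {z : ℤ}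
    (h : ‖(z : C)‖ ≤ ‖(p : C)‖ ^ 2) : ((p ^ 2 : ℕ) : ℤ) ∣ z := by
  have h1 : (p : ℤ) ∣ z := by
    by_contra hcon
    rw [int_unit hp1 hcon] at h
    exact absurd h (not_le.2 (pow_lt_one₀ hp0.le hp1 two_ne_zero))
  obtain ⟨w, rfl⟩ := h1
  have h2 : ‖(w : C)‖ ≤ ‖(p : C)‖ := by
    push_cast at h
    rw [norm_mul, sq] at h
    exact le_of_mul_le_mul_left h hp0
  have h3 : (p : ℤ) ∣ w := by
    by_contra hcon
    rw [int_unit hp1 hcon] at h2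
    exact absurd h2 (not_le.2 hp1)
  obtain ⟨v, rfl⟩ := h3
  exact ⟨v, by push_cast; ring⟩

theorem norm_of_dvd {N : ℕ} (hN : p ^ 2 ∣ N) :
    ‖(N : C)‖ ≤ ‖(p : C)‖ ^ 2 := by
  obtain ⟨M, rfl⟩ := hN
  push_cast
  rw [norm_mul, norm_pow]
  exact mul_le_of_le_one_right (pow_nonneg (norm_nonneg _) _) (nnat M)

/-- the size of the translation -/
theorem size_rat (φ : QA →+* C) (hp0 : 0 < ‖(p : C)‖) (hp1 : ‖(p : C)‖ < 1) {N : ℕ} (hN : p ^ 2 ∣ N)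
    (hN0 : N ≠ 0) {a : ℤ} (ha : ¬ (p : ℤ) ∣ a) (s : ℤ) :
    ‖φ (((a : ℚ) / N : ℚ) : QA)‖ = ‖(N : C)‖⁻¹ ∧ max 1 ‖φ ((s : ℤ) : QA)‖ = 1 ∧
      1 < ‖(N : C)‖⁻¹ := by
  refine ⟨?_, ?_, ?_⟩
  · rw [map_ratCast]
    push_cast
    rw [norm_div, int_unit hp1 ha, one_div]
  · rw [map_intCast]
    exact max_eq_left (nint s)
  · have h1 : 0 < ‖(N : C)‖ := norm_pos_iff.2 (by exact_mod_cast hN0)
    refine (one_lt_inv₀ h1).2 ?_
    exact (norm_of_dvd hN).trans_lt (pow_lt_one₀ hp0.le hp1 two_ne_zero)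

theorem lev_rat (φ : QA →+* C) (hp2 : p ≠ 2) (hp0 : 0 < ‖(p : C)‖) (hp1 : ‖(p : C)‖ < 1) {N : ℕ}
    (hN : p ^ 2 ∣ N) (hN0 : N ≠ 0) {a b : ℤ} (ha : ¬ (p : ℤ) ∣ a) (hb : ¬ (p : ℤ) ∣ b) {s s' : ℤ}
    (h : (Lev (φ (((a : ℚ) / N : ℚ) : QA)) (φ ((s : ℤ) : QA)) (φ (((b : ℚ) / N : ℚ) : QA))
      (φ ((s' : ℤ) : QA))).Nonempty) : ((p ^ 2 : ℕ) : ℤ) ∣ a ^ (p - 1) - b ^ (p - 1) := by
  obtain ⟨M, A, B, g, ζ, ⟨hA, hB, hco, hg, hζ, hn, hle⟩, -⟩ := h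
  obtain ⟨h1, h2, h3⟩ := size_rat φ hp0 hp1 hN hN0 ha s
  obtain ⟨h1', h2', -⟩ := size_rat φ hp0 hp1 hN hN0 hb s'
  rw [h1, h1'] at hn
  have hAB : A = B := pow_right_injective₀ (one_pos.trans h3) h3.ne' hn
  subst hAB
  have hA1 : A = 1 := by
    rw [Nat.coprime_self] at hco
    exact hco
  subst hA1
  rw [h2, h2', h1, h1', max_self, pow_one, pow_one, one_div, inv_inv] at hle
  have hNC : (N : C) ≠ 0 := by exact_mod_cast hN0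
  have hbC : (b : C) ≠ 0 := by
    rw [← norm_pos_iff, int_unit hp1 hb]
    exact one_pos
  have hbn := int_unit (C := C) hp1 hb
  have hη : φ (((a : ℚ) / N : ℚ) : QA) / φ (((b : ℚ) / N : ℚ) : QA) = (((a : ℚ) / b : ℚ) : C) := by
    rw [map_ratCast, map_ratCast]
    push_cast
    field_simp
  rw [hη, norm_sub_rev] at hle
  have hηn : ‖(((a : ℚ) / b : ℚ) : C)‖ = 1 := by
    push_cast
    rw [norm_div, int_unit hp1 ha, hbn, div_one]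
  have hle2 : ‖(N : C)‖ ≤ ‖(p : C)‖ ^ 2 := norm_of_dvd hN
  have hpp : ‖(p : C)‖ ^ 2 ≤ ‖(p : C)‖ := pow_le_of_le_one hp0.le hp1.le two_ne_zero
  have h4 := wieferich hp2 hp1 hg hζ.pow_eq_one hηn hpp (hle.trans hle2)
  refine dvd_of_norm hp0 hp1 ?_
  have e : ((a ^ (p - 1) - b ^ (p - 1) : ℤ) : C) =
      ((((a : ℚ) / b : ℚ) : C) ^ (p - 1) - 1) * (b : C) ^ (p - 1) := by
    push_cast
    rw [div_pow]
    have : (b : C) ^ (p - 1) ≠ 0 := pow_ne_zero _ hbC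
    field_simp
  rw [e]
  refine nmul_le' h4 ?_
  rw [norm_pow, hbn, one_pow]

/-- in a residue class which is not bad the translation vectors are good -/
theorem good_of_not_bad (φ : QA →+* C) (hp2 : p ≠ 2) (hp0 : 0 < ‖(p : C)‖) (hp1 : ‖(p : C)‖ < 1)
    {N : ℕ} (hN : p ^ 2 ∣ N) (hN0 : N ≠ 0) {n : ℕ} {c : Fin n → ZMod N} (hc : ¬ Bad hN c)
    {t : Fin n → ℚ} (ht : ∀ i, ∃ a : ℤ, (a : ZMod N) = c i ∧ t i = a / N) (s : Fin n → ℤ) :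
    (∀ i, max 1 ‖φ ((s i : ℤ) : QA)‖ < ‖φ ((t i : ℚ) : QA)‖) ∧
    ∀ i j, i ≠ j → Lev (φ ((t i : ℚ) : QA)) (φ ((s i : ℤ) : QA)) (φ ((t j : ℚ) : QA))
      (φ ((s j : ℤ) : QA)) = ∅ := by
  choose a ha hta using ht
  unfold Bad at hc
  push Not at hc
  obtain ⟨hc1, hc2⟩ := hc
  have hcast : ∀ i, ZMod.castHom hN (ZMod (p ^ 2)) (c i) = ((a i : ℤ) : ZMod (p ^ 2)) := by
    intro i
    rw [← ha i, map_intCast]
  have hp : ∀ i, ¬ (p : ℤ) ∣ a i := by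
    intro i hdvd
    have h1 := hc1 i
    rw [hcast, ZMod.coe_int_isUnit_iff_isCoprime] at h1
    obtain ⟨u, v, huv⟩ := h1
    have h2 : (p : ℤ) ∣ 1 := by
      rw [← huv]
      refine dvd_add (Dvd.dvd.mul_left ?_ _) (Dvd.dvd.mul_left hdvd _)
      exact_mod_cast Dvd.intro_left (p ^ 1) (by ring)
    exact hpf.out.one_lt.ne' (by
      have := Int.natCast_dvd_natCast.1 (by simpa using h2 : ((p : ℕ) : ℤ) ∣ ((1 : ℕ) : ℤ))
      exact Nat.dvd_one.1 this)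
  refine ⟨fun i => ?_, fun i j hij => ?_⟩
  · obtain ⟨h1, h2, h3⟩ := size_rat φ hp0 hp1 hN hN0 (hp i) (s i)
    rw [hta, h1, h2]
    exact h3
  · by_contra hne
    rw [← Ne, ← Set.nonempty_iff_ne_empty, hta, hta] at hne
    have h1 := lev_rat φ hp2 hp0 hp1 hN hN0 (hp i) (hp j) hne
    apply hc2 i j hij (hc1 i)
    rw [hcast, hcast, ← sub_eq_zero]
    have h2 := (ZMod.intCast_zmod_eq_zero_iff_dvd (a i ^ (p - 1) - a j ^ (p - 1)) (p ^ 2)).2 h1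
    push_cast at h2
    exact h2

end Pool.Agent.V8H78.MP
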