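import Pool.Agent.V8H78.MP.PairC
import Pool.Agent.W466.CF

/-!
Valuation rings of `ℂ` above almost all primes, compatible with a given embedding of the algebraic
numbers in an ultrametric field, which contain given elements of a field `k` and given
numbers algebraically independent over `k`.
-/

set_option autoImplicit false
set_option linter.unusedSectionVars false

open Function MvPolynomial

namespace Pool.Agent.V8H78.MP

open Pool.Agent.Y226

/-- Above every prime ideal of a ring `Λ ⊆ ℂ` there is a valuation ring of `ℂ` which extends the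
Gauss valuation. -/
theorem exists_gaussV {Λ : Type} [CommRing Λ] [Algebra Λ ℂ] (𝔭 : Ideal Λ) [𝔭.IsPrime]
    {τ : Type} (x : τ → ℂ) (hx : AlgebraicIndependent Λ x) :
    ∃ V : ValuationSubring ℂ, (∀ P : MvPolynomial τ Λ, V.valuation (aeval x P) ≤ 1) ∧
      (∀ P : MvPolynomial τ Λ, V.valuation (aeval x P) < 1 ↔
        MvPolynomial.map (Ideal.Quotient.mk 𝔭) P = 0) := by
  classical
  let f : MvPolynomial τ Λ →+* ℂ := (aeval x : MvPolynomial τ Λ →ₐ[Λ] ℂ).toRingHom
  have hf : Function.Injective f := hx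
  let e : MvPolynomial τ Λ ≃+* f.range := RingEquiv.ofBijective f.rangeRestrict
    ⟨fun a b h => hf (congrArg Subtype.val h), f.rangeRestrict_surjective⟩
  let g : MvPolynomial τ Λ →+* MvPolynomial τ (Λ ⧸ 𝔭) := MvPolynomial.map (Ideal.Quotient.mk 𝔭)
  let P' : Ideal (MvPolynomial τ Λ) := RingHom.ker g
  have hP' : P'.IsPrime := RingHom.ker_isPrime g
  let P : Ideal f.range := Ideal.comap (e.symm : f.range →+* MvPolynomial τ Λ) P'
  have hP : P.IsPrime := Ideal.comap_isPrime _ _
  obtain ⟨V, hV⟩ := (LocalSubring.ofPrime f.range P).exists_le_valuationSubring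
  have hmem : ∀ z : MvPolynomial τ Λ, f z ∈ V := fun z =>
    hV.1 (LocalSubring.le_ofPrime _ _ ⟨z, rfl⟩)
  have hunit : ∀ z : MvPolynomial τ Λ, V.valuation (f z) < 1 ↔ g z = 0 := by
    intro z
    have h1 : IsUnit (algebraMap f.range (LocalSubring.ofPrime f.range P).toSubring (e z)) ↔
        e z ∈ P.primeCompl := IsLocalization.AtPrime.isUnit_to_map_iff _ P _
    have h2 : e z ∈ P.primeCompl ↔ g z ≠ 0 := by
      rw [Ideal.mem_primeCompl_iff, Ideal.mem_comap]
      rw [RingHom.coe_coe, e.symm_apply_apply, RingHom.mem_ker]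
    have h3 : V.valuation (f z) = 1 ↔ IsUnit (⟨f z, hmem z⟩ : V) :=
      (ValuationSubring.valuation_eq_one_iff V (⟨f z, hmem z⟩ : V)).symm
    have h4 : IsUnit (⟨f z, hmem z⟩ : V) ↔
        IsUnit (algebraMap f.range (LocalSubring.ofPrime f.range P).toSubring (e z)) := by
      have h5 : (⟨f z, hmem z⟩ : V) = Subring.inclusion hV.1
          (algebraMap f.range (LocalSubring.ofPrime f.range P).toSubring (e z)) := rfl
      constructor
      · intro h
        exact hV.2.1 _ (h5 ▸ h)
      · intro h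
        rw [h5]
        exact h.map (Subring.inclusion hV.1)
    have h6 : V.valuation (f z) ≤ 1 := (ValuationSubring.valuation_le_one_iff _ _).2 (hmem z)
    rw [lt_iff_le_and_ne, ne_eq, h3, h4, h1, h2, not_not]
    exact ⟨fun h => h.2, fun h => ⟨h6, h⟩⟩
  exact ⟨V, fun P => (ValuationSubring.valuation_le_one_iff _ _).2 (hmem P), hunit⟩

section

variable {C : Type} [NormedField C] [IsUltrametricDist C]

/-- the valuation ring of the algebraic numbers given by an embedding -/
noncomputable def LL (φ : QA →+* C) : Subring QA := (OO C).comap φ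

theorem mem_LL {φ : QA →+* C} {r : QA} : r ∈ LL φ ↔ ‖φ r‖ ≤ 1 := Iff.rfl

/-- its maximal ideal -/
noncomputable def MM (φ : QA →+* C) : Ideal (LL φ) where
  carrier := {r | ‖φ r‖ < 1}
  add_mem' {a b} ha hb := by
    show ‖φ ((a : QA) + b)‖ < 1
    rw [map_add]
    exact nadd_lt ha hb
  zero_mem' := by
    show ‖φ ((0 : LL φ) : QA)‖ < 1
    simp
  smul_mem' c x hx := by
    show ‖φ ((c : QA) * x)‖ < 1
    rw [map_mul, norm_mul]
    have h1 : ‖φ (c : QA)‖ ≤ 1 := c.2
    have h2 : ‖φ (x : QA)‖ < 1 := hx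
    calc ‖φ (c : QA)‖ * ‖φ (x : QA)‖ ≤ 1 * ‖φ (x : QA)‖ :=
          mul_le_mul_of_nonneg_right h1 (norm_nonneg _)
      _ < 1 := by rwa [one_mul]

theorem mem_MM {φ : QA →+* C} {r : LL φ} : r ∈ MM φ ↔ ‖φ (r : QA)‖ < 1 := Iff.rfl

instance {φ : QA →+* C} : (MM φ).IsPrime := by
  refine ⟨?_, ?_⟩
  · intro h
    have : (1 : LL φ) ∈ MM φ := by rw [h]; trivial
    rw [mem_MM] at this
    simp at this
  · intro x y hxy
    rw [mem_MM] at hxy
    by_contra hcon
    push Not at hcon
    have h1 : ‖φ (x : QA)‖ = 1 := le_antisymm x.2 (not_lt.1 fun h => hcon.1 (mem_MM.2 h))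
    have h2 : ‖φ (y : QA)‖ = 1 := le_antisymm y.2 (not_lt.1 fun h => hcon.2 (mem_MM.2 h))
    have h3 : ‖φ (((x * y : LL φ)) : QA)‖ = 1 := by
      show ‖φ ((x : QA) * y)‖ = 1
      rw [map_mul, norm_mul, h1, h2, one_mul]
    rw [h3] at hxy
    exact lt_irrefl _ hxy

instance (φ : QA →+* C) : Algebra.IsAlgebraic ℤ (LL φ) := by
  refine ⟨fun a => ?_⟩
  have h1 : IsAlgebraic ℤ ((a : QA) : ℂ) := algZ (mem_QA.1 (a : QA).2)
  have hinj : Function.Injective (algebraMap (LL φ) ℂ) := by
    intro x y h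
    exact Subtype.ext (Subtype.ext h)
  exact (isAlgebraic_algebraMap_iff hinj).1 h1

end

/-- Above almost every prime there is a valuation ring of `ℂ` containing given elements of `k` and
given numbers algebraically independent over `k`, compatible with a given embedding. -/
theorem exists_valC {k : Type} [Field k] [Algebra k ℂ] [CharZero k] {ι : Type*} [Finite ι]
    (t : ι → k) : ∃ D : ℕ, ∀ p : ℕ, p.Prime → D < p →
      ∀ (C : Type) [NormedField C] [IsUltrametricDist C] (φ : QA →+* C), ‖(p : C)‖ < 1 →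
      ∀ (τ : Type) (x : τ → ℂ), AlgebraicIndependent k x → ∃ V : ValuationSubring ℂ,
        (∀ r : QA, ‖φ r‖ ≤ 1 → V.valuation (rA r) ≤ 1) ∧
        (∀ r : QA, ‖φ r‖ < 1 → V.valuation (rA r) < 1) ∧
        (∀ i, algebraMap k ℂ (t i) ∈ V) ∧ ∀ j, x j ∈ V := by
  classical
  have := Fintype.ofFinite ι
  have : FaithfulSMul ℤ k := (faithfulSMul_iff_algebraMap_injective ℤ k).2 Int.cast_injective
  obtain ⟨s, hs⟩ := exists_isTranscendenceBasis ℤ k
  have : Algebra.IsAlgebraic ℤ ℚ := IsLocalization.isAlgebraic ℚ (nonZeroDivisors ℤ)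
  have halg : Algebra.IsAlgebraic (Algebra.adjoin ℤ (Set.range ((↑) : s → k))) k := hs.isAlgebraic
  have h1 : ∀ i, ∃ f : MvPolynomial s ℤ, f ≠ 0 ∧
      IsIntegral (Algebra.adjoin ℤ (Set.range ((↑) : s → k)))
        (aeval ((↑) : s → k) f * t i) := by
    intro i
    obtain ⟨a, ha, hint⟩ := (halg.1 (t i)).exists_integral_multiple
    have h2 : (a : k) ∈ (aeval ((↑) : s → k) : MvPolynomial s ℤ →ₐ[ℤ] k).range := by
      rw [← Algebra.adjoin_range_eq_range_aeval]
      exact a.2
    obtain ⟨f, hf⟩ := h2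
    refine ⟨f, ?_, ?_⟩
    · rintro rfl
      apply ha
      apply Subtype.ext
      rw [← hf]
      simp
    · have h3 : aeval ((↑) : s → k) f = (a : k) := hf
      rw [h3]
      exact hint
  choose f hf hint using h1
  have h2 : ∀ i, ∃ m, (f i).coeff m ≠ 0 := fun i => by
    by_contra h
    push Not at h
    exact hf i (MvPolynomial.ext _ _ fun m => by rw [h m, coeff_zero])
  choose m hm using h2
  refine ⟨∑ i, ((f i).coeff (m i)).natAbs, fun p hp hpD C _ _ φ hp1 τ x hx => ?_⟩
  have : Fact p.Prime := ⟨hp⟩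
  let y : s ⊕ τ → ℂ := Sum.elim (fun a => algebraMap k ℂ a) x
  have hsum : AlgebraicIndependent ℤ (Sum.elim x (algebraMap k ℂ ∘ ((↑) : s → k))) :=
    hs.1.sumElim_comp hx
  have hyZ : AlgebraicIndependent ℤ y := by
    have h3 := hsum.comp (Equiv.sumComm s τ) (Equiv.injective _)
    have h4 : Sum.elim x (algebraMap k ℂ ∘ ((↑) : s → k)) ∘ (Equiv.sumComm s τ) = y := by
      funext a
      rcases a with a | a <;> rfl
    rwa [h4] at h3
  have hinjL : Function.Injective (algebraMap (LL φ) ℂ) := by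
    intro x y h
    exact Subtype.ext (Subtype.ext h)
  have : FaithfulSMul (LL φ) ℂ := (faithfulSMul_iff_algebraMap_injective _ _).2 hinjL
  have hyL : AlgebraicIndependent (LL φ) y := hyZ.extendScalars (LL φ)
  obtain ⟨V, hV1, hV2⟩ := exists_gaussV (MM φ) y hyL
  have hyV : ∀ j, y j ∈ V := by
    intro j
    rw [← ValuationSubring.valuation_le_one_iff]
    have := hV1 (X j)
    rwa [aeval_X] at this
  refine ⟨V, fun r hr => ?_, fun r hr => ?_, fun i => ?_, fun j => hyV (Sum.inr j)⟩
  · have := hV1 (MvPolynomial.C ⟨r, hr⟩)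
    rw [aeval_C] at this
    exact this
  · have := (hV2 (MvPolynomial.C ⟨r, hr.le⟩)).2 (by
      rw [MvPolynomial.map_C, Ideal.Quotient.eq_zero_iff_mem.2 (mem_MM.2 hr), C_0])
    rw [aeval_C] at this
    exact this
  have hnd : ¬ ((p : ℤ) ∣ (f i).coeff (m i)) := by
    intro h3'
    have h3 : p ∣ ((f i).coeff (m i)).natAbs := Int.natCast_dvd.1 h3'
    have h4 := Nat.le_of_dvd (Int.natAbs_pos.2 (hm i)) h3
    have h5 : ((f i).coeff (m i)).natAbs ≤ ∑ i, ((f i).coeff (m i)).natAbs :=
      Finset.single_le_sum (f := fun i => ((f i).coeff (m i)).natAbs)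
        (fun _ _ => Nat.zero_le _) (Finset.mem_univ i)
    omega
  have h3 : V.valuation (aeval y (rename (Sum.inl : s → s ⊕ τ) (f i))) = 1 := by
    set F : MvPolynomial (s ⊕ τ) (LL φ) :=
      MvPolynomial.map (Int.castRingHom (LL φ)) (rename (Sum.inl : s → s ⊕ τ) (f i)) with hF
    have e1 : aeval y (rename (Sum.inl : s → s ⊕ τ) (f i)) = aeval y F := by
      rw [hF, aeval_def, aeval_def, eval₂_map]
      congr 1
    rw [e1]
    refine le_antisymm (hV1 F) (not_lt.1 fun hlt => ?_)
    have h4 := (hV2 F).1 hlt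
    have h5 := congrArg (coeff ((m i).mapDomain (Sum.inl : s → s ⊕ τ))) h4
    rw [hF, coeff_map, coeff_map, coeff_rename_mapDomain _ Sum.inl_injective, coeff_zero,
      Ideal.Quotient.eq_zero_iff_mem, mem_MM] at h5
    have h6 : φ (((Int.castRingHom (LL φ)) ((f i).coeff (m i)) : LL φ) : QA) =
        (((f i).coeff (m i) : ℤ) : C) := by
      simp
    rw [h6, int_unit hp1 hnd] at h5
    exact lt_irrefl _ h5
  rw [aeval_rename] at h3
  have h6 : y ∘ Sum.inl = fun a : s => algebraMap k ℂ a := rfl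
  rw [h6] at h3
  have h7 : aeval (fun a : s => algebraMap k ℂ a) (f i) =
      algebraMap k ℂ (aeval ((↑) : s → k) (f i)) := by
    have h8 := MvPolynomial.map_aeval (R := ℤ) ((↑) : s → k) (algebraMap k ℂ) (f i)
    rw [h8, aeval_def, coe_eval₂Hom]
    congr 1
    exact RingHom.ext_int _ _
  rw [h7] at h3
  have h4 : algebraMap k ℂ (aeval ((↑) : s → k) (f i) * t i) ∈ V := by
    obtain ⟨P, hP, hPe⟩ := hint i
    have hle : ∀ z ∈ Algebra.adjoin ℤ (Set.range ((↑) : s → k)), algebraMap k ℂ z ∈ V := by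
      intro z hz
      have h9 : Algebra.adjoin ℤ (Set.range ((↑) : s → k)) ≤
          (subalgebraOfSubring V.toSubring).comap ((algebraMap k ℂ).toIntAlgHom) := by
        refine Algebra.adjoin_le ?_
        rintro _ ⟨a, rfl⟩
        exact hyV (Sum.inl a)
      exact h9 hz
    let φ : Algebra.adjoin ℤ (Set.range ((↑) : s → k)) →+* V :=
      { toFun := fun a => ⟨algebraMap k ℂ a, hle a a.2⟩
        map_one' := Subtype.ext (map_one _)
        map_mul' := fun _ _ => Subtype.ext (map_mul (algebraMap k ℂ) _ _)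
        map_zero' := Subtype.ext (map_zero _)
        map_add' := fun _ _ => Subtype.ext (map_add (algebraMap k ℂ) _ _) }
    have h1 : IsIntegral V (algebraMap k ℂ (aeval ((↑) : s → k) (f i) * t i)) := by
      refine ⟨P.map φ, hP.map φ, ?_⟩
      rw [Polynomial.eval₂_map]
      have h10 := congrArg (algebraMap k ℂ) hPe
      rw [Polynomial.hom_eval₂, map_zero] at h10
      exact h10
    obtain ⟨y, hy⟩ := IsIntegrallyClosed.isIntegral_iff.1 h1
    rw [← hy]
    exact y.2
  rw [← ValuationSubring.valuation_le_one_iff, map_mul, map_mul, h3, one_mul] at h4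
  exact (ValuationSubring.valuation_le_one_iff _ _).1 h4

end Pool.Agent.V8H78.MP
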