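import Pool.Agent.V8H78.MP.Val

/-!
Valuation rings of `ℂ` above all primes, compatible with a given embedding of the algebraic
numbers in an ultrametric field, which contain given numbers algebraically independent over a field
`k`, and fixed integral multiples of given elements of `k`.
-/

set_option autoImplicit false
set_option linter.unusedSectionVars false

open Function MvPolynomial

namespace Pool.Agent.V8H78.MP

open Pool.Agent.Y226

theorem exists_prim {s : Type*} {f : MvPolynomial s ℤ} (hf : f ≠ 0) :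
    ∃ (c : ℤ) (g : MvPolynomial s ℤ), c ≠ 0 ∧ f = C c * g ∧
      ∀ p : ℕ, p.Prime → ∃ m, ¬ ((p : ℤ) ∣ g.coeff m) := by
  classical
  have hc : f.support.gcd (fun m => f.coeff m) ≠ 0 := by
    intro h
    rw [Finset.gcd_eq_zero_iff] at h
    apply hf
    refine MvPolynomial.ext _ _ fun m => ?_
    rw [coeff_zero]
    by_contra h1
    exact h1 (h m (mem_support_iff.2 h1))
  have hdvd : C (f.support.gcd (fun m => f.coeff m)) ∣ f := by
    rw [C_dvd_iff_dvd_coeff]
    intro m
    by_cases hm : m ∈ f.support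
    · exact Finset.gcd_dvd hm
    · rw [notMem_support_iff.1 hm]
      exact dvd_zero _
  obtain ⟨g, hg⟩ := hdvd
  refine ⟨_, g, hc, hg, fun p hp => ?_⟩
  by_contra hcon
  push Not at hcon
  have h1 : (p : ℤ) * f.support.gcd (fun m => f.coeff m) ∣ f.support.gcd (fun m => f.coeff m) := by
    refine Finset.dvd_gcd fun m _ => ?_
    have h2 : f.coeff m = f.support.gcd (fun m => f.coeff m) * g.coeff m := by
      conv_lhs => rw [hg]
      rw [coeff_C_mul]
    show _ ∣ f.coeff m
    rw [h2, mul_comm (p : ℤ)]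
    exact mul_dvd_mul_left _ (hcon m)
  have h3 : (p : ℤ) ∣ 1 := by
    have h4 : (p : ℤ) * f.support.gcd (fun m => f.coeff m) ∣
        1 * f.support.gcd (fun m => f.coeff m) := by rwa [one_mul]
    exact (mul_dvd_mul_iff_right hc).1 h4
  have h5 := Int.natCast_dvd_natCast.1 (by exact_mod_cast h3 : ((p : ℕ) : ℤ) ∣ ((1 : ℕ) : ℤ))
  exact hp.one_lt.ne' (Nat.dvd_one.1 h5)

/-- Above every prime there is a valuation ring of `ℂ` containing fixed integral multiples of given
elements of `k` and given numbers algebraically independent over `k`, compatible with a given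
embedding. -/
theorem exists_valW {k : Type} [Field k] [Algebra k ℂ] [CharZero k] {ι : Type*} [Finite ι]
    (t : ι → k) : ∃ W : ℕ, 0 < W ∧ ∀ p : ℕ, p.Prime →
      ∀ (C : Type) [NormedField C] [IsUltrametricDist C] (φ : QA →+* C), ‖(p : C)‖ < 1 →
      ∀ (τ : Type) (x : τ → ℂ), AlgebraicIndependent k x → ∃ V : ValuationSubring ℂ,
        (∀ r : QA, ‖φ r‖ ≤ 1 → V.valuation (rA r) ≤ 1) ∧
        (∀ r : QA, ‖φ r‖ < 1 → V.valuation (rA r) < 1) ∧
        (∀ i, (W : ℂ) * algebraMap k ℂ (t i) ∈ V) ∧ ∀ j, x j ∈ V := by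
  classical
  have := Fintype.ofFinite ι
  have : FaithfulSMul ℤ k := (faithfulSMul_iff_algebraMap_injective ℤ k).2 Int.cast_injective
  obtain ⟨s, hs⟩ := exists_isTranscendenceBasis ℤ k
  have : Algebra.IsAlgebraic ℤ ℚ := IsLocalization.isAlgebraic ℚ (nonZeroDivisors ℤ)
  have halg : Algebra.IsAlgebraic (Algebra.adjoin ℤ (Set.range ((↑) : s → k))) k := hs.isAlgebraic
  have h1 : ∀ i, ∃ (c : ℤ) (f : MvPolynomial s ℤ), c ≠ 0 ∧
      (∀ p : ℕ, p.Prime → ∃ m, ¬ ((p : ℤ) ∣ f.coeff m)) ∧
      IsIntegral (Algebra.adjoin ℤ (Set.range ((↑) : s → k)))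
        (aeval ((↑) : s → k) f * (c * t i)) := by
    intro i
    obtain ⟨a, ha, hint⟩ := (halg.1 (t i)).exists_integral_multiple
    have h2 : (a : k) ∈ (aeval ((↑) : s → k) : MvPolynomial s ℤ →ₐ[ℤ] k).range := by
      rw [← Algebra.adjoin_range_eq_range_aeval]
      exact a.2
    obtain ⟨f, hf⟩ := h2
    have hf0 : f ≠ 0 := by
      rintro rfl
      apply ha
      apply Subtype.ext
      rw [← hf]
      simp
    obtain ⟨c, g, hc, hfg, hg⟩ := exists_prim hf0
    refine ⟨c, g, hc, hg, ?_⟩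
    have h3 : aeval ((↑) : s → k) f = (a : k) := hf
    have h4 : aeval ((↑) : s → k) g * (c * t i) = a • t i := by
      rw [Subalgebra.smul_def, smul_eq_mul, ← h3, hfg, map_mul, aeval_C]
      simp only [eq_intCast]
      ring
    rw [h4]
    exact hint
  choose c f hc hm hint using h1
  refine ⟨∏ i, (c i).natAbs, Finset.prod_pos fun i _ => Int.natAbs_pos.2 (hc i),
    fun p hp C _ _ φ hp1 τ x hx => ?_⟩
  have : Fact p.Prime := ⟨hp⟩
  let y : s ⊕ τ → ℂ := Sum.elim (fun a => algebraMap k ℂ a) x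
  have hsum : AlgebraicIndependent ℤ (Sum.elim x (algebraMap k ℂ ∘ ((↑) : s → k))) :=
    hs.1.sumElim_comp hx
  have hyZ : AlgebraicIndependent ℤ y := by
    have h3 := hsum.comp (Equiv.sumComm s τ) (Equiv.injective _)
    have h4 : Sum.elim x (algebraMap k ℂ ∘ ((↑) : s → k)) ∘ (Equiv.sumComm s τ) = y := by
      funext a
      rcases a with a | a <;> rfl
    rwa [h4] at h3
  have hinjL : Function.Injective (algebraMap (LL φ) ℂ) := by
    intro x y h
    exact Subtype.ext (Subtype.ext h)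
  have : FaithfulSMul (LL φ) ℂ := (faithfulSMul_iff_algebraMap_injective _ _).2 hinjL
  have hyL : AlgebraicIndependent (LL φ) y := hyZ.extendScalars (LL φ)
  obtain ⟨V, hV1, hV2⟩ := exists_gaussV (MM φ) y hyL
  have hyV : ∀ j, y j ∈ V := by
    intro j
    rw [← ValuationSubring.valuation_le_one_iff]
    have := hV1 (X j)
    rwa [aeval_X] at this
  refine ⟨V, fun r hr => ?_, fun r hr => ?_, fun i => ?_, fun j => hyV (Sum.inr j)⟩
  · have := hV1 (MvPolynomial.C ⟨r, hr⟩)
    rw [aeval_C] at this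
    exact this
  · have := (hV2 (MvPolynomial.C ⟨r, hr.le⟩)).2 (by
      rw [MvPolynomial.map_C, Ideal.Quotient.eq_zero_iff_mem.2 (mem_MM.2 hr), C_0])
    rw [aeval_C] at this
    exact this
  obtain ⟨m, hnd⟩ := hm i p hp
  have h3 : V.valuation (aeval y (rename (Sum.inl : s → s ⊕ τ) (f i))) = 1 := by
    set F : MvPolynomial (s ⊕ τ) (LL φ) :=
      MvPolynomial.map (Int.castRingHom (LL φ)) (rename (Sum.inl : s → s ⊕ τ) (f i)) with hF
    have e1 : aeval y (rename (Sum.inl : s → s ⊕ τ) (f i)) = aeval y F := by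
      rw [hF, aeval_def, aeval_def, eval₂_map]
      congr 1
    rw [e1]
    refine le_antisymm (hV1 F) (not_lt.1 fun hlt => ?_)
    have h4 := (hV2 F).1 hlt
    have h5 := congrArg (coeff (m.mapDomain (Sum.inl : s → s ⊕ τ))) h4
    rw [hF, coeff_map, coeff_map, coeff_rename_mapDomain _ Sum.inl_injective, coeff_zero,
      Ideal.Quotient.eq_zero_iff_mem, mem_MM] at h5
    have h6 : φ (((Int.castRingHom (LL φ)) ((f i).coeff m) : LL φ) : QA) =
        (((f i).coeff m : ℤ) : C) := by
      simp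
    rw [h6, int_unit hp1 hnd] at h5
    exact lt_irrefl _ h5
  rw [aeval_rename] at h3
  have h6 : y ∘ Sum.inl = fun a : s => algebraMap k ℂ a := rfl
  rw [h6] at h3
  have h7 : aeval (fun a : s => algebraMap k ℂ a) (f i) =
      algebraMap k ℂ (aeval ((↑) : s → k) (f i)) := by
    have h8 := MvPolynomial.map_aeval (R := ℤ) ((↑) : s → k) (algebraMap k ℂ) (f i)
    rw [h8, aeval_def, coe_eval₂Hom]
    congr 1
    exact RingHom.ext_int _ _
  rw [h7] at h3
  have h4 : algebraMap k ℂ (aeval ((↑) : s → k) (f i) * (c i * t i)) ∈ V := by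
    obtain ⟨P, hP, hPe⟩ := hint i
    have hle : ∀ z ∈ Algebra.adjoin ℤ (Set.range ((↑) : s → k)), algebraMap k ℂ z ∈ V := by
      intro z hz
      have h9 : Algebra.adjoin ℤ (Set.range ((↑) : s → k)) ≤
          (subalgebraOfSubring V.toSubring).comap ((algebraMap k ℂ).toIntAlgHom) := by
        refine Algebra.adjoin_le ?_
        rintro _ ⟨a, rfl⟩
        exact hyV (Sum.inl a)
      exact h9 hz
    let φ : Algebra.adjoin ℤ (Set.range ((↑) : s → k)) →+* V :=
      { toFun := fun a => ⟨algebraMap k ℂ a, hle a a.2⟩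
        map_one' := Subtype.ext (map_one _)
        map_mul' := fun _ _ => Subtype.ext (map_mul (algebraMap k ℂ) _ _)
        map_zero' := Subtype.ext (map_zero _)
        map_add' := fun _ _ => Subtype.ext (map_add (algebraMap k ℂ) _ _) }
    have h1 : IsIntegral V (algebraMap k ℂ (aeval ((↑) : s → k) (f i) * (c i * t i))) := by
      refine ⟨P.map φ, hP.map φ, ?_⟩
      rw [Polynomial.eval₂_map]
      have h10 := congrArg (algebraMap k ℂ) hPe
      rw [Polynomial.hom_eval₂, map_zero] at h10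
      exact h10
    obtain ⟨y, hy⟩ := IsIntegrallyClosed.isIntegral_iff.1 h1
    rw [← hy]
    exact y.2
  rw [← ValuationSubring.valuation_le_one_iff, map_mul, map_mul, h3, one_mul] at h4
  have h5 : algebraMap k ℂ (c i * t i) ∈ V := (ValuationSubring.valuation_le_one_iff _ _).1 h4
  obtain ⟨b, hb⟩ : (c i) ∣ ((∏ i, (c i).natAbs : ℕ) : ℤ) :=
    (Int.dvd_natAbs_self).trans (Int.natCast_dvd_natCast.2 (Finset.dvd_prod_of_mem _ (Finset.mem_univ i)))
  have h8 : (((∏ i, (c i).natAbs : ℕ) : ℕ) : ℂ) * algebraMap k ℂ (t i) =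
      (b : ℂ) * algebraMap k ℂ (c i * t i) := by
    have h9 : (((∏ i, (c i).natAbs : ℕ) : ℤ) : ℂ) = ((c i * b : ℤ) : ℂ) := by rw [hb]
    rw [Int.cast_natCast] at h9
    rw [h9, map_mul, map_intCast]
    push_cast
    ring
  rw [h8]
  exact mul_mem (intCast_mem V b) h5

end Pool.Agent.V8H78.MP
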